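import Pool.Agent.TFK.St

/-!
# MAIN (project TFK)
-/

set_option autoImplicit false

namespace Pool.Agent.TFK.MAIN

open Function Finset

section

variable {W : Type} [Fintype W] {G : SimpleGraph W}

theorem connected_of_four (h4 : KR.FourConn G) : G.Connected := by
  have h := h4.2 ∅ (by simp)
  have e : ((∅ : Finset W) : Set W)ᶜ = Set.univ := by simp
  rw [e] at h
  let f : G.induce (Set.univ : Set W) →g G :=
    { toFun := fun z => z.1
      map_rel' := fun h => h }
  rw [SimpleGraph.connected_iff]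
  refine ⟨?_, ?_⟩
  · intro u v
    obtain ⟨w⟩ := h.preconnected ⟨u, trivial⟩ ⟨v, trivial⟩
    exact ⟨w.map f⟩
  · obtain ⟨x⟩ := h.nonempty
    exact ⟨x.1⟩

theorem exists_nb (h4 : KR.FourConn G) (v : W) : ∃ u, G.Adj v u := by
  have hc := connected_of_four h4
  have h5 := h4.1
  obtain ⟨w, hw⟩ : ∃ w, w ≠ v := Fintype.exists_ne_of_one_lt_card (by omega) v
  obtain ⟨p⟩ := hc.preconnected v w
  cases p with
  | nil => exact absurd rfl hw
  | cons h _ => exact ⟨_, h⟩

end

theorem sum_nb {W : Type} [Fintype W] (H : SimpleGraph W) :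
    ∑ v, (H.neighborSet v).ncard = 2 * H.edgeSet.ncard := by
  classical
  have h := H.sum_degrees_eq_twice_card_edges
  have e1 : H.edgeSet.ncard = H.edgeFinset.card := by
    rw [← Set.ncard_coe_finset]
    congr 1
    ext x
    simp
  have e2 : ∀ v, (H.neighborSet v).ncard = H.degree v := by
    intro v
    rw [← SimpleGraph.card_neighborSet_eq_degree, ← Nat.card_eq_fintype_card]
    rfl
  rw [e1, ← h]
  exact Finset.sum_congr rfl (fun v _ => e2 v)

open Classical in
theorem key (hFOUR : Stmt_FOUR) (hEUL : Stmt_EUL) {W Ω : Type} [Fintype W] [Finite Ω]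
    (G : SimpleGraph W) (M : KR.GMap G Ω) (k : ℕ)
    (hk : Nat.card Ω ≤ 4 * (Nat.card W + Nat.card M.Face + k)) (h4 : KR.FourConn G)
    (S T : Set W) (𝒞 : Set (Set W)) (hB : Bar G k S T 𝒞) : False := by
  obtain ⟨ha, hb, hc, hd, he⟩ := hFOUR W G k S T 𝒞 h4 hB
  let Y : T ⊕ (S ⊕ C3 G T 𝒞) → Set W := fun a => match a with
    | Sum.inl t => AA G T 𝒞 t.1
    | Sum.inr (Sum.inl s) => {s.1}
    | Sum.inr (Sum.inr C) => C.1
  have hE := hEUL W Ω T (S ⊕ C3 G T 𝒞) G M k hk (connected_of_four h4) Y ?_ ?_ ?_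
  · rw [Nat.card_sum] at hE
    have h1 : Nat.card T = T.ncard := rfl
    have h2 : Nat.card S = S.ncard := rfl
    have h3 : Nat.card (C3 G T 𝒞) = (C3 G T 𝒞).ncard := rfl
    omega
  · -- disjointness
    have dsC : ∀ s : S, ∀ C : C3 G T 𝒞, Disjoint ({s.1} : Set W) C.1 := by
      intro s C
      rw [Set.disjoint_singleton_left]
      exact fun h => Set.disjoint_left.1 (hB.cS C.1 C.2.1) h s.2
    have dss : ∀ s s' : S, s ≠ s' → Disjoint ({s.1} : Set W) {s'.1} := by
      intro s s' h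
      rw [Set.disjoint_singleton]
      exact fun h' => h (Subtype.ext h')
    have dCC : ∀ C D : C3 G T 𝒞, C ≠ D → Disjoint C.1 D.1 := by
      intro C D h
      exact hB.cpair C.1 C.2.1 D.1 D.2.1 (fun h' => h (Subtype.ext h'))
    have dAs : ∀ (t : T) (s : S), Disjoint (AA G T 𝒞 t.1) ({s.1} : Set W) := by
      intro t s
      rw [Set.disjoint_singleton_right]
      exact fun h => Set.disjoint_left.1 (he t.1 t.2).1 h s.2
    rintro (t | s | C) (t' | s' | C') hne
    · exact hd t.1 t.2 t'.1 t'.2 (fun h => hne (by rw [Subtype.ext h]))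
    · exact dAs t s'
    · exact (he t.1 t.2).2 C'.1 C'.2
    · exact (dAs t' s).symm
    · exact dss s s' (fun h => hne (by rw [h]))
    · exact dsC s C'
    · exact ((he t'.1 t'.2).2 C.1 C.2).symm
    · exact (dsC s' C).symm
    · exact dCC C C' (fun h => hne (by rw [h]))
  · rintro (t | s | C)
    · exact hc t.1 t.2
    · show (G.induce {s.1}).Connected
      rw [SimpleGraph.connected_iff]
      refine ⟨?_, ⟨⟨s.1, rfl⟩⟩⟩
      rintro ⟨a, ha'⟩ ⟨b, hb'⟩
      have h1 : a = s.1 := ha'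
      have h2 : b = s.1 := hb'
      subst h1
      subst h2
      exact SimpleGraph.Reachable.refl _
    · exact hB.cconn C.1 C.2.1
  · intro t
    refine (hb t.1 t.2).trans ?_
    -- the set of indices is the disjoint union of two images
    have hsub : ∀ (P : Set (S ⊕ C3 G T 𝒞)),
        (∀ s : S, (∃ u ∈ AA G T 𝒞 t.1, G.Adj u s.1) → Sum.inl s ∈ P) →
        (∀ C : C3 G T 𝒞, (∃ u ∈ AA G T 𝒞 t.1, Tou G u C.1) → Sum.inr C ∈ P) →
        {s | s ∈ S ∧ ∃ u ∈ AA G T 𝒞 t.1, G.Adj u s}.ncard +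
          {C | C ∈ C3 G T 𝒞 ∧ ∃ u ∈ AA G T 𝒞 t.1, Tou G u C}.ncard ≤ P.ncard := by
      intro P h1 h2
      have e1 : {s | s ∈ S ∧ ∃ u ∈ AA G T 𝒞 t.1, G.Adj u s}.ncard ≤
          (P ∩ Set.range Sum.inl).ncard := by
        have : (Sum.inl '' {s : S | ∃ u ∈ AA G T 𝒞 t.1, G.Adj u s.1} :
            Set (S ⊕ C3 G T 𝒞)) ⊆ P ∩ Set.range Sum.inl := by
          rintro _ ⟨s, hs, rfl⟩
          exact ⟨h1 s hs, s, rfl⟩
        refine le_trans (le_of_eq ?_) (Set.ncard_le_ncard this (Set.toFinite _))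
        rw [Set.ncard_image_of_injective _ Sum.inl_injective,
          ← Set.ncard_image_of_injective {s : S | ∃ u ∈ AA G T 𝒞 t.1, G.Adj u s.1}
            Subtype.val_injective]
        congr 1
        ext x
        simp only [Set.mem_ofPred_eq, Set.mem_image, Subtype.exists, exists_and_right,
          exists_eq_right]
        exact ⟨fun h => ⟨h.1, h.2⟩, fun ⟨h, h'⟩ => ⟨h, h'⟩⟩
      have e2 : {C | C ∈ C3 G T 𝒞 ∧ ∃ u ∈ AA G T 𝒞 t.1, Tou G u C}.ncard ≤
          (P ∩ Set.range Sum.inr).ncard := by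
        have : (Sum.inr '' {C : C3 G T 𝒞 | ∃ u ∈ AA G T 𝒞 t.1, Tou G u C.1} :
            Set (S ⊕ C3 G T 𝒞)) ⊆ P ∩ Set.range Sum.inr := by
          rintro _ ⟨s, hs, rfl⟩
          exact ⟨h2 s hs, s, rfl⟩
        refine le_trans (le_of_eq ?_) (Set.ncard_le_ncard this (Set.toFinite _))
        rw [Set.ncard_image_of_injective _ Sum.inr_injective,
          ← Set.ncard_image_of_injective {C : C3 G T 𝒞 | ∃ u ∈ AA G T 𝒞 t.1, Tou G u C.1}
            Subtype.val_injective]
        congr 1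
        ext x
        simp only [Set.mem_ofPred_eq, Set.mem_image, Subtype.exists, exists_and_right,
          exists_eq_right]
        exact ⟨fun h => ⟨h.1, h.2⟩, fun ⟨h, h'⟩ => ⟨h, h'⟩⟩
      have e3 : (P ∩ Set.range Sum.inl).ncard + (P ∩ Set.range Sum.inr).ncard ≤ P.ncard := by
        rw [← Set.ncard_union_eq _ (Set.toFinite _) (Set.toFinite _)]
        · exact Set.ncard_le_ncard (Set.union_subset Set.inter_subset_left
            Set.inter_subset_left) (Set.toFinite _)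
        · rw [Set.disjoint_left]
          rintro x ⟨_, a, rfl⟩ ⟨_, b, hb'⟩
          exact absurd hb' Sum.inr_ne_inl
      omega
    refine hsub _ ?_ ?_
    · rintro s ⟨u, hu, hus⟩
      exact ⟨u, hu, s.1, rfl, hus⟩
    · rintro C ⟨u, hu, v, hv, huv⟩
      exact ⟨u, hu, v, hv, huv⟩

theorem main (hBAR : Stmt_BAR) (hFOUR : Stmt_FOUR) (hEUL : Stmt_EUL) : Stmt_MAIN := by
  intro W Ω _ _ G M k hk h4
  by_cases hex : ∃ H : SimpleGraph W, H ≤ G ∧ (∀ v, (H.neighborSet v).ncard ≤ 2) ∧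
    Nat.card W ≤ H.edgeSet.ncard + k
  · obtain ⟨H, h1, h2, h3⟩ := hex
    refine ⟨H, h1, h2, h3, ?_⟩
    intro hk0 v
    subst hk0
    have hs := sum_nb H
    have hle : ∑ v, (H.neighborSet v).ncard ≤ ∑ _v : W, 2 :=
      Finset.sum_le_sum (fun v _ => h2 v)
    have he : ∑ _v : W, 2 = 2 * Nat.card W := by
      rw [Finset.sum_const, smul_eq_mul, Nat.card_eq_fintype_card, mul_comm]
      rfl
    by_contra hne
    have hlt : (H.neighborSet v).ncard < 2 := lt_of_le_of_ne (h2 v) hne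
    have : ∑ v, (H.neighborSet v).ncard < ∑ _v : W, 2 :=
      Finset.sum_lt_sum (fun v _ => h2 v) ⟨v, mem_univ _, hlt⟩
    omega
  · exfalso
    obtain ⟨S, T, 𝒞, hB⟩ := hBAR W G k (exists_nb h4) hex
    exact key hFOUR hEUL G M k hk h4 S T 𝒞 hB

end Pool.Agent.TFK.MAIN

namespace Pool.Agent.TFK

theorem MAIN_thm (hBAR : Stmt_BAR) (hFOUR : Stmt_FOUR) (hEUL : Stmt_EUL) : Stmt_MAIN :=
  MAIN.main hBAR hFOUR hEUL

end Pool.Agent.TFK
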