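import Pool.Agent.TFK.LA

/-!
# SIDE: every region has at least four sides (project TFK)
-/

set_option autoImplicit false

namespace Pool.Agent.TFK.SIDE

open Function Finset
open Pool.Agent.TFK.LA (even_card_inv wne n0 face0 face1)

/-- the flags are connected -/
theorem conn_all {W Ω : Type} {G : SimpleGraph W} (M : KR.GMap G Ω) (hG : G.Connected)
    (g : Ω → Prop) (h0 : ∀ x, g (M.a0 x) ↔ g x) (h1 : ∀ x, g (M.a1 x) ↔ g x)
    (h2 : ∀ x, g (M.a2 x) ↔ g x) (x y : Ω) (hx : g x) : g y := by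
  have hP : ∀ v, G.Reachable (M.w x) v → ∀ z, M.w z = v → g z := by
    intro v hv
    obtain ⟨p⟩ := hv
    have key : ∀ {u v : W}, G.Walk u v → (∀ z, M.w z = u → g z) → (∀ z, M.w z = v → g z) := by
      intro u v p
      induction p with
      | nil => exact fun h => h
      | cons h q ih =>
        intro hu
        apply ih
        intro z hz
        obtain ⟨t, ht, ht'⟩ := (M.adj _ _).1 h
        have h3 : g (M.a0 t) := (h0 t).2 (hu t ht)
        exact M.vtx g h1 h2 (M.a0 t) z (ht'.trans hz.symm) h3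
    exact key p (fun z hz => M.vtx g h1 h2 x z hz.symm hx)
  exact hP (M.w y) (hG.preconnected _ _) y rfl

section

variable {W Ω N : Type} [Fintype W] [Fintype Ω] [Fintype N] [DecidableEq Ω] [DecidableEq W]
  [DecidableEq N] {G : SimpleGraph W} (M : KR.GMap G Ω)

open Classical in
theorem region (hG : G.Connected) (lab : W → N) (sd : N → Bool) (B E : Set Ω)
    (hB : IsE M B) (hE : IsE M E)
    (hBs : ∀ x ∈ B, sd (lab (M.w x)) ≠ sd (lab (M.w (M.a0 x))))
    (hEs : ∀ x ∈ E, lab (M.w x) = lab (M.w (M.a0 x)))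
    (hsi : ∀ x ∈ B, ∀ y ∈ B, lab (M.w x) = lab (M.w y) →
      lab (M.w (M.a0 x)) = lab (M.w (M.a0 y)) → y = x ∨ y = M.a2 x)
    (hno : NoCyc M E) (hc : 4 < B.ncard) (Fl : Set Ω) (hne : Fl.Nonempty)
    (f0 : ∀ x, M.a0 x ∈ Fl ↔ x ∈ Fl) (f1 : ∀ x, M.a1 x ∈ Fl ↔ x ∈ Fl)
    (f2 : ∀ x, x ∉ B → x ∉ E → (M.a2 x ∈ Fl ↔ x ∈ Fl)) :
    8 ≤ (univ.filter (fun x => x ∈ B ∧ x ∈ Fl)).card := by
  have hdis : ∀ x, x ∈ B → x ∉ E := fun x h h' => hBs x h (by rw [hEs x h'])
  -- (1)
  have s1 : ∀ v : W, Even (univ.filter (fun x => (x ∈ B ∨ x ∈ E) ∧ x ∈ Fl ∧ M.w x = v)).card := by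
    intro v
    have e1 : Even (univ.filter (fun x => x ∈ Fl ∧ M.w x = v)).card := by
      refine even_card_inv _ M.a1 ?_ (fun x _ => M.n1 x) (fun x _ => M.i1 x)
      intro x hx
      simp only [mem_filter, mem_univ, true_and] at hx ⊢
      exact ⟨(f1 x).2 hx.1, by rw [M.w1]; exact hx.2⟩
    have e2 : Even (univ.filter (fun x => ¬ (x ∈ B ∨ x ∈ E) ∧ x ∈ Fl ∧ M.w x = v)).card := by
      refine even_card_inv _ M.a2 ?_ (fun x _ => M.n2 x) (fun x _ => M.i2 x)
      intro x hx
      simp only [mem_filter, mem_univ, true_and] at hx ⊢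
      obtain ⟨h1, h2, h3⟩ := hx
      rw [not_or] at h1
      refine ⟨by rw [hB.2, hE.2, not_or]; exact h1, (f2 x h1.1 h1.2).2 h2, by rw [M.w2]; exact h3⟩
    have e3 := Finset.card_filter_add_card_filter_not
      (s := univ.filter (fun x => x ∈ Fl ∧ M.w x = v)) (fun x => x ∈ B ∨ x ∈ E)
    rw [Finset.filter_filter, Finset.filter_filter] at e3
    have e4 : (univ.filter (fun x => (x ∈ Fl ∧ M.w x = v) ∧ (x ∈ B ∨ x ∈ E))) =
        univ.filter (fun x => (x ∈ B ∨ x ∈ E) ∧ x ∈ Fl ∧ M.w x = v) := by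
      ext x; simp only [mem_filter, mem_univ, true_and]; tauto
    have e5 : (univ.filter (fun x => (x ∈ Fl ∧ M.w x = v) ∧ ¬ (x ∈ B ∨ x ∈ E))) =
        univ.filter (fun x => ¬ (x ∈ B ∨ x ∈ E) ∧ x ∈ Fl ∧ M.w x = v) := by
      ext x; simp only [mem_filter, mem_univ, true_and]; tauto
    rw [e4, e5] at e3
    rw [← e3] at e1
    exact (Nat.even_add.1 e1).2 e2
  -- (2)
  have s2 : ∀ n : N, Even (univ.filter (fun x => x ∈ B ∧ x ∈ Fl ∧ lab (M.w x) = n)).card := by
    intro n
    have e1 : Even (univ.filter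
        (fun x => (x ∈ B ∨ x ∈ E) ∧ x ∈ Fl ∧ lab (M.w x) = n)).card := by
      rw [Finset.card_eq_sum_card_fiberwise (f := M.w) (t := univ.filter (fun v => lab v = n))]
      · refine Finset.even_sum _ (fun v hv => ?_)
        refine Eq.subst (motive := fun s : Finset Ω => Even s.card) ?_ (s1 v)
        ext x
        simp only [mem_filter, mem_univ, true_and] at hv ⊢
        constructor
        · rintro ⟨h1, h2, h4⟩
          exact ⟨⟨h1, h2, by rw [h4]; exact hv⟩, h4⟩
        · rintro ⟨⟨h1, h2, h3⟩, h4⟩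
          exact ⟨h1, h2, h4⟩
      · intro x hx
        simp only [coe_filter, mem_univ, true_and] at hx ⊢
        exact hx.2.2
    have e2 : Even (univ.filter (fun x => x ∈ E ∧ x ∈ Fl ∧ lab (M.w x) = n)).card := by
      refine even_card_inv _ M.a0 ?_ (fun x _ => n0 M x) (fun x _ => M.i0 x)
      intro x hx
      simp only [mem_filter, mem_univ, true_and] at hx ⊢
      exact ⟨(hE.1 x).2 hx.1, (f0 x).2 hx.2.1, by rw [← hEs x hx.1]; exact hx.2.2⟩
    have e3 := Finset.card_filter_add_card_filter_not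
      (s := univ.filter (fun x => (x ∈ B ∨ x ∈ E) ∧ x ∈ Fl ∧ lab (M.w x) = n)) (fun x => x ∈ B)
    rw [Finset.filter_filter, Finset.filter_filter] at e3
    have e4 : (univ.filter (fun x => ((x ∈ B ∨ x ∈ E) ∧ x ∈ Fl ∧ lab (M.w x) = n) ∧ x ∈ B)) =
        univ.filter (fun x => x ∈ B ∧ x ∈ Fl ∧ lab (M.w x) = n) := by
      ext x; simp only [mem_filter, mem_univ, true_and]; tauto
    have e5 : (univ.filter (fun x => ((x ∈ B ∨ x ∈ E) ∧ x ∈ Fl ∧ lab (M.w x) = n) ∧ ¬ x ∈ B)) =
        univ.filter (fun x => x ∈ E ∧ x ∈ Fl ∧ lab (M.w x) = n) := by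
      ext x
      simp only [mem_filter, mem_univ, true_and]
      have := hdis x
      tauto
    rw [e4, e5] at e3
    rw [← e3] at e1
    exact (Nat.even_add.1 e1).2 e2
  -- the two sides
  let Sd : Bool → Finset Ω := fun b => univ.filter (fun x => (x ∈ B ∧ x ∈ Fl) ∧ sd (lab (M.w x)) = b)
  have hSd : ∀ b x, x ∈ Sd b ↔ (x ∈ B ∧ x ∈ Fl) ∧ sd (lab (M.w x)) = b := by
    intro b x; simp [Sd]
  have s3 : ∀ b, Even (Sd b).card := by
    intro b
    rw [Finset.card_eq_sum_card_fiberwise (f := fun x => lab (M.w x))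
      (t := univ.filter (fun n => sd n = b))]
    · refine Finset.even_sum _ (fun n hn => ?_)
      refine Eq.subst (motive := fun s : Finset Ω => Even s.card) ?_ (s2 n)
      ext x
      simp only [mem_filter, mem_univ, true_and, Sd] at hn ⊢
      constructor
      · rintro ⟨h1, h2, h4⟩
        exact ⟨⟨⟨h1, h2⟩, by rw [h4]; exact hn⟩, h4⟩
      · rintro ⟨⟨⟨h1, h2⟩, h3⟩, h4⟩
        exact ⟨h1, h2, h4⟩
    · intro x hx
      simp only [coe_filter, mem_univ, true_and, Sd] at hx ⊢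
      exact hx.2
  have hflip : ∀ b x, x ∈ Sd b → M.a0 x ∈ Sd (!b) := by
    intro b x hx
    rw [hSd] at hx ⊢
    refine ⟨⟨(hB.1 x).2 hx.1.1, (f0 x).2 hx.1.2⟩, ?_⟩
    have := hBs x hx.1.1
    rw [hx.2] at this
    revert this
    cases b <;> cases sd (lab (M.w (M.a0 x))) <;> simp
  have s4 : ∀ b, (Sd b).card = (Sd (!b)).card := by
    intro b
    refine Finset.card_nbij' M.a0 M.a0 (fun x hx => hflip b x hx) (fun x hx => ?_)
      (fun x _ => M.i0 x) (fun x _ => M.i0 x)
    have := hflip (!b) x hx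
    rwa [Bool.not_not] at this
  have s5 : (univ.filter (fun x => x ∈ B ∧ x ∈ Fl)).card = (Sd true).card + (Sd false).card := by
    have e3 := Finset.card_filter_add_card_filter_not
      (s := univ.filter (fun x => x ∈ B ∧ x ∈ Fl)) (fun x => sd (lab (M.w x)) = true)
    rw [Finset.filter_filter, Finset.filter_filter] at e3
    rw [← e3]
    congr 2
    ext x
    simp [Sd]
  by_contra hlt
  have hall : ∀ b, (Sd b).card = (Sd true).card := by
    intro b
    cases b
    · exact (s4 true).symm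
    · rfl
  have h2or : ∀ b, (Sd b).card = 0 ∨ (Sd b).card = 2 := by
    intro b
    obtain ⟨r, hr⟩ := s3 true
    have h5 := hall false
    rw [hall b]
    omega
  -- (4)
  have lab_const : ∀ x ∈ B, x ∈ Fl → ∀ y ∈ B, y ∈ Fl → sd (lab (M.w y)) = sd (lab (M.w x)) →
      lab (M.w y) = lab (M.w x) := by
    intro x hx hx' y hy hy' hs
    have hsub : univ.filter (fun z => z ∈ B ∧ z ∈ Fl ∧ lab (M.w z) = lab (M.w x)) ⊆
        Sd (sd (lab (M.w x))) := by
      intro z hz
      simp only [mem_filter, mem_univ, true_and] at hz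
      rw [hSd]
      exact ⟨⟨hz.1, hz.2.1⟩, by rw [hz.2.2]⟩
    have hmem : x ∈ univ.filter (fun z => z ∈ B ∧ z ∈ Fl ∧ lab (M.w z) = lab (M.w x)) := by
      simp only [mem_filter, mem_univ, true_and]
      exact ⟨hx, hx', trivial⟩
    have hpos := Finset.card_pos.2 ⟨x, hmem⟩
    obtain ⟨r, hr⟩ := s2 (lab (M.w x))
    have hle := Finset.card_le_card hsub
    have heq := Finset.eq_of_subset_of_card_le hsub (by
      rcases h2or (sd (lab (M.w x))) with h | h <;> omega)
    have : y ∈ univ.filter (fun z => z ∈ B ∧ z ∈ Fl ∧ lab (M.w z) = lab (M.w x)) := by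
      rw [heq, hSd]
      exact ⟨⟨hy, hy'⟩, hs⟩
    simp only [mem_filter, mem_univ, true_and] at this
    exact this.2.2
  have hBa2 : ∀ x ∈ B, x ∈ Fl → M.a2 x ∈ Fl := by
    intro x hx hx'
    have hmem : x ∈ Sd (sd (lab (M.w x))) := (hSd _ _).2 ⟨⟨hx, hx'⟩, rfl⟩
    have hcard : (Sd (sd (lab (M.w x)))).card = 2 := by
      rcases h2or (sd (lab (M.w x))) with h | h
      · rw [Finset.card_eq_zero] at h
        rw [h] at hmem
        exact absurd hmem (Finset.notMem_empty _)
      · exact h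
    obtain ⟨y, hy, hyx⟩ := Finset.exists_mem_ne (by omega : 1 < (Sd (sd (lab (M.w x)))).card) x
    rw [hSd] at hy
    have hl1 := lab_const x hx hx' y hy.1.1 hy.1.2 hy.2
    have h0x : M.a0 x ∈ B := (hB.1 x).2 hx
    have h0x' : M.a0 x ∈ Fl := (f0 x).2 hx'
    have h0y : M.a0 y ∈ B := (hB.1 y).2 hy.1.1
    have h0y' : M.a0 y ∈ Fl := (f0 y).2 hy.1.2
    have hs0 : sd (lab (M.w (M.a0 y))) = sd (lab (M.w (M.a0 x))) := by
      have a1 := hBs x hx
      have a2 := hBs y hy.1.1
      rw [hy.2] at a2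
      revert a1 a2
      cases sd (lab (M.w x)) <;> cases sd (lab (M.w (M.a0 x))) <;>
        cases sd (lab (M.w (M.a0 y))) <;> simp
    have hl2 := lab_const (M.a0 x) h0x h0x' (M.a0 y) h0y h0y' hs0
    rcases hsi x hx y hy.1.1 hl1.symm hl2.symm with h | h
    · exact absurd h hyx
    · rw [← h]; exact hy.1.2
  -- (5)
  let D : Set Ω := {x | x ∈ E ∧ ¬ (M.a2 x ∈ Fl ↔ x ∈ Fl)}
  have hD : D = ∅ := by
    apply hno D (fun x hx => hx.1)
    · constructor
      · intro x
        simp only [D, Set.mem_ofPred_eq]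
        rw [hE.1, ← M.c02, f0, f0]
      · intro x
        simp only [D, Set.mem_ofPred_eq]
        rw [hE.2, M.i2]
        tauto
    · intro v
      have hDv : {x | x ∈ D ∧ M.w x = v}.ncard =
          (univ.filter (fun x => x ∈ D ∧ M.w x = v)).card := by
        rw [Set.ncard_eq_toFinset_card']
        congr 1
        ext x
        simp
      have e1 : Even (univ.filter (fun x => (x ∈ D ∧ M.w x = v) ∧ x ∈ Fl)).card := by
        have e2 : Even (univ.filter
            (fun x => ((x ∈ B ∨ x ∈ E) ∧ x ∈ Fl ∧ M.w x = v) ∧ M.a2 x ∈ Fl)).card := by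
          refine even_card_inv _ M.a2 ?_ (fun x _ => M.n2 x) (fun x _ => M.i2 x)
          intro x hx
          simp only [mem_filter, mem_univ, true_and] at hx ⊢
          rw [hB.2, hE.2, M.i2, M.w2]
          exact ⟨⟨hx.1.1, hx.2, hx.1.2.2⟩, hx.1.2.1⟩
        have e3 := Finset.card_filter_add_card_filter_not
          (s := univ.filter (fun x => (x ∈ B ∨ x ∈ E) ∧ x ∈ Fl ∧ M.w x = v))
          (fun x => M.a2 x ∈ Fl)
        rw [Finset.filter_filter, Finset.filter_filter] at e3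
        have e4 : (univ.filter
            (fun x => ((x ∈ B ∨ x ∈ E) ∧ x ∈ Fl ∧ M.w x = v) ∧ ¬ M.a2 x ∈ Fl)) =
            univ.filter (fun x => (x ∈ D ∧ M.w x = v) ∧ x ∈ Fl) := by
          ext x
          simp only [mem_filter, mem_univ, true_and, D, Set.mem_ofPred_eq]
          have := hBa2 x
          tauto
        rw [e4] at e3
        have e5 := s1 v
        rw [← e3] at e5
        exact (Nat.even_add.1 e5).1 e2
      have e6 : (univ.filter (fun x => (x ∈ D ∧ M.w x = v) ∧ ¬ x ∈ Fl)).card =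
          (univ.filter (fun x => (x ∈ D ∧ M.w x = v) ∧ x ∈ Fl)).card := by
        refine Finset.card_nbij' M.a2 M.a2 ?_ ?_ (fun x _ => M.i2 x) (fun x _ => M.i2 x)
        · intro x hx
          simp only [coe_filter, mem_univ, true_and, D, Set.mem_ofPred_eq] at hx ⊢
          rw [hE.2, M.i2, M.w2]
          tauto
        · intro x hx
          simp only [coe_filter, mem_univ, true_and, D, Set.mem_ofPred_eq] at hx ⊢
          rw [hE.2, M.i2, M.w2]
          tauto
      have e7 := Finset.card_filter_add_card_filter_not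
        (s := univ.filter (fun x => x ∈ D ∧ M.w x = v)) (fun x => x ∈ Fl)
      rw [Finset.filter_filter, Finset.filter_filter, e6] at e7
      rw [hDv, ← e7]
      obtain ⟨r, hr⟩ := e1
      rw [hr]
      exact ⟨r, by ring⟩
  -- (6)
  obtain ⟨x0, hx0⟩ := hne
  have hall2 : ∀ x, M.a2 x ∈ Fl ↔ x ∈ Fl := by
    intro x
    by_cases h1 : x ∈ B
    · constructor
      · intro h
        have := hBa2 (M.a2 x) ((hB.2 x).2 h1) h
        rwa [M.i2] at this
      · exact hBa2 x h1
    · by_cases h2 : x ∈ E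
      · by_contra h3
        have : x ∈ D := ⟨h2, h3⟩
        rw [hD] at this
        exact this
      · exact f2 x h1 h2
  have hevery : ∀ y, y ∈ Fl := fun y => conn_all M hG (· ∈ Fl) f0 f1 hall2 x0 y hx0
  have hBc : B.ncard = (univ.filter (fun x => x ∈ B ∧ x ∈ Fl)).card := by
    rw [Set.ncard_eq_toFinset_card' B]
    congr 1
    ext x
    simp [hevery]
  have h5 := hall false
  have h6 := h2or true
  omega

end

end Pool.Agent.TFK.SIDE

namespace Pool.Agent.TFK

theorem SIDE_thm : Stmt_SIDE := by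
  intro W Ω N _ _ _ G M hG lab sd B E hB hE hBs hEs hsi hno hc
  classical
  have : Fintype Ω := Fintype.ofFinite Ω
  have : Fintype N := Fintype.ofFinite N
  have hQ : Fintype (Quot (JK M (B ∪ E))) := by
    have : Finite M.Face := by unfold KR.GMap.Face; infer_instance
    exact Fintype.ofFinite _
  have hBc : B.ncard = (Finset.univ.filter (fun x : Ω => x ∈ B)).card := by
    rw [Set.ncard_eq_toFinset_card' B]
    congr 1
    ext x
    simp
  rw [hBc, Finset.card_eq_sum_card_fiberwise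
    (f := fun x => (Quot.mk (JK M (B ∪ E)) (Quot.mk M.Fr x) : Quot (JK M (B ∪ E))))
    (t := Finset.univ) (fun x _ => Finset.mem_coe.2 (Finset.mem_univ _))]
  have hcard : 8 * Nat.card (Quot (JK M (B ∪ E))) =
      ∑ _q : Quot (JK M (B ∪ E)), 8 := by
    rw [Finset.sum_const, smul_eq_mul, Nat.card_eq_fintype_card, mul_comm]
    rfl
  rw [hcard]
  refine Finset.sum_le_sum (fun q _ => ?_)
  have key := SIDE.region M hG lab sd B E hB hE hBs hEs hsi hno hc
    {x | (Quot.mk (JK M (B ∪ E)) (Quot.mk M.Fr x) : Quot (JK M (B ∪ E))) = q} ?_ ?_ ?_ ?_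
  · refine key.trans (le_of_eq ?_)
    congr 1
    ext x
    simp
  · obtain ⟨a, ha⟩ := Quot.exists_rep q
    obtain ⟨x, hx⟩ := Quot.exists_rep a
    refine ⟨x, ?_⟩
    exact (congrArg (fun b : M.Face => Quot.mk (JK M (B ∪ E)) b) hx).trans ha
  · intro x
    show Quot.mk _ (Quot.mk M.Fr (M.a0 x)) = q ↔ Quot.mk _ (Quot.mk M.Fr x) = q
    rw [LA.face0]
  · intro x
    show Quot.mk _ (Quot.mk M.Fr (M.a1 x)) = q ↔ Quot.mk _ (Quot.mk M.Fr x) = q
    rw [LA.face1]
  · intro x h1 h2
    show Quot.mk _ (Quot.mk M.Fr (M.a2 x)) = q ↔ Quot.mk _ (Quot.mk M.Fr x) = q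
    have : (Quot.mk (JK M (B ∪ E)) (Quot.mk M.Fr x) : Quot (JK M (B ∪ E))) =
        Quot.mk _ (Quot.mk M.Fr (M.a2 x)) :=
      Quot.sound ⟨x, fun h => h.elim h1 h2, rfl, rfl⟩
    exact ⟨fun h => this.trans h, fun h => this.symm.trans h⟩

end Pool.Agent.TFK
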