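import Pool.Agent.TFK.LA

/-!
# BAR: the barrier (project TFK)
-/

set_option autoImplicit false

namespace Pool.Agent.TFK

open Function

namespace BAR

theorem sub_of {V : Type} {Γ : SimpleGraph V} {U K K' : Set V} (h : IsOC Γ U K)
    (h' : IsOC Γ U K') {x : V} (hx : x ∈ K) (hx' : x ∈ K') : K ⊆ K' := by
  intro y hy
  obtain ⟨w⟩ := h.conn.preconnected ⟨x, hx⟩ ⟨y, hy⟩
  have key : ∀ (a b : K) (w : (Γ.induce K).Walk a b), a.1 ∈ K' → b.1 ∈ K' := by
    intro a b w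
    induction w with
    | nil => exact id
    | @cons a c b hadj _ ih =>
      intro ha
      apply ih
      rcases h'.closed _ ha c.1 hadj with h1 | h1
      · exact h1
      · exact absurd h1 (Set.disjoint_left.1 h.dis c.2)
  exact key _ _ w hx'

theorem eq_of {V : Type} {Γ : SimpleGraph V} {U K K' : Set V} (h : IsOC Γ U K)
    (h' : IsOC Γ U K') {x : V} (hx : x ∈ K) (hx' : x ∈ K') : K = K' :=
  Set.Subset.antisymm (sub_of h h' hx hx') (sub_of h' h hx' hx)

theorem even_darts {W : Type} [Fintype W] (G : SimpleGraph W) : Even (Nat.card G.Dart) := by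
  classical
  rw [Nat.card_eq_fintype_card, ← Finset.card_univ]
  exact LA.even_card_inv Finset.univ SimpleGraph.Dart.symm (fun _ _ => Finset.mem_univ _)
    (fun d _ => d.symm_ne) (fun d _ => d.symm_symm)

theorem even_card {W : Type} [Fintype W] (G : SimpleGraph W) (k : ℕ) :
    Even (Nat.card (GV G k)) := by
  classical
  have h1 : Nat.card (GV G k) = Nat.card W * 2 + (Nat.card G.Dart + 2 * k) := by
    rw [Nat.card_sum, Nat.card_prod, Nat.card_sum]
    simp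
  rw [h1]
  obtain ⟨m, hm⟩ := even_darts G
  rw [hm]
  exact ⟨Nat.card W + m + k, by ring⟩

/-- the dart from `u` to `v` -/
def da {W : Type} {G : SimpleGraph W} {u v : W} (h : G.Adj u v) : G.Dart := ⟨(u, v), h⟩

section

variable {W : Type} [Fintype W] {G : SimpleGraph W} {k : ℕ} {U : Set (GV G k)}

theorem vk_inj {K K' : Set (GV G k)} (h : RT U K) (h' : RT U K') (e : VK K = VK K') : K = K' := by
  obtain ⟨v, _, hv⟩ := h.2
  have h1 : v ∈ VK K' := e ▸ (show v ∈ VK K from hv)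
  exact eq_of h.1 h'.1 hv h1

theorem prod_bool (A : Set W) : (A ×ˢ (Set.univ : Set Bool)).ncard = 2 * A.ncard := by
  rw [Set.ncard_prod, Set.ncard_univ, Nat.card_eq_fintype_card, Fintype.card_bool, mul_comm]

theorem upper (hb : ∀ K, IsOC (gadget G k) U K → (∃ v ∈ TT U, ∃ i, K = {cp G k v i}) ∨
    (∃ d : G.Dart, d.fst ∈ SS U ∧ d.snd ∈ TT U ∧ K = {dt G k d}) ∨ RT U K) :
    {K | IsOC (gadget G k) U K}.ncard ≤
      2 * (TT U).ncard + {d : G.Dart | d.fst ∈ SS U ∧ d.snd ∈ TT U}.ncard +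
        (VK '' {K | RT U K}).ncard := by
  classical
  have h1 : {K | IsOC (gadget G k) U K} ⊆
      ((fun p : W × Bool => ({cp G k p.1 p.2} : Set (GV G k))) '' (TT U ×ˢ Set.univ) ∪
        (fun d : G.Dart => ({dt G k d} : Set (GV G k))) ''
          {d : G.Dart | d.fst ∈ SS U ∧ d.snd ∈ TT U}) ∪ {K | RT U K} := by
    intro K hK
    rcases hb K hK with ⟨v, hv, i, rfl⟩ | ⟨d, h1, h2, rfl⟩ | h
    · exact Or.inl (Or.inl ⟨(v, i), ⟨hv, trivial⟩, rfl⟩)
    · exact Or.inl (Or.inr ⟨d, ⟨h1, h2⟩, rfl⟩)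
    · exact Or.inr h
  have h2 := Set.ncard_le_ncard h1 (Set.toFinite _)
  refine h2.trans ((Set.ncard_union_le _ _).trans ?_)
  refine Nat.add_le_add ((Set.ncard_union_le _ _).trans (Nat.add_le_add ?_ ?_)) ?_
  · refine (Set.ncard_image_le (Set.toFinite _)).trans ?_
    rw [prod_bool]
  · exact Set.ncard_image_le (Set.toFinite _)
  · rw [Set.ncard_image_of_injOn]
    intro K hK K' hK' e
    exact vk_inj hK hK' e

theorem lower (c1 : ∀ j, ex G k j ∈ U) (c2 : ∀ v, cp G k v true ∈ U ↔ cp G k v false ∈ U)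
    (c3 : ∀ d : G.Dart, d.fst ∈ TT U → dt G k d ∈ U) :
    2 * (SS U).ncard + 2 * k + {d : G.Dart | d.fst ∈ TT U}.ncard ≤ U.ncard := by
  classical
  let X1 : Set (GV G k) := (fun p : W × Bool => cp G k p.1 p.2) '' (SS U ×ˢ Set.univ)
  let X2 : Set (GV G k) := (fun j => ex G k j) '' Set.univ
  let X3 : Set (GV G k) := (fun d => dt G k d) '' {d : G.Dart | d.fst ∈ TT U}
  have e1 : X1.ncard = 2 * (SS U).ncard := by
    change ((fun p : W × Bool => cp G k p.1 p.2) '' (SS U ×ˢ Set.univ)).ncard = _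
    rw [Set.ncard_image_of_injective _ (fun p q h => by
      have h' := Sum.inl.inj h
      exact h'), prod_bool]
  have e2 : X2.ncard = 2 * k := by
    change ((fun j => ex G k j) '' Set.univ).ncard = _
    rw [Set.ncard_image_of_injective _ (fun p q h => Sum.inr.inj (Sum.inr.inj h)), Set.ncard_univ,
      Nat.card_eq_fintype_card, Fintype.card_fin]
  have e3 : X3.ncard = {d : G.Dart | d.fst ∈ TT U}.ncard :=
    Set.ncard_image_of_injective _ (fun p q h => Sum.inl.inj (Sum.inr.inj h))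
  have d12 : Disjoint X1 X2 := by
    rw [Set.disjoint_left]
    rintro _ ⟨p, _, rfl⟩ ⟨j, _, h⟩
    cases h
  have d123 : Disjoint (X1 ∪ X2) X3 := by
    rw [Set.disjoint_left]
    rintro _ (⟨p, _, rfl⟩ | ⟨j, _, rfl⟩) ⟨d, _, h⟩
    · cases h
    · cases h
  have hsub : X1 ∪ X2 ∪ X3 ⊆ U := by
    rintro _ ((⟨⟨v, i⟩, hp, rfl⟩ | ⟨j, _, rfl⟩) | ⟨d, hd, rfl⟩)
    · have hv : cp G k v false ∈ U := hp.1
      cases i
      · exact hv
      · exact (c2 v).2 hv
    · exact c1 j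
    · exact c3 d hd
  have h := Set.ncard_le_ncard hsub (Set.toFinite _)
  rw [Set.ncard_union_eq d123 (Set.toFinite _) (Set.toFinite _),
    Set.ncard_union_eq d12 (Set.toFinite _) (Set.toFinite _), e1, e2, e3] at h
  exact h

theorem pairs (S T : Set W) (𝒞 : Set (Set W)) (cS : ∀ C ∈ 𝒞, Disjoint C S)
    (cpair : ∀ C ∈ 𝒞, ∀ D ∈ 𝒞, C ≠ D → Disjoint C D) :
    {d : G.Dart | d.fst ∈ S ∧ d.snd ∈ T}.ncard +
        {p : W × Set W | p.1 ∈ T ∧ p.2 ∈ 𝒞 ∧ Tou G p.1 p.2}.ncard ≤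
      {d : G.Dart | d.fst ∈ T}.ncard := by
  classical
  let D1 : Set G.Dart := SimpleGraph.Dart.symm '' {d : G.Dart | d.fst ∈ S ∧ d.snd ∈ T}
  let D2 : Set G.Dart := {d : G.Dart | d.fst ∈ T ∧ ∃ C ∈ 𝒞, d.snd ∈ C}
  have e1 : D1.ncard = {d : G.Dart | d.fst ∈ S ∧ d.snd ∈ T}.ncard :=
    Set.ncard_image_of_injective _ SimpleGraph.Dart.symm_involutive.injective
  let f : G.Dart → W × Set W := fun d =>
    (d.fst, Classical.epsilon fun C : Set W => C ∈ 𝒞 ∧ d.snd ∈ C)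
  have hP : {p : W × Set W | p.1 ∈ T ∧ p.2 ∈ 𝒞 ∧ Tou G p.1 p.2} ⊆ f '' D2 := by
    rintro ⟨t, C⟩ ⟨ht, hC, v, hv, htv⟩
    refine ⟨da htv, ⟨ht, C, hC, hv⟩, ?_⟩
    have h1 := Classical.epsilon_spec (p := fun C : Set W => C ∈ 𝒞 ∧ (da htv).snd ∈ C) ⟨C, hC, hv⟩
    refine Prod.ext rfl ?_
    by_contra hne
    exact Set.disjoint_left.1 (cpair _ h1.1 C hC hne) h1.2 hv
  have e2 : {p : W × Set W | p.1 ∈ T ∧ p.2 ∈ 𝒞 ∧ Tou G p.1 p.2}.ncard ≤ D2.ncard :=
    (Set.ncard_le_ncard hP (Set.toFinite _)).trans (Set.ncard_image_le (Set.toFinite _))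
  have hd : Disjoint D1 D2 := by
    rw [Set.disjoint_left]
    rintro _ ⟨d, hd, rfl⟩ ⟨_, C, hC, h2⟩
    exact Set.disjoint_left.1 (cS C hC) h2 hd.1
  have hsub : D1 ∪ D2 ⊆ {d : G.Dart | d.fst ∈ T} := by
    rintro _ (⟨d, hd, rfl⟩ | h)
    · exact hd.2
    · exact h.1
  have h := Set.ncard_le_ncard hsub (Set.toFinite _)
  rw [Set.ncard_union_eq hd (Set.toFinite _) (Set.toFinite _), e1] at h
  omega

end

end BAR

open BAR in
theorem BAR_thm (hHALL : Stmt_HALL) (hMATCH : Stmt_MATCH) (hSTA : Stmt_STA) (hSTB : Stmt_STB) :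
    Stmt_BAR := by
  classical
  intro W _ G k hdeg hno
  obtain ⟨U, hU⟩ := hHALL (GV G k) (gadget G k) (even_card G k) (fun hM => hno (hMATCH W G k hM))
  obtain ⟨c1, c2, c3, c4, c5, _, c7, c8⟩ := hSTA W G k U hU
  obtain ⟨b1, b2, b3, b4, b5, b6⟩ := hSTB W G k U hdeg hU
  have hcS : ∀ C ∈ VK '' {K | RT U K}, Disjoint C (SS U) := by
    rintro _ ⟨K, hK, rfl⟩
    rw [Set.disjoint_left]
    intro v hv
    exact (b3 K hK v hv).1
  have hpair : ∀ C ∈ VK '' {K | RT U K}, ∀ D ∈ VK '' {K | RT U K}, C ≠ D → Disjoint C D := by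
    rintro _ ⟨K, hK, rfl⟩ _ ⟨K', hK', rfl⟩ hne
    rw [Set.disjoint_left]
    intro v hv hv'
    exact hne (by rw [eq_of hK.1 hK'.1 hv hv'])
  have huniq : ∀ u ∈ TT U, ∀ C ∈ VK '' {K | RT U K}, ∀ v ∈ C, ∀ v' ∈ C, G.Adj u v →
      G.Adj u v' → v = v' := by
    rintro u hu _ ⟨K, hK, rfl⟩ v hv v' hv' h h'
    have h1 := c8 (da h) (da h') (c3 _ hu) (c3 _ hu) rfl K hK.1
      ((b3 K hK v hv).2.2.2 (da h).symm rfl) ((b3 K hK v' hv').2.2.2 (da h').symm rfl)
    exact congrArg (fun d : G.Dart => d.snd) h1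
  refine ⟨SS U, TT U, VK '' {K | RT U K}, ?_⟩
  refine
    { dST := ?_
      ind := ?_
      cS := hcS
      cT := ?_
      cconn := ?_
      cclosed := ?_
      cpair := hpair
      tnb := ?_
      tuniq := huniq
      codd := ?_
      cnt := ?_ }
  · rw [Set.disjoint_left]
    intro v hv hv'
    exact c5 v hv' false hv
  · intro u hu v hv h
    exact c4 (da h) (c3 _ hu) (c3 _ hv)
  · rintro _ ⟨K, hK, rfl⟩
    rw [Set.disjoint_left]
    intro v hv
    exact (b3 K hK v hv).2.1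
  · rintro _ ⟨K, hK, rfl⟩
    exact b5 K hK
  · rintro _ ⟨K, hK, rfl⟩ u hu v h
    exact b4 K hK u hu v h
  · intro u hu v h
    obtain ⟨K, hK, hmem⟩ := c7 (da h) (c3 _ hu)
    rcases b1 K hK with ⟨v', _, i, rfl⟩ | ⟨d, h1, _, rfl⟩ | hR
    · cases hmem
    · left
      have h2 : (da h).symm = d := Sum.inl.inj (Sum.inr.inj hmem)
      rw [← h2] at h1
      exact h1
    · by_cases hS : cp G k v false ∈ U
      · exact Or.inl hS
      · right
        refine ⟨VK K, ⟨K, hR, rfl⟩, ?_⟩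
        rcases hK.closed _ hmem (cp G k v false) ((adj_dt_cp G k v false (da h).symm).2 rfl)
          with h3 | h3
        · exact h3
        · exact absurd h3 hS
  · rintro _ ⟨K, hK, rfl⟩
    have e : {d : G.Dart | dt G k d ∈ K ∧ dt G k d.symm ∈ U}.ncard =
        (TN G (TT U) (VK K)).ncard := by
      have hv : ∀ d : G.Dart, dt G k d ∈ K ∧ dt G k d.symm ∈ U →
          d.snd ∈ TT U ∧ d.fst ∈ VK K := by
        intro d hd
        have h1 : d.snd ∈ TT U := ⟨d.symm, rfl, hd.2⟩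
        refine ⟨h1, ?_⟩
        rcases hK.1.closed _ hd.1 (cp G k d.fst false) ((adj_dt_cp G k d.fst false d).2 rfl)
          with h3 | h3
        · exact h3
        · exfalso
          have h4 := eq_of (b2 d h3 h1) hK.1 (Set.mem_singleton _) hd.1
          obtain ⟨v, _, h5⟩ := hK.2
          rw [← h4] at h5
          cases h5
      refine Set.ncard_congr (fun d _ => d.snd) ?_ ?_ ?_
      · intro d hd
        exact ⟨(hv d hd).1, d.fst, (hv d hd).2, d.adj.symm⟩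
      · intro d d' hd hd' he
        have he' : d.snd = d'.snd := he
        have h1 := huniq d.snd (hv d hd).1 (VK K) ⟨K, hK, rfl⟩ d.fst (hv d hd).2 d'.fst
          (hv d' hd').2 d.adj.symm (by rw [he']; exact d'.adj.symm)
        exact SimpleGraph.Dart.ext _ _ (Prod.ext h1 he')
      · rintro t ⟨ht, v, hvK, htv⟩
        exact ⟨da htv.symm, ⟨(b3 K hK v hvK).2.2.2 _ rfl, c3 _ ht⟩, rfl⟩
    rw [← e]
    exact b6 K hK
  · have h1 := upper b1
    have h2 := lower c1 c2 c3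
    have h3 := pairs (G := G) (SS U) (TT U) (VK '' {K | RT U K}) hcS hpair
    have h4 := hU.big
    omega

end Pool.Agent.TFK
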