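import Pool.Agent.KR.Defs

/-!
# 2-matchings of 4-connected graphs on surfaces (project TFK, MP_b1567b_co): definitions

A cellular embedding of a simple graph is given by its flags (`KR.GMap`).
-/

set_option autoImplicit false

namespace Pool.Agent.TFK

open Function

/-! ## odd components as sets of vertices -/

section Graph

variable {V : Type} (Γ : SimpleGraph V)

/-- `K` is (the vertex set of) an odd component of `Γ - U` -/
structure IsOC (U K : Set V) : Prop where
  dis : Disjoint K U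
  conn : (Γ.induce K).Connected
  closed : ∀ x ∈ K, ∀ y, Γ.Adj x y → y ∈ K ∨ y ∈ U
  odd : Odd K.ncard

/-- the odd components of `Γ - U` with a neighbour in `X` -/
def Nb (U X : Set V) : Set (Set V) :=
  {K | IsOC Γ U K ∧ ∃ x ∈ X, ∃ y ∈ K, Γ.Adj x y}

/-- a Tutte violator `U` (surplus at least two) with the strong Hall property -/
structure Viol (U : Set V) : Prop where
  big : U.ncard + 2 ≤ {K | IsOC Γ U K}.ncard
  hall : ∀ X : Set V, X ⊆ U → X.Nonempty → X.ncard + 2 ≤ (Nb Γ U X).ncard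

end Graph

/-! ## the gadget -/

section Gadget

variable {W : Type} (G : SimpleGraph W) (k : ℕ)

/-- vertices of the gadget: two copies of every vertex of `G`, the darts of `G`, `2 k` extra
vertices -/
abbrev GV : Type := (W × Bool) ⊕ (G.Dart ⊕ Fin (2 * k))

/-- copy `i` of the vertex `v` -/
abbrev cp (v : W) (i : Bool) : GV G k := Sum.inl (v, i)

/-- the dart `d` -/
abbrev dt (d : G.Dart) : GV G k := Sum.inr (Sum.inl d)

/-- an extra vertex -/
abbrev ex (j : Fin (2 * k)) : GV G k := Sum.inr (Sum.inr j)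

/-- adjacency of the gadget: a copy of `v` and a dart with first vertex `v`; a dart and its
reverse; an extra vertex and every copy; two different extra vertices -/
def gAdj : GV G k → GV G k → Prop
  | Sum.inl p, Sum.inr (Sum.inl d) => d.fst = p.1
  | Sum.inr (Sum.inl d), Sum.inl p => d.fst = p.1
  | Sum.inr (Sum.inl d), Sum.inr (Sum.inl d') => d' = d.symm
  | Sum.inl _, Sum.inr (Sum.inr _) => True
  | Sum.inr (Sum.inr _), Sum.inl _ => True
  | Sum.inr (Sum.inr j), Sum.inr (Sum.inr j') => j ≠ j'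
  | _, _ => False

/-- the gadget -/
def gadget : SimpleGraph (GV G k) where
  Adj := gAdj G k
  symm := ⟨by
    intro x y h
    rcases x with p | d | j <;> rcases y with q | e | l <;> simp only [gAdj] at h ⊢
    · exact h
    · exact h
    · rw [h, SimpleGraph.Dart.symm_symm]
    · exact fun e => h e.symm⟩
  loopless := ⟨by
    intro x h
    rcases x with p | d | j <;> simp only [gAdj] at h
    · exact d.symm_ne h.symm
    · exact h rfl⟩

@[simp] theorem adj_cp_dt (v : W) (i : Bool) (d : G.Dart) :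
    (gadget G k).Adj (cp G k v i) (dt G k d) ↔ d.fst = v := Iff.rfl

@[simp] theorem adj_dt_cp (v : W) (i : Bool) (d : G.Dart) :
    (gadget G k).Adj (dt G k d) (cp G k v i) ↔ d.fst = v := Iff.rfl

@[simp] theorem adj_dt_dt (d e : G.Dart) :
    (gadget G k).Adj (dt G k d) (dt G k e) ↔ e = d.symm := Iff.rfl

@[simp] theorem adj_cp_ex (v : W) (i : Bool) (j : Fin (2 * k)) :
    (gadget G k).Adj (cp G k v i) (ex G k j) ↔ True := Iff.rfl

@[simp] theorem adj_ex_cp (v : W) (i : Bool) (j : Fin (2 * k)) :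
    (gadget G k).Adj (ex G k j) (cp G k v i) ↔ True := Iff.rfl

@[simp] theorem adj_ex_ex (j l : Fin (2 * k)) :
    (gadget G k).Adj (ex G k j) (ex G k l) ↔ j ≠ l := Iff.rfl

@[simp] theorem adj_cp_cp (v u : W) (i j : Bool) :
    (gadget G k).Adj (cp G k v i) (cp G k u j) ↔ False := Iff.rfl

@[simp] theorem adj_dt_ex (d : G.Dart) (j : Fin (2 * k)) :
    (gadget G k).Adj (dt G k d) (ex G k j) ↔ False := Iff.rfl

@[simp] theorem adj_ex_dt (d : G.Dart) (j : Fin (2 * k)) :
    (gadget G k).Adj (ex G k j) (dt G k d) ↔ False := Iff.rfl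

variable {G k}

/-- the vertices both of whose copies are in `U` (one copy suffices, see `Stmt_STA`) -/
def SS (U : Set (GV G k)) : Set W := {v | cp G k v false ∈ U}

/-- the vertices with a dart in `U` -/
def TT (U : Set (GV G k)) : Set W := {v | ∃ d : G.Dart, d.fst = v ∧ dt G k d ∈ U}

/-- `K` is an odd component of `gadget - U` which contains a copy of a vertex outside `TT U` -/
def RT (U K : Set (GV G k)) : Prop :=
  IsOC (gadget G k) U K ∧ ∃ v, v ∉ TT U ∧ cp G k v false ∈ K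

/-- the vertices of `G` with a copy in `K` -/
def VK (K : Set (GV G k)) : Set W := {v | cp G k v false ∈ K}

end Gadget

/-! ## barriers -/

/-- `t` has a neighbour in `C` -/
def Tou {W : Type} (G : SimpleGraph W) (t : W) (C : Set W) : Prop := ∃ v ∈ C, G.Adj t v

/-- the vertices of `T` with a neighbour in `C` -/
def TN {W : Type} (G : SimpleGraph W) (T C : Set W) : Set W := {t | t ∈ T ∧ Tou G t C}

/-- barrier for subgraphs of maximum degree two with `|W| - k` edges -/
structure Bar {W : Type} (G : SimpleGraph W) (k : ℕ) (S T : Set W) (𝒞 : Set (Set W)) : Prop where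
  dST : Disjoint S T
  ind : ∀ u ∈ T, ∀ v ∈ T, ¬ G.Adj u v
  cS : ∀ C ∈ 𝒞, Disjoint C S
  cT : ∀ C ∈ 𝒞, Disjoint C T
  cconn : ∀ C ∈ 𝒞, (G.induce C).Connected
  cclosed : ∀ C ∈ 𝒞, ∀ u ∈ C, ∀ v, G.Adj u v → v ∈ C ∨ v ∈ S ∨ v ∈ T
  cpair : ∀ C ∈ 𝒞, ∀ D ∈ 𝒞, C ≠ D → Disjoint C D
  tnb : ∀ u ∈ T, ∀ v, G.Adj u v → v ∈ S ∨ ∃ C ∈ 𝒞, v ∈ C
  tuniq : ∀ u ∈ T, ∀ C ∈ 𝒞, ∀ v ∈ C, ∀ v' ∈ C, G.Adj u v → G.Adj u v' → v = v'
  codd : ∀ C ∈ 𝒞, Odd (TN G T C).ncard
  cnt : 2 * S.ncard + 2 * k + 2 + {p : W × Set W | p.1 ∈ T ∧ p.2 ∈ 𝒞 ∧ Tou G p.1 p.2}.ncard ≤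
    2 * T.ncard + 𝒞.ncard

/-- the members of `𝒞` with at least three neighbours in `T` -/
def C3 {W : Type} (G : SimpleGraph W) (T : Set W) (𝒞 : Set (Set W)) : Set (Set W) :=
  {C | C ∈ 𝒞 ∧ 3 ≤ (TN G T C).ncard}

/-- `t` together with the members of `𝒞` whose only neighbour in `T` is `t` -/
def AA {W : Type} (G : SimpleGraph W) (T : Set W) (𝒞 : Set (Set W)) (t : W) : Set W :=
  {t} ∪ {v | ∃ C ∈ 𝒞, TN G T C = {t} ∧ v ∈ C}

/-! ## maps -/

/-- two faces are joined when they have a common edge outside the set `K` of flags -/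
def JK {W Ω : Type} {G : SimpleGraph W} (M : KR.GMap G Ω) (K : Set Ω) (a b : M.Face) : Prop :=
  ∃ x, x ∉ K ∧ a = Quot.mk _ x ∧ b = Quot.mk _ (M.a2 x)

/-- `K` is a set of edges (closed under the two involutions that keep the edge) -/
def IsE {W Ω : Type} {G : SimpleGraph W} (M : KR.GMap G Ω) (K : Set Ω) : Prop :=
  (∀ x, M.a0 x ∈ K ↔ x ∈ K) ∧ ∀ x, M.a2 x ∈ K ↔ x ∈ K

/-- the edge set `E` contains no nonempty edge set with all degrees even (every edge has two flags
at each end) -/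
def NoCyc {W Ω : Type} {G : SimpleGraph W} (M : KR.GMap G Ω) (E : Set Ω) : Prop :=
  ∀ D : Set Ω, D ⊆ E → IsE M D → (∀ v, 4 ∣ {x | x ∈ D ∧ M.w x = v}.ncard) → D = ∅

end Pool.Agent.TFK
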