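import Pool.Agent.TFK.LA

/-!
# EUL: the Euler inequality for bipartite minors (project TFK)
-/

set_option autoImplicit false

namespace Pool.Agent.TFK.EUL

open Function Finset
open Pool.Agent.TFK.LA (wne n0 w02 ed mem_ed ed_card ed_refl ed_symm ed_trans)

section

variable {W Ω I J : Type} [Fintype W] [Fintype Ω] [Fintype I] [Fintype J] [DecidableEq Ω]
  [DecidableEq W] [DecidableEq I] [DecidableEq J] {G : SimpleGraph W} (M : KR.GMap G Ω)

open Classical in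
theorem main (hLA : Stmt_LA) (hSIDE : Stmt_SIDE) (hTREE : Stmt_TREE) (k : ℕ)
    (hk : Nat.card Ω ≤ 4 * (Nat.card W + Nat.card M.Face + k)) (hG : G.Connected)
    (Y : I ⊕ J → Set W) (hd : ∀ a b, a ≠ b → Disjoint (Y a) (Y b))
    (hc : ∀ a, (G.induce (Y a)).Connected)
    (h4 : ∀ i : I, 4 ≤ {j : J | ∃ u ∈ Y (Sum.inl i), ∃ v ∈ Y (Sum.inr j), G.Adj u v}.ncard) :
    Nat.card I ≤ Nat.card J + k := by
  rcases isEmpty_or_nonempty I with hI | hI
  · rw [Nat.card_of_isEmpty]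
    exact Nat.zero_le _
  have hua : ∀ {a b v}, v ∈ Y a → v ∈ Y b → a = b := by
    intro a b v h h'
    by_contra hne
    exact Set.disjoint_left.1 (hd a b hne) h h'
  obtain ⟨E, hE, hEY, hEno, hEc⟩ := hTREE W Ω (I ⊕ J) G M Y hd hc
  let Pr : Finset (I × J) := univ.filter
    (fun p => ∃ u ∈ Y (Sum.inl p.1), ∃ v ∈ Y (Sum.inr p.2), G.Adj u v)
  have hPr : ∀ p, p ∈ Pr ↔ ∃ u ∈ Y (Sum.inl p.1), ∃ v ∈ Y (Sum.inr p.2), G.Adj u v := by
    intro p; simp [Pr]
  have hPc : 4 * Fintype.card I ≤ Pr.card := by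
    rw [Finset.card_eq_sum_card_fiberwise (f := Prod.fst) (t := univ)
      (fun x _ => mem_coe.2 (mem_univ _))]
    have h1 : 4 * Fintype.card I = ∑ _i : I, 4 := by
      rw [Finset.sum_const, smul_eq_mul, mul_comm]
      rfl
    rw [h1]
    refine Finset.sum_le_sum (fun i _ => ?_)
    refine (h4 i).trans ?_
    rw [Set.ncard_eq_toFinset_card']
    refine Finset.card_le_card_of_injOn (fun j => (i, j)) ?_ ?_
    · intro j hj
      simp only [Set.coe_toFinset, Set.mem_ofPred_eq] at hj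
      simp only [coe_filter, Set.mem_ofPred_eq]
      exact ⟨(hPr _).2 hj, trivial⟩
    · intro j _ j' _ h
      exact congrArg Prod.snd h
  have hIpos : 1 ≤ Fintype.card I := Fintype.card_pos
  have hxe : ∀ p : I × J, p ∈ Pr → ∃ x : Ω, M.w x ∈ Y (Sum.inl p.1) ∧
      M.w (M.a0 x) ∈ Y (Sum.inr p.2) := by
    intro p hp
    obtain ⟨u, hu, v, hv, huv⟩ := (hPr p).1 hp
    obtain ⟨x, hx, hx'⟩ := (M.adj u v).1 huv
    exact ⟨x, by rw [hx]; exact hu, by rw [hx']; exact hv⟩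
  have hne : Nonempty Ω := by
    have : 0 < Pr.card := by omega
    obtain ⟨p, hp⟩ := Finset.card_pos.1 this
    obtain ⟨x, _⟩ := hxe p hp
    exact ⟨x⟩
  choose! xx hx1 hx2 using hxe
  let Bf : Finset Ω := Pr.biUnion (fun p => ed M (xx p))
  have hBf : ∀ y, y ∈ Bf ↔ ∃ p ∈ Pr, y ∈ ed M (xx p) := by
    intro y; simp [Bf]
  -- the ends of a flag of `B`
  have hends : ∀ p ∈ Pr, ∀ y ∈ ed M (xx p),
      ((y = xx p ∨ y = M.a2 (xx p)) ∧ M.w y ∈ Y (Sum.inl p.1) ∧
        M.w (M.a0 y) ∈ Y (Sum.inr p.2)) ∨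
      ((y = M.a0 (xx p) ∨ y = M.a0 (M.a2 (xx p))) ∧ M.w y ∈ Y (Sum.inr p.2) ∧
        M.w (M.a0 y) ∈ Y (Sum.inl p.1)) := by
    intro p hp y hy
    rcases (mem_ed M).1 hy with h | h | h | h
    · left
      rw [h]
      exact ⟨Or.inl rfl, hx1 p hp, hx2 p hp⟩
    · right
      rw [h, M.i0]
      exact ⟨Or.inl rfl, hx2 p hp, hx1 p hp⟩
    · left
      rw [h, M.w2, w02]
      exact ⟨Or.inr rfl, hx1 p hp, hx2 p hp⟩
    · right
      rw [h, M.i0, w02, M.w2]
      exact ⟨Or.inr rfl, hx2 p hp, hx1 p hp⟩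
  have hBc : Bf.card = 4 * Pr.card := by
    rw [Finset.card_biUnion]
    · rw [Finset.sum_congr rfl (fun p _ => ed_card M (xx p)), Finset.sum_const, smul_eq_mul,
        mul_comm]
    · intro p hp q hq hpq
      show Disjoint (ed M (xx p)) (ed M (xx q))
      rw [Finset.disjoint_left]
      intro y hy hy'
      apply hpq
      rcases hends p hp y hy with ⟨_, a1, a2⟩ | ⟨_, a1, a2⟩ <;>
        rcases hends q hq y hy' with ⟨_, b1, b2⟩ | ⟨_, b1, b2⟩
      · exact Prod.ext (Sum.inl.inj (hua a1 b1)) (Sum.inr.inj (hua a2 b2))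
      · exact absurd (hua a1 b1) Sum.inl_ne_inr
      · exact absurd (hua a1 b1) Sum.inr_ne_inl
      · exact Prod.ext (Sum.inl.inj (hua a2 b2)) (Sum.inr.inj (hua a1 b1))
  have hBE : IsE M (Bf : Set Ω) := by
    constructor
    · intro x
      simp only [mem_coe, hBf]
      constructor
      · rintro ⟨p, hp, h⟩
        exact ⟨p, hp, ed_trans M h (ed_symm M ((mem_ed M).2 (Or.inr (Or.inl rfl))))⟩
      · rintro ⟨p, hp, h⟩
        exact ⟨p, hp, ed_trans M h ((mem_ed M).2 (Or.inr (Or.inl rfl)))⟩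
    · intro x
      simp only [mem_coe, hBf]
      constructor
      · rintro ⟨p, hp, h⟩
        exact ⟨p, hp, ed_trans M h (ed_symm M ((mem_ed M).2 (Or.inr (Or.inr (Or.inl rfl)))))⟩
      · rintro ⟨p, hp, h⟩
        exact ⟨p, hp, ed_trans M h ((mem_ed M).2 (Or.inr (Or.inr (Or.inl rfl))))⟩
  -- labels
  let lab : W → I ⊕ J := fun v => if h : ∃ a, v ∈ Y a then h.choose else Sum.inl hI.some
  have hlab : ∀ {a v}, v ∈ Y a → lab v = a := by
    intro a v hv
    have h : ∃ a, v ∈ Y a := ⟨a, hv⟩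
    simp only [lab, dif_pos h]
    exact hua h.choose_spec hv
  have hBsd : ∀ x ∈ (Bf : Set Ω), (lab (M.w x)).isLeft ≠ (lab (M.w (M.a0 x))).isLeft := by
    intro x hx
    obtain ⟨p, hp, h⟩ := (hBf x).1 hx
    rcases hends p hp x h with ⟨_, a1, a2⟩ | ⟨_, a1, a2⟩
    · rw [hlab a1, hlab a2]; simp
    · rw [hlab a1, hlab a2]; simp
  have hElab : ∀ x ∈ E, lab (M.w x) = lab (M.w (M.a0 x)) := by
    intro x hx
    obtain ⟨a, h1, h2⟩ := hEY x hx
    rw [hlab h1, hlab h2]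
  have hsi : ∀ x ∈ (Bf : Set Ω), ∀ y ∈ (Bf : Set Ω), lab (M.w x) = lab (M.w y) →
      lab (M.w (M.a0 x)) = lab (M.w (M.a0 y)) → y = x ∨ y = M.a2 x := by
    intro x hx y hy e1 e2
    obtain ⟨p, hp, h⟩ := (hBf x).1 hx
    obtain ⟨q, hq, h'⟩ := (hBf y).1 hy
    rcases hends p hp x h with ⟨a0, a1, a2⟩ | ⟨a0, a1, a2⟩ <;>
      rcases hends q hq y h' with ⟨b0, b1, b2⟩ | ⟨b0, b1, b2⟩
    · rw [hlab a1, hlab b1] at e1
      rw [hlab a2, hlab b2] at e2
      have hpq : p = q := Prod.ext (Sum.inl.inj e1) (Sum.inr.inj e2)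
      subst hpq
      rcases a0 with a0 | a0 <;> rcases b0 with b0 | b0 <;> rw [a0, b0]
      · exact Or.inl rfl
      · exact Or.inr rfl
      · exact Or.inr (M.i2 _).symm
      · exact Or.inl rfl
    · rw [hlab a1, hlab b1] at e1
      exact absurd e1 Sum.inl_ne_inr
    · rw [hlab a1, hlab b1] at e1
      exact absurd e1 Sum.inr_ne_inl
    · rw [hlab a1, hlab b1] at e1
      rw [hlab a2, hlab b2] at e2
      have hpq : p = q := Prod.ext (Sum.inl.inj e2) (Sum.inr.inj e1)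
      subst hpq
      rcases a0 with a0 | a0 <;> rcases b0 with b0 | b0 <;> rw [a0, b0]
      · exact Or.inl rfl
      · exact Or.inr (M.c02 _)
      · right
        rw [← M.c02, M.i2]
      · exact Or.inl rfl
  have hBn : (Bf : Set Ω).ncard = 4 * Pr.card := by rw [Set.ncard_coe_finset, hBc]
  have side := hSIDE W Ω (I ⊕ J) G M hG lab (fun a => a.isLeft) (Bf : Set Ω) E hBE hE hBsd hElab
    hsi hEno (by rw [hBn]; omega)
  have hdis : Disjoint (Bf : Set Ω) E := by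
    rw [Set.disjoint_left]
    intro x hx hx'
    exact hBsd x hx (by rw [hElab x hx'])
  have la := hLA W Ω G M hG ((Bf : Set Ω) ∪ E) (⋃ a, Y a)
    ⟨fun x => by rw [Set.mem_union, Set.mem_union, hBE.1, hE.1],
      fun x => by rw [Set.mem_union, Set.mem_union, hBE.2, hE.2]⟩
    (by
      obtain ⟨v⟩ := (hc (Sum.inl hI.some)).nonempty
      exact ⟨v.1, Set.mem_iUnion.2 ⟨_, v.2⟩⟩)
    (by
      rintro x (hx | hx)
      · obtain ⟨p, hp, h⟩ := (hBf x).1 hx
        rcases hends p hp x h with ⟨_, a1, _⟩ | ⟨_, a1, _⟩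
        · exact Set.mem_iUnion.2 ⟨_, a1⟩
        · exact Set.mem_iUnion.2 ⟨_, a1⟩
      · obtain ⟨a, h1, _⟩ := hEY x hx
        exact Set.mem_iUnion.2 ⟨_, h1⟩)
  rw [Set.ncard_union_eq hdis (Set.toFinite _) (Set.toFinite _), hBn] at la
  rw [hBn] at side
  have hN : Nat.card (I ⊕ J) = Nat.card I + Nat.card J := Nat.card_sum
  rw [hN] at hEc
  rw [← Nat.card_eq_fintype_card] at hPc
  omega

end

end Pool.Agent.TFK.EUL

namespace Pool.Agent.TFK

theorem EUL_thm (hLA : Stmt_LA) (hSIDE : Stmt_SIDE) (hTREE : Stmt_TREE) : Stmt_EUL := by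
  intro W Ω I J _ _ _ _ G M k hk hG Y hd hc h4
  classical
  have : Fintype Ω := Fintype.ofFinite Ω
  have : Fintype I := Fintype.ofFinite I
  have : Fintype J := Fintype.ofFinite J
  exact EUL.main M hLA hSIDE hTREE k hk hG Y hd hc h4

end Pool.Agent.TFK
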