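import Pool.Agent.TFK.St

/-!
# Module TFK_FOUR: the barrier of a 4-connected graph
-/

set_option autoImplicit false

namespace Pool.Agent.TFK

open Function

namespace FOUR

/-- a set closed under adjacency contains everything reachable from it -/
theorem reach_closed {V : Type} (H : SimpleGraph V) (P : V → Prop)
    (hP : ∀ u v, H.Adj u v → P u → P v) {x y : V} (hxy : H.Reachable x y) (hx : P x) : P y := by
  obtain ⟨p⟩ := hxy
  induction p with
  | nil => exact hx
  | cons h _ ih => exact ih (hP _ _ h hx)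

variable {W : Type} [Fintype W] {G : SimpleGraph W}

/-- separation -/
theorem sep (h4 : KR.FourConn G) {X Y : Set W} (hX : X.Nonempty) (hY : Y.ncard ≤ 3)
    (hd : Disjoint X Y) (hc : ∀ u ∈ X, ∀ v, G.Adj u v → v ∈ X ∨ v ∈ Y) (w : W) :
    w ∈ X ∨ w ∈ Y := by
  classical
  by_contra hw
  push Not at hw
  obtain ⟨hwX, hwY⟩ := hw
  obtain ⟨x, hx⟩ := hX
  have hxY : x ∉ Y := fun h => Set.disjoint_left.1 hd hx h
  have hcard : (Set.toFinite Y).toFinset.card < 4 := by
    rw [← Set.ncard_eq_toFinset_card Y (Set.toFinite Y)]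
    omega
  have hcon := h4.2 _ hcard
  have hmem : ∀ z : W, z ∉ Y → z ∈ (((Set.toFinite Y).toFinset : Set W)ᶜ) := by
    intro z hz
    rw [Set.Finite.coe_toFinset]
    exact hz
  have hr := hcon.preconnected ⟨x, hmem x hxY⟩ ⟨w, hmem w hwY⟩
  have := reach_closed _ (fun z : ↥(((Set.toFinite Y).toFinset : Set W)ᶜ) => (z : W) ∈ X)
    (by
      rintro ⟨u, hu⟩ ⟨v, hv⟩ huv hux
      rcases hc u hux v huv with h | h
      · exact h
      · exfalso
        rw [Set.Finite.coe_toFinset] at hv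
        exact hv h) hr hx
  exact hwX this

/-- the degree -/
theorem deg (h4 : KR.FourConn G) (v : W) : 4 ≤ (G.neighborSet v).ncard := by
  classical
  by_contra h
  have h5 := h4.1
  have hall := sep h4 (X := {v}) (Y := G.neighborSet v) ⟨v, rfl⟩ (by omega)
    (by
      rw [Set.disjoint_singleton_left]
      exact G.loopless.irrefl v)
    (by
      rintro u rfl w hw
      exact Or.inr hw)
  have h1 : (Set.univ : Set W) ⊆ {v} ∪ G.neighborSet v := fun w _ => hall w
  have h2 := (Set.ncard_le_ncard h1 (Set.toFinite _)).trans (Set.ncard_union_le _ _)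
  rw [Set.ncard_univ, Set.ncard_singleton, Nat.card_eq_fintype_card] at h2
  omega

variable {k : ℕ} {S T : Set W} {𝒞 : Set (Set W)}

/-- the neighbours of a vertex of `T` -/
theorem split (hB : Bar G k S T 𝒞) {t : W} (ht : t ∈ T) :
    (G.neighborSet t).ncard ≤ {s | s ∈ S ∧ G.Adj t s}.ncard +
      {C | C ∈ 𝒞 ∧ Tou G t C}.ncard := by
  classical
  have h1 : G.neighborSet t ⊆ {s | s ∈ S ∧ G.Adj t s} ∪ (G.neighborSet t \ S) := by
    intro v hv
    by_cases hs : v ∈ S
    · exact Or.inl ⟨hs, hv⟩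
    · exact Or.inr ⟨hv, hs⟩
  have h2 := (Set.ncard_le_ncard h1 (Set.toFinite _)).trans (Set.ncard_union_le _ _)
  refine h2.trans (Nat.add_le_add_left ?_ _)
  have hex : ∀ v : W, ∃ C : Set W, v ∈ G.neighborSet t \ S → C ∈ 𝒞 ∧ v ∈ C := by
    intro v
    by_cases hv : v ∈ G.neighborSet t \ S
    · rcases hB.tnb t ht v hv.1 with h | ⟨C, hC, hvC⟩
      · exact absurd h hv.2
      · exact ⟨C, fun _ => ⟨hC, hvC⟩⟩
    · exact ⟨∅, fun h => absurd h hv⟩
  choose f hf using hex
  refine Set.ncard_le_ncard_of_injOn f ?_ ?_ (Set.toFinite _)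
  · intro v hv
    obtain ⟨h3, h5⟩ := hf v hv
    exact ⟨h3, v, h5, hv.1⟩
  · intro v hv v' hv' hvv
    obtain ⟨h3, h5⟩ := hf v hv
    obtain ⟨-, h6⟩ := hf v' hv'
    rw [← hvv] at h6
    exact hB.tuniq t ht _ h3 v h5 v' h6 hv.1 hv'.1

/-- counting the pairs -/
theorem pairs (hB : Bar G k S T 𝒞) :
    𝒞.ncard + 2 * (C3 G T 𝒞).ncard ≤
      {p : W × Set W | p.1 ∈ T ∧ p.2 ∈ 𝒞 ∧ Tou G p.1 p.2}.ncard := by
  classical
  obtain ⟨P, hP⟩ : ∃ P : Set (W × Set W), P = {p | p.1 ∈ T ∧ p.2 ∈ 𝒞 ∧ Tou G p.1 p.2} :=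
    ⟨_, rfl⟩
  rw [← hP]
  have hPf : P.Finite := Set.toFinite _
  have hCf : 𝒞.Finite := Set.toFinite _
  rw [Set.ncard_eq_toFinset_card P hPf, Set.ncard_eq_toFinset_card 𝒞 hCf]
  have h1 : hPf.toFinset.card = ∑ C ∈ hCf.toFinset,
      (hPf.toFinset.filter (fun p => p.2 = C)).card := by
    apply Finset.card_eq_sum_card_fiberwise
    intro p hp
    rw [Finset.mem_coe, Set.Finite.mem_toFinset, hP] at hp
    rw [Finset.mem_coe, Set.Finite.mem_toFinset]
    exact hp.2.1
  have h2 : ∀ C ∈ hCf.toFinset, 1 + (if C ∈ C3 G T 𝒞 then 2 else 0) ≤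
      (hPf.toFinset.filter (fun p => p.2 = C)).card := by
    intro C hC
    rw [Set.Finite.mem_toFinset] at hC
    have h3 : (TN G T C).ncard ≤ (hPf.toFinset.filter (fun p => p.2 = C)).card := by
      rw [Set.ncard_eq_toFinset_card _ (Set.toFinite (TN G T C))]
      refine Finset.card_le_card_of_injOn (fun t => (t, C)) ?_ ?_
      · intro t ht
        rw [Finset.mem_coe, Set.Finite.mem_toFinset] at ht
        rw [Finset.mem_coe, Finset.mem_filter, Set.Finite.mem_toFinset, hP]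
        exact ⟨⟨ht.1, hC, ht.2⟩, rfl⟩
      · intro t _ t' _ htt
        exact congrArg Prod.fst htt
    have h4 := hB.codd C hC
    have h5 : 1 ≤ (TN G T C).ncard := h4.pos
    split_ifs with h6
    · have h7 := h6.2
      omega
    · omega
  have h3 := Finset.sum_le_sum h2
  rw [← h1, Finset.sum_add_distrib, Finset.sum_const, smul_eq_mul, mul_one,
    ← Finset.sum_filter, Finset.sum_const, smul_eq_mul] at h3
  have h4 : (C3 G T 𝒞).ncard ≤ (hCf.toFinset.filter (fun C => C ∈ C3 G T 𝒞)).card := by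
    rw [Set.ncard_eq_toFinset_card _ (Set.toFinite (C3 G T 𝒞))]
    apply Finset.card_le_card
    intro C hC
    rw [Set.Finite.mem_toFinset] at hC
    rw [Finset.mem_filter, Set.Finite.mem_toFinset]
    exact ⟨hC.1, hC⟩
  omega

/-- (a) -/
theorem partA (hB : Bar G k S T 𝒞) : S.ncard + (C3 G T 𝒞).ncard + k + 1 ≤ T.ncard := by
  have h1 := hB.cnt
  have h2 := pairs hB
  omega

/-- members have nonempty vertex sets -/
theorem ne (hB : Bar G k S T 𝒞) {C : Set W} (hC : C ∈ 𝒞) : C.Nonempty := by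
  obtain ⟨x⟩ := (hB.cconn C hC).nonempty
  exact ⟨x, x.2⟩

/-- a member touching `t` which is not in `C3` has `t` as its only neighbour in `T` -/
theorem single (hB : Bar G k S T 𝒞) {C : Set W} (hC : C ∈ 𝒞) (h3 : C ∉ C3 G T 𝒞) {t : W}
    (ht : t ∈ TN G T C) : TN G T C = {t} := by
  have h1 := hB.codd C hC
  have h2 : ¬ 3 ≤ (TN G T C).ncard := fun h => h3 ⟨hC, h⟩
  have h5 : (TN G T C).ncard = 1 := by
    obtain ⟨m, hm⟩ := h1
    omega
  obtain ⟨a, ha⟩ := Set.ncard_eq_one.1 h5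
  rw [ha] at ht ⊢
  rw [Set.mem_singleton_iff] at ht
  rw [ht]

/-- `T` has at least two elements -/
theorem two (h4 : KR.FourConn G) (hB : Bar G k S T 𝒞) {t : W} (ht : t ∈ T) :
    ∃ t' ∈ T, t' ≠ t := by
  classical
  by_contra hno
  push Not at hno
  have hT : T = {t} := by
    ext x
    rw [Set.mem_singleton_iff]
    exact ⟨fun h => hno x h, fun h => h ▸ ht⟩
  have hA := partA hB
  rw [hT, Set.ncard_singleton] at hA
  have hS : S = ∅ := (Set.ncard_eq_zero (Set.toFinite S)).1 (by omega)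
  have hs := split hB ht
  have hd := deg h4 t
  have h1 : {s | s ∈ S ∧ G.Adj t s} = ∅ := by
    rw [hS]
    ext x
    simp
  rw [h1, Set.ncard_empty] at hs
  have h2 : 1 < {C | C ∈ 𝒞 ∧ Tou G t C}.ncard := by omega
  obtain ⟨C, C', ⟨hC, -⟩, ⟨hC', -⟩, hCC⟩ := (Set.one_lt_ncard_iff (Set.toFinite _)).1 h2
  obtain ⟨x, hx⟩ := ne hB hC'
  have h3 := sep h4 (X := C) (Y := {t}) (ne hB hC) (by rw [Set.ncard_singleton]; omega)
    (by
      rw [Set.disjoint_singleton_right]
      exact fun h => Set.disjoint_left.1 (hB.cT C hC) h ht)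
    (by
      intro u hu v huv
      rcases hB.cclosed C hC u hu v huv with h | h | h
      · exact Or.inl h
      · rw [hS] at h
        exact absurd h (Set.notMem_empty v)
      · exact Or.inr (hno v h)) x
  rcases h3 with h | h
  · exact Set.disjoint_left.1 (hB.cpair C hC C' hC' hCC) h hx
  · rw [Set.mem_singleton_iff] at h
    rw [h] at hx
    exact Set.disjoint_left.1 (hB.cT C' hC') hx ht

theorem mem_AA {t x : W} : x ∈ AA G T 𝒞 t ↔ x = t ∨ ∃ C ∈ 𝒞, TN G T C = {t} ∧ x ∈ C := Iff.rfl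

/-- (e), first part -/
theorem disS (hB : Bar G k S T 𝒞) {t : W} (ht : t ∈ T) : Disjoint (AA G T 𝒞 t) S := by
  rw [Set.disjoint_left]
  intro x hx hxS
  rcases mem_AA.1 hx with rfl | ⟨C, hC, -, hxC⟩
  · exact Set.disjoint_left.1 hB.dST hxS ht
  · exact Set.disjoint_left.1 (hB.cS C hC) hxC hxS

/-- an element of `T` in `AA t` is `t` -/
theorem T_AA (hB : Bar G k S T 𝒞) {t t' : W} (ht' : t' ∈ T) (h : t' ∈ AA G T 𝒞 t) : t' = t := by
  rcases mem_AA.1 h with h | ⟨C, hC, -, hxC⟩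
  · exact h
  · exact absurd ht' (Set.disjoint_left.1 (hB.cT C hC) hxC)

/-- (b) -/
theorem partB (h4 : KR.FourConn G) (hB : Bar G k S T 𝒞) {t : W} (ht : t ∈ T) :
    4 ≤ {s | s ∈ S ∧ ∃ u ∈ AA G T 𝒞 t, G.Adj u s}.ncard +
      {C | C ∈ C3 G T 𝒞 ∧ ∃ u ∈ AA G T 𝒞 t, Tou G u C}.ncard := by
  classical
  have htA : t ∈ AA G T 𝒞 t := Or.inl rfl
  by_cases hD : ∃ C ∈ 𝒞, TN G T C = {t}
  · obtain ⟨C, hC, hCt⟩ := hD
    obtain ⟨t', ht', hne⟩ := two h4 hB ht
    -- the neighbours of `C` in `S`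
    have h3 : 3 ≤ {s | s ∈ S ∧ ∃ u ∈ C, G.Adj u s}.ncard := by
      by_contra hlt
      have hY : ({t} ∪ {s | s ∈ S ∧ ∃ u ∈ C, G.Adj u s} : Set W).ncard ≤ 3 := by
        refine (Set.ncard_union_le _ _).trans ?_
        rw [Set.ncard_singleton]
        omega
      have h5 := sep h4 (X := C) (ne hB hC) hY
        (by
          rw [Set.disjoint_left]
          rintro x hx (h | h)
          · rw [Set.mem_singleton_iff] at h
            rw [h] at hx
            exact Set.disjoint_left.1 (hB.cT C hC) hx ht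
          · exact Set.disjoint_left.1 (hB.cS C hC) hx h.1)
        (by
          intro u hu v huv
          rcases hB.cclosed C hC u hu v huv with h | h | h
          · exact Or.inl h
          · exact Or.inr (Or.inr ⟨h, u, hu, huv⟩)
          · have h6 : v ∈ TN G T C := ⟨h, u, hu, huv.symm⟩
            rw [hCt] at h6
            exact Or.inr (Or.inl h6)) t'
      rcases h5 with h | h | h
      · exact Set.disjoint_left.1 (hB.cT C hC) h ht'
      · exact hne h
      · exact Set.disjoint_left.1 hB.dST h.1 ht'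
    have h6 : {s | s ∈ S ∧ ∃ u ∈ C, G.Adj u s} ⊆
        {s | s ∈ S ∧ ∃ u ∈ AA G T 𝒞 t, G.Adj u s} := by
      rintro s ⟨hs, u, hu, hus⟩
      exact ⟨hs, u, Or.inr ⟨C, hC, hCt, hu⟩, hus⟩
    have h7 := Set.ncard_le_ncard h6 (Set.toFinite _)
    by_cases hE : ∃ C', C' ∈ C3 G T 𝒞 ∧ ∃ u ∈ AA G T 𝒞 t, Tou G u C'
    · have h8 : 0 < {C | C ∈ C3 G T 𝒞 ∧ ∃ u ∈ AA G T 𝒞 t, Tou G u C}.ncard :=
        (Set.ncard_pos (Set.toFinite _)).2 hE
      omega
    · push Not at hE
      have h8 : 4 ≤ {s | s ∈ S ∧ ∃ u ∈ AA G T 𝒞 t, G.Adj u s}.ncard := by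
        by_contra hlt
        have h5 := sep h4 (X := AA G T 𝒞 t) (Y := {s | s ∈ S ∧ ∃ u ∈ AA G T 𝒞 t, G.Adj u s})
          ⟨t, htA⟩ (by omega)
          (by
            rw [Set.disjoint_left]
            intro x hx h
            exact Set.disjoint_left.1 (disS hB ht) hx h.1)
          (by
            intro u hu v huv
            rcases mem_AA.1 hu with h | ⟨C', hC', hCt', huC⟩
            · rw [h] at huv
              rcases hB.tnb t ht v huv with h | ⟨C', hC', hv⟩
              · exact Or.inr ⟨h, t, htA, huv⟩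
              · have h9 : Tou G t C' := ⟨v, hv, huv⟩
                have h10 : C' ∉ C3 G T 𝒞 := fun h => hE C' h t htA h9
                exact Or.inl (Or.inr ⟨C', hC', single hB hC' h10 ⟨ht, h9⟩, hv⟩)
            · rcases hB.cclosed C' hC' u huC v huv with h | h | h
              · exact Or.inl (Or.inr ⟨C', hC', hCt', h⟩)
              · exact Or.inr ⟨h, u, hu, huv⟩
              · have h6 : v ∈ TN G T C' := ⟨h, u, huC, huv.symm⟩
                rw [hCt'] at h6
                exact Or.inl (Or.inl h6)) t'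
        rcases h5 with h | h
        · exact hne (T_AA hB ht' h)
        · exact Set.disjoint_left.1 hB.dST h.1 ht'
      omega
  · push Not at hD
    have hs := split hB ht
    have hd := deg h4 t
    have h1 : {s | s ∈ S ∧ G.Adj t s} ⊆ {s | s ∈ S ∧ ∃ u ∈ AA G T 𝒞 t, G.Adj u s} := by
      rintro s ⟨h5, h6⟩
      exact ⟨h5, t, htA, h6⟩
    have h2 : {C | C ∈ 𝒞 ∧ Tou G t C} ⊆
        {C | C ∈ C3 G T 𝒞 ∧ ∃ u ∈ AA G T 𝒞 t, Tou G u C} := by
      rintro C ⟨hC, hCt⟩
      refine ⟨?_, t, htA, hCt⟩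
      by_contra h10
      exact hD C hC (single hB hC h10 ⟨ht, hCt⟩)
    have h3 := Set.ncard_le_ncard h1 (Set.toFinite _)
    have h5 := Set.ncard_le_ncard h2 (Set.toFinite _)
    omega

/-- (c) -/
theorem partC (hB : Bar G k S T 𝒞) (t : W) : (G.induce (AA G T 𝒞 t)).Connected := by
  have htA : t ∈ AA G T 𝒞 t := Or.inl rfl
  have key : ∀ x : ↥(AA G T 𝒞 t), (G.induce (AA G T 𝒞 t)).Reachable x ⟨t, htA⟩ := by
    rintro ⟨x, hx⟩
    rcases mem_AA.1 hx with h | ⟨C, hC, hCt, hxC⟩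
    · subst h
      exact SimpleGraph.Reachable.refl _
    · have h1 : t ∈ TN G T C := by
        rw [hCt]
        exact rfl
      obtain ⟨-, v, hv, htv⟩ := h1
      have hsub : C ≤ AA G T 𝒞 t := fun y hy => Or.inr ⟨C, hC, hCt, hy⟩
      have h2 := (hB.cconn C hC).preconnected ⟨x, hxC⟩ ⟨v, hv⟩
      have h3 := h2.map (SimpleGraph.induceHomOfLE G hsub).toHom
      have h4 : (G.induce (AA G T 𝒞 t)).Adj ⟨v, hsub hv⟩ ⟨t, htA⟩ := htv.symm
      exact h3.trans h4.reachable
  have : Nonempty ↥(AA G T 𝒞 t) := ⟨⟨t, htA⟩⟩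
  exact ⟨fun x y => (key x).trans (key y).symm⟩

end FOUR

/-- FOUR. -/
theorem FOUR_thm : Stmt_FOUR := by
  intro W _ G k S T 𝒞 h4 hB
  refine ⟨FOUR.partA hB, fun t ht => FOUR.partB h4 hB ht, fun t _ => FOUR.partC hB t, ?_, ?_⟩
  · intro t ht t' ht' hne
    rw [Set.disjoint_left]
    intro x hx hx'
    rcases FOUR.mem_AA.1 hx with h | ⟨C, hC, hCt, hxC⟩
    · rw [h] at hx'
      exact hne (FOUR.T_AA hB ht hx')
    · rcases FOUR.mem_AA.1 hx' with h | ⟨C', hC', hCt', hxC'⟩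
      · rw [h] at hxC
        exact Set.disjoint_left.1 (hB.cT C hC) hxC ht'
      · by_cases hCC : C = C'
        · rw [hCC, hCt', Set.singleton_eq_singleton_iff] at hCt
          exact hne hCt.symm
        · exact Set.disjoint_left.1 (hB.cpair C hC C' hC' hCC) hxC hxC'
  · intro t ht
    refine ⟨FOUR.disS hB ht, ?_⟩
    intro C hC
    rw [Set.disjoint_left]
    intro x hx hxC
    rcases FOUR.mem_AA.1 hx with h | ⟨C', hC', hCt', hxC'⟩
    · rw [h] at hxC
      exact Set.disjoint_left.1 (hB.cT C hC.1) hxC ht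
    · by_cases hCC : C' = C
      · have h1 := hC.2
        rw [← hCC, hCt', Set.ncard_singleton] at h1
        omega
      · exact Set.disjoint_left.1 (hB.cpair C' hC' C hC.1 hCC) hxC' hxC

end Pool.Agent.TFK
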