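import Pool.Agent.TFK.St

/-!
# HALL: a strong form of Tutte's theorem (project TFK)
-/

set_option autoImplicit false

namespace Pool.Agent.TFK.HALL

open Function Finset

section

variable {V : Type} {Γ : SimpleGraph V}

/-- a closed set with a point of a preconnected set disjoint from `U` contains that set -/
theorem sub_of_closed {U K L : Set V} (hK : (Γ.induce K).Preconnected) (hd : Disjoint K U)
    (hL : ∀ x ∈ L, ∀ y, Γ.Adj x y → y ∈ L ∨ y ∈ U) {x : V} (hx : x ∈ K) (hx' : x ∈ L) : K ⊆ L := by
  intro y hy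
  obtain ⟨p⟩ := hK ⟨x, hx⟩ ⟨y, hy⟩
  have key : ∀ {a b : K}, (Γ.induce K).Walk a b → a.1 ∈ L → b.1 ∈ L := by
    intro a b p
    induction p with
    | nil => exact fun h => h
    | cons h q ih =>
      intro ha
      apply ih
      rcases hL _ ha _ h with h1 | h1
      · exact h1
      · exact absurd h1 (Set.disjoint_left.1 hd (Subtype.prop _))
  exact key p hx'

theorem OC_eq {U K L : Set V} (hK : IsOC Γ U K) (hL : IsOC Γ U L) {x : V} (hx : x ∈ K)
    (hx' : x ∈ L) : K = L :=
  Set.Subset.antisymm
    (sub_of_closed hK.conn.preconnected hK.dis hL.closed hx hx')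
    (sub_of_closed hL.conn.preconnected hL.dis hK.closed hx' hx)

/-- the graph `Γ - U` of Mathlib -/
abbrev del (Γ : SimpleGraph V) (U : Set V) : SimpleGraph ((⊤ : Γ.Subgraph).deleteVerts U).verts :=
  ((⊤ : Γ.Subgraph).deleteVerts U).coe

theorem del_adj {U : Set V} (p q : ((⊤ : Γ.Subgraph).deleteVerts U).verts) :
    (del Γ U).Adj p q ↔ Γ.Adj p.1 q.1 := by
  have hp : p.1 ∉ U := by
    have := p.2
    simp only [SimpleGraph.Subgraph.deleteVerts_verts, SimpleGraph.Subgraph.verts_top,
      Set.mem_sdiff, Set.mem_univ, true_and] at this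
    exact this
  have hq : q.1 ∉ U := by
    have := q.2
    simp only [SimpleGraph.Subgraph.deleteVerts_verts, SimpleGraph.Subgraph.verts_top,
      Set.mem_sdiff, Set.mem_univ, true_and] at this
    exact this
  simp [SimpleGraph.Subgraph.coe_adj, SimpleGraph.Subgraph.deleteVerts_adj, hp, hq]

theorem mem_verts {U : Set V} (v : V) : v ∈ ((⊤ : Γ.Subgraph).deleteVerts U).verts ↔ v ∉ U := by
  simp only [SimpleGraph.Subgraph.deleteVerts_verts, SimpleGraph.Subgraph.verts_top,
      Set.mem_sdiff, Set.mem_univ, true_and]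

theorem image_supp (U : Set V) :
    (fun c : (del Γ U).ConnectedComponent => Subtype.val '' c.supp) '' (del Γ U).oddComponents =
      {K | IsOC Γ U K} := by
  ext K
  simp only [Set.mem_image, Set.mem_ofPred_eq]
  constructor
  · rintro ⟨c, hc, rfl⟩
    refine ⟨?_, ?_, ?_, ?_⟩
    · rw [Set.disjoint_left]
      rintro x ⟨p, _, rfl⟩
      exact (mem_verts _).1 p.2
    · obtain ⟨x0, hx0⟩ := c.nonempty_supp
      rw [SimpleGraph.connected_iff]
      refine ⟨?_, ⟨⟨x0.1, x0, hx0, rfl⟩⟩⟩
      rintro ⟨x, p, hp, rfl⟩ ⟨y, q, hq, rfl⟩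
      have hconn := c.connected_toSimpleGraph
      obtain ⟨w⟩ := hconn.preconnected ⟨p, hp⟩ ⟨q, hq⟩
      let f : c.toSimpleGraph →g Γ.induce (Subtype.val '' c.supp) :=
        { toFun := fun z => ⟨z.1.1, z.1, z.2, rfl⟩
          map_rel' := by
            intro a b hab
            exact (del_adj a.1 b.1).1 hab }
      exact ⟨w.map f⟩
    · rintro x ⟨p, hp, rfl⟩ y hxy
      by_cases hy : y ∈ U
      · exact Or.inr hy
      · left
        refine ⟨⟨y, (mem_verts y).2 hy⟩, ?_, rfl⟩
        rw [SimpleGraph.ConnectedComponent.mem_supp_iff] at hp ⊢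
        rw [← hp]
        refine SimpleGraph.ConnectedComponent.sound ?_
        exact ((del_adj _ _).2 hxy.symm).reachable
    · have : (Subtype.val '' c.supp).ncard = c.supp.ncard :=
        Set.ncard_image_of_injective _ Subtype.val_injective
      rw [this]
      exact hc
  · intro hK
    obtain ⟨⟨x, hx⟩⟩ := hK.conn.nonempty
    have hxU : x ∉ U := Set.disjoint_left.1 hK.dis hx
    let c : (del Γ U).ConnectedComponent :=
      (del Γ U).connectedComponentMk ⟨x, (mem_verts x).2 hxU⟩
    have himg : Subtype.val '' c.supp = K := by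
      apply Set.Subset.antisymm
      · rintro y ⟨p, hp, rfl⟩
        rw [SimpleGraph.ConnectedComponent.mem_supp_iff] at hp
        have hr : (del Γ U).Reachable ⟨x, (mem_verts x).2 hxU⟩ p :=
          (SimpleGraph.ConnectedComponent.exact hp).symm
        obtain ⟨w⟩ := hr
        have key : ∀ {a b : ((⊤ : Γ.Subgraph).deleteVerts U).verts}, (del Γ U).Walk a b →
            a.1 ∈ K → b.1 ∈ K := by
          intro a b p
          induction p with
          | nil => exact fun h => h
          | cons h q ih =>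
            intro ha
            apply ih
            rcases hK.closed _ ha _ ((del_adj _ _).1 h) with h1 | h1
            · exact h1
            · exact absurd h1 ((mem_verts _).1 (Subtype.prop _))
        exact key w hx
      · intro y hy
        have hyU : y ∉ U := Set.disjoint_left.1 hK.dis hy
        refine ⟨⟨y, (mem_verts y).2 hyU⟩, ?_, rfl⟩
        rw [SimpleGraph.ConnectedComponent.mem_supp_iff]
        refine SimpleGraph.ConnectedComponent.sound ?_
        obtain ⟨w⟩ := hK.conn.preconnected ⟨y, hy⟩ ⟨x, hx⟩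
        let f : Γ.induce K →g del Γ U :=
          { toFun := fun z => ⟨z.1, (mem_verts z.1).2 (Set.disjoint_left.1 hK.dis z.2)⟩
            map_rel' := by
              intro a b hab
              exact (del_adj _ _).2 hab }
        exact ⟨w.map f⟩
    refine ⟨c, ?_, himg⟩
    show Odd c.supp.ncard
    rw [← Set.ncard_image_of_injective c.supp Subtype.val_injective, himg]
    exact hK.odd

theorem ncard_eq [Finite V] (U : Set V) :
    {K | IsOC Γ U K}.ncard = (del Γ U).oddComponents.ncard := by
  rw [← image_supp, Set.ncard_image_of_injective]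
  intro c d h
  have h1 : c.supp = d.supp := Set.image_injective.2 Subtype.val_injective h
  exact SimpleGraph.ConnectedComponent.supp_injective h1

theorem parity [Finite V] (U : Set V) (hV : Even (Nat.card V)) :
    Even ({K | IsOC Γ U K}.ncard + U.ncard) := by
  have h1 : Odd (del Γ U).oddComponents.ncard ↔
      Odd (Nat.card ((⊤ : Γ.Subgraph).deleteVerts U).verts) :=
    SimpleGraph.odd_ncard_oddComponents _
  have h2 : Nat.card ((⊤ : Γ.Subgraph).deleteVerts U).verts + U.ncard = Nat.card V := by
    have : ((⊤ : Γ.Subgraph).deleteVerts U).verts = Uᶜ := by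
      ext v
      rw [mem_verts]
      rfl
    rw [Nat.card_coe_set_eq, this, add_comm]
    exact Set.ncard_add_ncard_compl U
  rw [ncard_eq]
  rw [← h2] at hV
  rw [Nat.even_add, ← Nat.not_odd_iff_even, h1, Nat.not_odd_iff_even]
  exact Nat.even_add.1 hV

end

theorem main {V : Type} [Fintype V] (Γ : SimpleGraph V) (hV : Even (Nat.card V))
    (hno : ¬ ∃ M : Γ.Subgraph, M.IsPerfectMatching) : ∃ U : Set V, Viol Γ U := by
  classical
  rw [SimpleGraph.tutte] at hno
  push Not at hno
  obtain ⟨U0, hU0⟩ := hno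
  have hU0' : U0.ncard < {K | IsOC Γ U0 K}.ncard := by
    rw [ncard_eq]
    exact hU0
  let o : Set V → ℤ := fun U => ({K | IsOC Γ U K}.ncard : ℤ)
  let Φ : Set V → ℤ := fun U => ((Nat.card V : ℤ) + 1) * (o U - U.ncard) - U.ncard
  obtain ⟨U, hU⟩ := Finite.exists_max Φ
  have hcardle : ∀ S : Set V, S.ncard ≤ Nat.card V := fun S => by
    rw [← Set.ncard_univ]
    exact Set.ncard_le_ncard (Set.subset_univ _) (Set.toFinite _)
  have hpos : 1 ≤ o U - U.ncard := by
    by_contra h
    have h1 : o U - U.ncard ≤ 0 := by omega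
    have h2 := hU U0
    have h3 : (1 : ℤ) ≤ o U0 - U0.ncard := by
      simp only [o]
      omega
    have h4 : Φ U ≤ 0 := by
      have : ((Nat.card V : ℤ) + 1) * (o U - U.ncard) ≤ 0 :=
        mul_nonpos_of_nonneg_of_nonpos (by omega) h1
      simp only [Φ]
      omega
    have h5 : 1 ≤ Φ U0 := by
      have h6 : ((Nat.card V : ℤ) + 1) * 1 ≤ ((Nat.card V : ℤ) + 1) * (o U0 - U0.ncard) :=
        mul_le_mul_of_nonneg_left h3 (by omega)
      have h7 : (U0.ncard : ℤ) ≤ Nat.card V := by exact_mod_cast hcardle U0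
      simp only [Φ]
      omega
    omega
  refine ⟨U, ?_, ?_⟩
  · obtain ⟨r, hr⟩ := parity (Γ := Γ) U hV
    simp only [o] at hpos
    omega
  · intro X hXU hX
    by_contra hlt
    have hsub : {K | IsOC Γ U K} \ Nb Γ U X ⊆ {K | IsOC Γ (U \ X) K} := by
      rintro K ⟨hK, hN⟩
      refine ⟨Set.disjoint_of_subset_right Set.sdiff_subset hK.dis, hK.conn, ?_, hK.odd⟩
      intro x hx y hxy
      rcases hK.closed x hx y hxy with h | h
      · exact Or.inl h
      · right
        refine ⟨h, fun hyX => hN ⟨hK, y, hyX, x, hx, hxy.symm⟩⟩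
    have h1 : {K | IsOC Γ U K}.ncard ≤ {K | IsOC Γ (U \ X) K}.ncard + (Nb Γ U X).ncard := by
      have h2 := Set.ncard_le_ncard hsub (Set.toFinite _)
      have h3 := Set.ncard_le_ncard_sdiff_add_ncard {K | IsOC Γ U K} (Nb Γ U X) (Set.toFinite _)
      omega
    have h4 : (U \ X).ncard + X.ncard = U.ncard := Set.ncard_sdiff_add_ncard_of_subset hXU
    have h5 : 0 < X.ncard := (Set.ncard_pos (Set.toFinite _)).2 hX
    obtain ⟨r, hr⟩ := parity (Γ := Γ) U hV
    obtain ⟨r', hr'⟩ := parity (Γ := Γ) (U \ X) hV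
    have h6 : o U - U.ncard ≤ o (U \ X) - (U \ X).ncard := by
      simp only [o]
      omega
    have h7 := hU (U \ X)
    have h8 : ((Nat.card V : ℤ) + 1) * (o U - U.ncard) ≤
        ((Nat.card V : ℤ) + 1) * (o (U \ X) - (U \ X).ncard) :=
      mul_le_mul_of_nonneg_left h6 (by omega)
    simp only [Φ] at h7
    omega

end Pool.Agent.TFK.HALL

namespace Pool.Agent.TFK

theorem HALL_thm : Stmt_HALL := by
  intro V _ Γ hV hno
  exact HALL.main Γ hV hno

end Pool.Agent.TFK
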