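import Pool.Agent.TFK.St

/-!
# MATCH: perfect matchings of the gadget (project TFK)
-/

set_option autoImplicit false

namespace Pool.Agent.TFK

open Function

namespace MATCH

section

variable {W : Type} {G : SimpleGraph W} {k : ℕ}

/-- the neighbours of a dart -/
theorem dt_nb {d : G.Dart} {y : GV G k} (h : (gadget G k).Adj (dt G k d) y) :
    (∃ i, y = cp G k d.fst i) ∨ y = dt G k d.symm := by
  rcases y with ⟨v, i⟩ | e | j
  · left
    have h1 : d.fst = v := (adj_dt_cp G k v i d).1 h
    exact ⟨i, by rw [h1]⟩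
  · right
    have h1 : e = d.symm := (adj_dt_dt G k d e).1 h
    rw [h1]
  · exact ((adj_dt_ex G k d j).1 h).elim

/-- the neighbours of a copy -/
theorem cp_nb {v : W} {i : Bool} {y : GV G k} (h : (gadget G k).Adj (cp G k v i) y) :
    (∃ d : G.Dart, d.fst = v ∧ y = dt G k d) ∨ ∃ j, y = ex G k j := by
  rcases y with ⟨u, l⟩ | e | j
  · exact ((adj_cp_cp G k v u i l).1 h).elim
  · left
    exact ⟨e, (adj_cp_dt G k v i e).1 h, rfl⟩
  · right
    exact ⟨j, rfl⟩

end

end MATCH

open MATCH in
theorem MATCH_thm : Stmt_MATCH := by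
  intro W _ G k ⟨M, hM⟩
  classical
  have hmate : ∀ x : GV G k, ∃! y, M.Adj x y := fun x => hM.1 (hM.2 x)
  choose m hm hmu using hmate
  have hmu' : ∀ x y, M.Adj x y → y = m x := fun x y h => hmu x y h
  have hmm : ∀ x, m (m x) = x := fun x => (hmu' (m x) x (hm x).symm).symm
  have hinj : Function.Injective m := fun x y h => by rw [← hmm x, h, hmm]
  have hadj : ∀ x, (gadget G k).Adj x (m x) := fun x => (hm x).adj_sub
  -- used darts
  have hused : ∀ d : G.Dart, m (dt G k d) ≠ dt G k d.symm → ∃ i, m (dt G k d) = cp G k d.fst i := by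
    intro d hd
    rcases dt_nb (hadj (dt G k d)) with h | h
    · exact h
    · exact absurd h hd
  have hsym : ∀ d : G.Dart, m (dt G k d) ≠ dt G k d.symm →
      m (dt G k d.symm) ≠ dt G k d.symm.symm := by
    intro d hd h
    apply hd
    rw [SimpleGraph.Dart.symm_symm] at h
    rw [← h, hmm]
  obtain ⟨H, hH⟩ : ∃ H : SimpleGraph W, ∀ u v, H.Adj u v ↔ ∃ h : G.Adj u v,
      m (dt G k ⟨(u, v), h⟩) ≠ dt G k (SimpleGraph.Dart.symm ⟨(u, v), h⟩) :=
    ⟨{ Adj := fun u v => ∃ h : G.Adj u v,
        m (dt G k ⟨(u, v), h⟩) ≠ dt G k (SimpleGraph.Dart.symm ⟨(u, v), h⟩)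
       symm := ⟨by
        rintro u v ⟨h, hd⟩
        exact ⟨h.symm, hsym _ hd⟩⟩
       loopless := ⟨by
        rintro u ⟨h, _⟩
        exact h.ne rfl⟩ }, fun _ _ => Iff.rfl⟩
  refine ⟨H, fun u v h => ((hH u v).1 h).1, ?_, ?_⟩
  · intro v
    have h1 : (H.neighborSet v).ncard ≤ (Set.univ : Set Bool).ncard := by
      refine Set.ncard_le_ncard_of_injOn
        (fun u => if h : G.Adj v u then decide (m (dt G k ⟨(v, u), h⟩) = cp G k v true) else false)
        (fun _ _ => Set.mem_univ _) ?_ (Set.toFinite _)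
      intro u hu u' hu' he
      obtain ⟨h, hd⟩ := (hH v u).1 hu
      obtain ⟨h', hd'⟩ := (hH v u').1 hu'
      obtain ⟨i, hi⟩ := hused _ hd
      obtain ⟨i', hi'⟩ := hused _ hd'
      have hi : m (dt G k ⟨(v, u), h⟩) = cp G k v i := hi
      have hi' : m (dt G k ⟨(v, u'), h'⟩) = cp G k v i' := hi'
      simp only [dif_pos h, dif_pos h'] at he
      have hii : i = i' := by
        rw [hi, hi'] at he
        have h2 : (i = true) ↔ (i' = true) := by
          have h3 := decide_eq_decide.1 he
          have h4 : ∀ l : Bool, cp G k v l = cp G k v true ↔ l = true := by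
            intro l
            constructor
            · intro h5
              exact congrArg Prod.snd (Sum.inl.inj h5)
            · intro h5
              rw [h5]
          rw [h4, h4] at h3
          exact h3
        exact Bool.eq_iff_iff.2 h2
      rw [hii, ← hi'] at hi
      have h5 := Sum.inl.inj (Sum.inr.inj (hinj hi))
      have h6 := congrArg (fun d : G.Dart => d.snd) h5
      exact h6
    have h2 : (Set.univ : Set Bool).ncard = 2 := by
      rw [Set.ncard_univ, Nat.card_eq_fintype_card, Fintype.card_bool]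
    rw [h2] at h1
    exact h1
  · -- counting
    have hcp : ∀ p : W × Bool, ∃ r : H.Dart ⊕ Fin (2 * k),
        (∃ e : H.Dart, r = Sum.inl e ∧ m (Sum.inl p) = dt G k ⟨e.toProd, ((hH _ _).1 e.adj).1⟩) ∨
        ∃ j, r = Sum.inr j ∧ m (Sum.inl p) = ex G k j := by
      intro p
      obtain ⟨v, i⟩ := p
      rcases cp_nb (hadj (cp G k v i)) with ⟨d, _, h⟩ | ⟨j, h⟩
      · have hd : m (dt G k d) ≠ dt G k d.symm := by
          intro hd''
          have h2 : m (m (cp G k v i)) = dt G k d.symm := by rw [h]; exact hd''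
          rw [hmm] at h2
          exact absurd h2 Sum.inl_ne_inr
        have hd2 : H.Adj d.fst d.snd := (hH _ _).2 ⟨d.adj, hd⟩
        exact ⟨Sum.inl ⟨d.toProd, hd2⟩, Or.inl ⟨⟨d.toProd, hd2⟩, rfl, h⟩⟩
      · exact ⟨Sum.inr j, Or.inr ⟨j, rfl, h⟩⟩
    choose r hr using hcp
    have hcard1 : Fintype.card (W × Bool) ≤ Fintype.card (H.Dart ⊕ Fin (2 * k)) := by
      refine Fintype.card_le_of_injective r ?_
      intro p p' he
      have h3 : m (Sum.inl p) = m (Sum.inl p') → p = p' := fun h3 => Sum.inl.inj (hinj h3)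
      apply h3
      rcases hr p with ⟨e, h1, h2⟩ | ⟨j, h1, h2⟩ <;> rcases hr p' with ⟨e', h1', h2'⟩ | ⟨j', h1', h2'⟩
      · rw [h1, h1'] at he
        have h4 := Sum.inl.inj he
        subst h4
        rw [h2, h2']
      · rw [h1, h1'] at he
        exact absurd he Sum.inl_ne_inr
      · rw [h1, h1'] at he
        exact absurd he Sum.inr_ne_inl
      · rw [h1, h1'] at he
        have h4 := Sum.inr.inj he
        subst h4
        rw [h2, h2']
    rw [Fintype.card_prod, Fintype.card_bool, Fintype.card_sum, Fintype.card_fin,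
      SimpleGraph.dart_card_eq_twice_card_edges] at hcard1
    have h2 : H.edgeSet.ncard = H.edgeFinset.card := by
      rw [Set.ncard_eq_toFinset_card']
      rfl
    rw [h2, Nat.card_eq_fintype_card]
    omega

end Pool.Agent.TFK
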