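import Pool.Agent.TFK.St


/-!
# The extremal examples (module TFK_SHARP)
-/

set_option autoImplicit false

namespace Pool.Agent.TFK

namespace Sharp

/-- the colours -/
abbrev B2 : Type := Bool × Bool

def ad (s c : B2) : B2 := (xor s.1 c.1, xor s.2 c.2)

/-- homomorphism with kernel `{0, c}` for `c ≠ 0` -/
def hh (c s : B2) : Bool := if c = (true, false) then s.2 else if c = (false, true) then s.1 else xor s.1 s.2

variable (k : ℕ)

def col (i : Fin (k + 4)) : B2 :=
  if i = Fin.last (k + 3) then (true, true) else if i.val % 2 = 0 then (true, false) else (false, true)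

theorem ad_ad (s c : B2) : ad (ad s c) c = s := by
  revert s c; decide

theorem ad_ne (s c : B2) (h : c ≠ (false, false)) : ad s c ≠ s := by
  revert s c; decide

theorem hh_ad (s c : B2) (h : c ≠ (false, false)) : hh c (ad s c) = hh c s := by
  revert s c; decide

theorem hh_surj (c : B2) (b : Bool) (h : c ≠ (false, false)) : ∃ s, hh c s = b := by
  revert c b; decide

theorem gen (c d : B2) (hc : c ≠ (false, false)) (hd : d ≠ (false, false)) (hcd : c ≠ d) (s t : B2) :
    s = t ∨ t = ad s c ∨ t = ad s d ∨ t = ad (ad s c) d := by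
  revert c d s t; decide

theorem col_ne (i : Fin (k + 4)) : col k i ≠ (false, false) := by
  unfold col
  split_ifs <;> decide

theorem col_succ (i : Fin (k + 4)) : col k (i + 1) ≠ col k i := by
  have h : (i + 1).val = if i = Fin.last (k + 3) then 0 else i.val + 1 := Fin.val_add_one i
  unfold col
  by_cases h1 : i = Fin.last (k + 3)
  · rw [if_pos h1] at h
    have h2 : i + 1 ≠ Fin.last (k + 3) := by
      intro e
      rw [e, Fin.val_last] at h
      omega
    rw [if_pos h1, if_neg h2]
    split_ifs <;> decide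
  · rw [if_neg h1] at h
    rw [if_neg h1]
    split_ifs <;> first | decide | (exfalso; omega)

/-- the vertices -/
abbrev Ve : Type := B2 ⊕ Fin (k + 4)

/-- the flags -/
abbrev Fl : Type := Fin (k + 4) × B2 × Bool × Bool

def a0 (x : Fl k) : Fl k := (x.1, x.2.1, x.2.2.1, !x.2.2.2)

def a2 (x : Fl k) : Fl k := (x.1, x.2.1, !x.2.2.1, x.2.2.2)

def a1 : Fl k → Fl k
  | (i, s, true, false) => (i + 1, s, false, false)
  | (i, s, false, false) => (i - 1, s, true, false)
  | (i, s, true, true) => (i, ad s (col k i), true, true)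
  | (i, s, false, true) => (i, ad s (col k (i - 1)), false, true)

def ww : Fl k → Ve k
  | (_, s, _, false) => Sum.inl s
  | (i, _, _, true) => Sum.inr i

def phi : Fl k → Fin (k + 4) × Bool
  | (i, s, true, _) => (i, hh (col k i) s)
  | (i, s, false, _) => (i - 1, hh (col k (i - 1)) s)

/-- the graph -/
def gr : SimpleGraph (Ve k) := completeBipartiteGraph B2 (Fin (k + 4))

theorem steps (g : Fin (k + 4) → Prop) (h : ∀ i, g i → g (i + 1)) (i j : Fin (k + 4)) (hi : g i) : g j := by
  have h1 : ∀ n : ℕ, g (i + n • (1 : Fin (k + 4))) := by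
    intro n
    induction n with
    | zero => simpa using hi
    | succ n ih =>
      have := h _ ih
      rw [add_assoc] at this
      rwa [succ_nsmul]
  have h3 : ∀ n : ℕ, ∀ hn : n < k + 4, ∃ m : ℕ, m • (1 : Fin (k + 4)) = ⟨n, hn⟩ := by
    intro n
    induction n with
    | zero => intro hn; exact ⟨0, by simp⟩
    | succ n ih =>
      intro hn
      obtain ⟨m, hm⟩ := ih (by omega)
      refine ⟨m + 1, ?_⟩
      rw [succ_nsmul, hm]
      apply Fin.ext
      have h4 : ((⟨n, by omega⟩ : Fin (k + 4)) + 1).val =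
        if (⟨n, by omega⟩ : Fin (k + 4)) = Fin.last (k + 3) then 0 else n + 1 := Fin.val_add_one _
      rw [h4, if_neg]
      intro e
      have := congrArg Fin.val e
      simp at this
      omega
  obtain ⟨m, hm⟩ := h3 (j - i).val (j - i).isLt
  have h2 := h1 m
  rw [hm] at h2
  simpa using h2

def mp : KR.GMap (gr k) (Fl k) where
  a0 := a0 k
  a1 := a1 k
  a2 := a2 k
  w := ww k
  i0 := by rintro ⟨i, s, σ, e⟩; simp [a0]
  i1 := by
    rintro ⟨i, s, σ, e⟩
    cases σ <;> cases e <;> simp [a1, ad_ad]
  i2 := by rintro ⟨i, s, σ, e⟩; simp [a2]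
  n1 := by
    rintro ⟨i, s, σ, e⟩
    cases σ <;> cases e <;> simp [a1, ad_ne, col_ne]
  n2 := by rintro ⟨i, s, σ, e⟩; simp [a2]
  c02 := by rintro ⟨i, s, σ, e⟩; simp [a0, a2]
  w1 := by
    rintro ⟨i, s, σ, e⟩
    cases σ <;> cases e <;> simp [a1, ww]
  w2 := by
    rintro ⟨i, s, σ, e⟩
    cases σ <;> cases e <;> simp [a2, ww]
  vtx := by
    rintro g h1 h2 ⟨i, s, σ, e⟩ ⟨j, t, τ, f⟩ hw hg
    have hs : ∀ i s σ τ e, g (i, s, σ, e) → g (i, s, τ, e) := by
      intro i s σ τ e h
      by_cases hst : σ = τ
      · rw [← hst]; exact h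
      · have h3 := (h2 (i, s, σ, e)).2 h
        have h4 : a2 k (i, s, σ, e) = (i, s, τ, e) := by
          simp only [a2]
          cases σ <;> cases τ <;> simp at hst ⊢
        rw [h4] at h3
        exact h3
    cases e <;> cases f
    · simp only [ww, Sum.inl.injEq] at hw
      subst hw
      apply hs j s true τ false
      refine steps k (fun i => g (i, s, true, false)) ?_ i j (hs _ _ _ _ _ hg)
      intro i hi
      exact hs _ _ _ _ _ ((h1 (i, s, true, false)).2 hi)
    · simp [ww] at hw
    · simp [ww] at hw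
    · simp only [ww, Sum.inr.injEq] at hw
      subst hw
      have hA : ∀ s, g (i, s, true, true) → g (i, ad s (col k i), true, true) := fun s h =>
        (h1 (i, s, true, true)).2 h
      have hB : ∀ s, g (i, s, true, true) → g (i, ad s (col k (i - 1)), true, true) := fun s h =>
        hs _ _ _ _ _ ((h1 (i, s, false, true)).2 (hs _ _ _ _ _ h))
      have hne : col k i ≠ col k (i - 1) := by
        have := col_succ k (i - 1)
        rwa [sub_add_cancel] at this
      have hg' := hs _ _ _ true _ hg
      apply hs i t true τ true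
      rcases gen (col k i) (col k (i - 1)) (col_ne k i) (col_ne k (i - 1)) hne s t with h | h | h | h
      · rw [← h]; exact hg'
      · rw [h]; exact hA _ hg'
      · rw [h]; exact hB _ hg'
      · rw [h]; exact hB _ (hA _ hg')
  adj := by
    rintro (s | i) (t | j)
    · simp only [gr, completeBipartiteGraph_adj]
      constructor
      · simp
      · rintro ⟨⟨i, s, σ, e⟩, h1, h2⟩
        cases e <;> simp [a0, ww] at h1 h2
    · simp only [gr, completeBipartiteGraph_adj]
      constructor
      · intro _
        exact ⟨(j, s, true, false), rfl, rfl⟩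
      · simp
    · simp only [gr, completeBipartiteGraph_adj]
      constructor
      · intro _
        exact ⟨(i, t, true, true), rfl, rfl⟩
      · simp
    · simp only [gr, completeBipartiteGraph_adj]
      constructor
      · simp
      · rintro ⟨⟨i, s, σ, e⟩, h1, h2⟩
        cases e <;> simp [a0, ww] at h1 h2
  uniq := by
    rintro ⟨i, s, σ, e⟩ ⟨j, t, τ, f⟩ h1 h2
    cases e <;> cases f <;> simp only [a0, ww, Bool.not_false, Bool.not_true, Sum.inl.injEq, Sum.inr.injEq, reduceCtorEq] at h1 h2
    · subst h1 h2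
      cases σ <;> cases τ <;> simp [a2]
    · subst h1 h2
      cases σ <;> cases τ <;> simp [a2]

theorem faces : 2 * (k + 4) ≤ Nat.card (mp k).Face := by
  classical
  let f : (mp k).Face → Fin (k + 4) × Bool := Quot.lift (phi k) (by
    rintro ⟨i, s, σ, e⟩ y h
    rcases h with h | h
    · rw [h]
      cases σ <;> cases e <;> simp [mp, a0, phi]
    · rw [h]
      cases σ <;> cases e <;> simp [mp, a1, phi, hh_ad, col_ne])
  have hf : Function.Surjective f := by
    rintro ⟨i, b⟩
    obtain ⟨s, hs⟩ := hh_surj (col k i) b (col_ne k i)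
    refine ⟨Quot.mk _ (i, s, true, true), ?_⟩
    show (i, hh (col k i) s) = (i, b)
    rw [hs]
  have : Finite (mp k).Face := by unfold KR.GMap.Face; infer_instance
  have := Nat.card_le_card_of_surjective f hf
  rw [Nat.card_eq_fintype_card, Fintype.card_prod, Fintype.card_fin, Fintype.card_bool] at this
  omega

theorem four : KR.FourConn (gr k) := by
  classical
  refine ⟨by simp; omega, ?_⟩
  intro S hS
  have h1 : ∃ s : B2, (Sum.inl s : Ve k) ∉ S := by
    by_contra h
    push Not at h
    have : (Finset.univ : Finset B2).image (Sum.inl : B2 → Ve k) ⊆ S := by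
      intro x hx
      obtain ⟨s, -, rfl⟩ := Finset.mem_image.1 hx
      exact h s
    have h2 := Finset.card_le_card this
    rw [Finset.card_image_of_injective _ Sum.inl_injective] at h2
    simp at h2
    omega
  have h2 : ∃ i : Fin (k + 4), (Sum.inr i : Ve k) ∉ S := by
    by_contra h
    push Not at h
    have : (Finset.univ : Finset (Fin (k + 4))).image (Sum.inr : Fin (k + 4) → Ve k) ⊆ S := by
      intro x hx
      obtain ⟨s, -, rfl⟩ := Finset.mem_image.1 hx
      exact h s
    have h2 := Finset.card_le_card this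
    rw [Finset.card_image_of_injective _ Sum.inr_injective] at h2
    simp at h2
    omega
  obtain ⟨s, hs⟩ := h1
  obtain ⟨i, hi⟩ := h2
  have hsi : ((gr k).induce ((S : Set (Ve k))ᶜ)).Adj ⟨Sum.inl s, by simpa using hs⟩ ⟨Sum.inr i, by simpa using hi⟩ := by
    simp [gr]
  rw [SimpleGraph.connected_iff_exists_forall_reachable]
  refine ⟨⟨Sum.inl s, by simpa using hs⟩, ?_⟩
  rintro ⟨t | j, h⟩
  · have : ((gr k).induce ((S : Set (Ve k))ᶜ)).Adj ⟨Sum.inr i, by simpa using hi⟩ ⟨Sum.inl t, h⟩ := by
      simp [gr]
    exact hsi.reachable.trans this.reachable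
  · have : ((gr k).induce ((S : Set (Ve k))ᶜ)).Adj ⟨Sum.inl s, by simpa using hs⟩ ⟨Sum.inr j, h⟩ := by
      simp [gr]
    exact this.reachable

theorem upper (H : SimpleGraph (Ve k)) (hH : H ≤ gr k) (hd : ∀ v, (H.neighborSet v).ncard ≤ 2) :
    H.edgeSet.ncard ≤ 8 := by
  classical
  have h1 : H.edgeSet ⊆ ⋃ s : B2, (fun v => s(Sum.inl s, v)) '' H.neighborSet (Sum.inl s) := by
    intro e he
    induction e using Sym2.ind with
    | _ x y =>
      rw [SimpleGraph.mem_edgeSet] at he
      have := hH he
      rcases x with s | i <;> rcases y with t | j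
      · simp [gr] at this
      · rw [Set.mem_iUnion]
        exact ⟨s, Sum.inr j, he, rfl⟩
      · rw [Set.mem_iUnion]
        exact ⟨t, Sum.inr i, he.symm, Sym2.eq_swap⟩
      · simp [gr] at this
  have h2 := Set.ncard_le_ncard h1 (Set.toFinite _)
  have h3 : (⋃ s : B2, (fun v => s(Sum.inl s, v)) '' H.neighborSet (Sum.inl s)).ncard ≤
      ∑ s : B2, ((fun v => s(Sum.inl s, v)) '' H.neighborSet (Sum.inl s)).ncard := by
    exact Set.ncard_iUnion_le_of_fintype _
  have h4 : ∑ s : B2, ((fun v => s((Sum.inl s : Ve k), v)) '' H.neighborSet (Sum.inl s)).ncard ≤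
      ∑ s : B2, 2 := Finset.sum_le_sum fun s _ => (Set.ncard_image_le (Set.toFinite _)).trans (hd _)
  have h5 : ∑ s : B2, 2 = 8 := by simp
  exact h2.trans (h3.trans (h4.trans_eq h5))

end Sharp

theorem SHARP_thm : Stmt_SHARP := by
  intro k
  refine ⟨Sharp.Ve k, Sharp.Fl k, inferInstance, inferInstance, Sharp.gr k, Sharp.mp k, ?_, Sharp.four k, ?_⟩
  · have h := Sharp.faces k
    have h1 : Nat.card (Sharp.Fl k) = 16 * (k + 4) := by
      rw [Nat.card_eq_fintype_card]
      simp [Fintype.card_prod]
      ring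
    have h2 : Nat.card (Sharp.Ve k) = k + 8 := by
      rw [Nat.card_eq_fintype_card]
      simp
      ring
    omega
  · intro H hH hd
    have h := Sharp.upper k H hH hd
    have h2 : Nat.card (Sharp.Ve k) = k + 8 := by
      rw [Nat.card_eq_fintype_card]
      simp
      ring
    omega

end Pool.Agent.TFK
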