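import Pool.Agent.TFK.HALL

/-!
# STA: structure of a violator, part 1 (project TFK)
-/

set_option autoImplicit false

namespace Pool.Agent.TFK.STA

open Function Finset
open Pool.Agent.TFK.HALL (sub_of_closed OC_eq)

section gen

variable {V : Type} [Finite V] {Γ : SimpleGraph V} {U : Set V}

/-- the members containing `x` -/
def KK (Γ : SimpleGraph V) (U : Set V) (x : V) : Set (Set V) := {K | IsOC Γ U K ∧ x ∈ K}

omit [Finite V] in
theorem KK_sub (x : V) : (KK Γ U x).Subsingleton := fun _ h _ h' => OC_eq h.1 h'.1 h.2 h'.2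

theorem KK_le (x : V) : (KK Γ U x).ncard ≤ 1 :=
  (Set.ncard_le_one (Set.toFinite _)).2 fun _ h _ h' => OC_eq h.1 h'.1 h.2 h'.2

theorem le_two {N : Set (Set V)} {a b : V} (h : N ⊆ KK Γ U a ∪ KK Γ U b) : N.ncard ≤ 2 := by
  have h1 := Set.ncard_le_ncard h (Set.toFinite _)
  have h2 := Set.ncard_union_le (KK Γ U a) (KK Γ U b)
  have h3 := KK_le (Γ := Γ) (U := U) a
  have h4 := KK_le (Γ := Γ) (U := U) b
  omega

/-- three neighbours in three different members -/
theorem three {X : Set V} (h : 3 ≤ (Nb Γ U X).ncard) (a b c : V)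
    (hX : ∀ x ∈ X, ∀ y, Γ.Adj x y → y = a ∨ y = b ∨ y = c) :
    ∃ Ka Kb Kc : Set V, IsOC Γ U Ka ∧ IsOC Γ U Kb ∧ IsOC Γ U Kc ∧ a ∈ Ka ∧ b ∈ Kb ∧ c ∈ Kc ∧
      Ka ≠ Kb ∧ Ka ≠ Kc ∧ Kb ≠ Kc := by
  have hN : ∀ K ∈ Nb Γ U X, IsOC Γ U K ∧ (a ∈ K ∨ b ∈ K ∨ c ∈ K) := by
    rintro K ⟨hK, x, hx, y, hy, hxy⟩
    refine ⟨hK, ?_⟩
    rcases hX x hx y hxy with h | h | h
    · exact Or.inl (h ▸ hy)
    · exact Or.inr (Or.inl (h ▸ hy))
    · exact Or.inr (Or.inr (h ▸ hy))
  have ha : ∃ K, IsOC Γ U K ∧ a ∈ K := by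
    by_contra hne
    push Not at hne
    have := le_two (N := Nb Γ U X) (a := b) (b := c) (Γ := Γ) (U := U) (by
      intro K hK
      obtain ⟨h1, h2 | h2 | h2⟩ := hN K hK
      · exact absurd h2 (hne K h1)
      · exact Or.inl ⟨h1, h2⟩
      · exact Or.inr ⟨h1, h2⟩)
    omega
  have hb : ∃ K, IsOC Γ U K ∧ b ∈ K := by
    by_contra hne
    push Not at hne
    have := le_two (N := Nb Γ U X) (a := a) (b := c) (Γ := Γ) (U := U) (by
      intro K hK
      obtain ⟨h1, h2 | h2 | h2⟩ := hN K hK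
      · exact Or.inl ⟨h1, h2⟩
      · exact absurd h2 (hne K h1)
      · exact Or.inr ⟨h1, h2⟩)
    omega
  have hc : ∃ K, IsOC Γ U K ∧ c ∈ K := by
    by_contra hne
    push Not at hne
    have := le_two (N := Nb Γ U X) (a := a) (b := b) (Γ := Γ) (U := U) (by
      intro K hK
      obtain ⟨h1, h2 | h2 | h2⟩ := hN K hK
      · exact Or.inl ⟨h1, h2⟩
      · exact Or.inr ⟨h1, h2⟩
      · exact absurd h2 (hne K h1))
    omega
  obtain ⟨Ka, hKa, haKa⟩ := ha
  obtain ⟨Kb, hKb, hbKb⟩ := hb
  obtain ⟨Kc, hKc, hcKc⟩ := hc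
  refine ⟨Ka, Kb, Kc, hKa, hKb, hKc, haKa, hbKb, hcKc, ?_, ?_, ?_⟩
  · intro he
    have := le_two (N := Nb Γ U X) (a := a) (b := c) (Γ := Γ) (U := U) (by
      intro K hK
      obtain ⟨h1, h2 | h2 | h2⟩ := hN K hK
      · exact Or.inl ⟨h1, h2⟩
      · left
        refine ⟨h1, ?_⟩
        rw [OC_eq h1 hKb h2 hbKb, ← he]
        exact haKa
      · exact Or.inr ⟨h1, h2⟩)
    omega
  · intro he
    have := le_two (N := Nb Γ U X) (a := a) (b := b) (Γ := Γ) (U := U) (by
      intro K hK
      obtain ⟨h1, h2 | h2 | h2⟩ := hN K hK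
      · exact Or.inl ⟨h1, h2⟩
      · exact Or.inr ⟨h1, h2⟩
      · left
        refine ⟨h1, ?_⟩
        rw [OC_eq h1 hKc h2 hcKc, ← he]
        exact haKa)
    omega
  · intro he
    have := le_two (N := Nb Γ U X) (a := a) (b := b) (Γ := Γ) (U := U) (by
      intro K hK
      obtain ⟨h1, h2 | h2 | h2⟩ := hN K hK
      · exact Or.inl ⟨h1, h2⟩
      · exact Or.inr ⟨h1, h2⟩
      · right
        refine ⟨h1, ?_⟩
        rw [OC_eq h1 hKc h2 hcKc, ← he]
        exact hbKb)
    omega

omit [Finite V] in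
theorem q {K : Set V} (hK : IsOC Γ U K) {x y : V} (hx : x ∈ K) (h : Γ.Adj x y) (hy : y ∉ U) :
    y ∈ K := (hK.closed x hx y h).resolve_right hy

omit [Finite V] in
theorem single_OC {x : V} (hx : x ∉ U) (h : ∀ y, Γ.Adj x y → y ∈ U) : IsOC Γ U {x} := by
  refine ⟨?_, ?_, ?_, ?_⟩
  · rw [Set.disjoint_singleton_left]; exact hx
  · rw [SimpleGraph.connected_iff]
    refine ⟨?_, ⟨⟨x, rfl⟩⟩⟩
    rintro ⟨a, ha⟩ ⟨b, hb⟩
    have h1 : a = x := ha
    have h2 : b = x := hb
    subst h1
    subst h2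
    exact SimpleGraph.Reachable.refl _
  · rintro a ha y hy
    have h1 : a = x := ha
    subst h1
    exact Or.inr (h y hy)
  · rw [Set.ncard_singleton]
    exact odd_one

end gen

section

variable {W : Type} [Fintype W] {G : SimpleGraph W} {k : ℕ} {U : Set (GV G k)}

open Classical in
theorem main (hV : Viol (gadget G k) U) :
    (∀ j, ex G k j ∈ U) ∧
    (∀ v, cp G k v true ∈ U ↔ cp G k v false ∈ U) ∧
    (∀ d : G.Dart, d.fst ∈ TT U → dt G k d ∈ U) ∧
    (∀ d : G.Dart, dt G k d ∈ U → dt G k d.symm ∉ U) ∧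
    (∀ v ∈ TT U, ∀ i, cp G k v i ∉ U) ∧
    (∀ v ∈ TT U, ∀ i, IsOC (gadget G k) U {cp G k v i}) ∧
    (∀ d : G.Dart, dt G k d ∈ U → ∃ K, IsOC (gadget G k) U K ∧ dt G k d.symm ∈ K) ∧
    (∀ d e : G.Dart, dt G k d ∈ U → dt G k e ∈ U → d.fst = e.fst →
      ∀ K, IsOC (gadget G k) U K → dt G k d.symm ∈ K → dt G k e.symm ∈ K → d = e) := by
  have hfinD : Finite G.Dart := Finite.of_injective (fun d : G.Dart => d.toProd) (fun a b h =>
    SimpleGraph.Dart.ext _ _ h)
  have hfin : Finite (GV G k) := inferInstance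
  -- (a)
  have A : ∀ d : G.Dart, dt G k d ∈ U → ∃ Ka Kb Kc : Set (GV G k), IsOC (gadget G k) U Ka ∧
      IsOC (gadget G k) U Kb ∧ IsOC (gadget G k) U Kc ∧ cp G k d.fst false ∈ Ka ∧
      cp G k d.fst true ∈ Kb ∧ dt G k d.symm ∈ Kc ∧ Ka ≠ Kb ∧ Ka ≠ Kc ∧ Kb ≠ Kc := by
    intro d hd
    have h1 := hV.hall {dt G k d} (Set.singleton_subset_iff.2 hd) ⟨_, rfl⟩
    rw [Set.ncard_singleton] at h1
    refine three h1 _ _ _ ?_
    rintro x hx y hxy
    have hx' : x = dt G k d := hx
    subst hx'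
    rcases y with ⟨v, i⟩ | e | j
    · have h2 : d.fst = v := hxy
      subst h2
      cases i
      · exact Or.inl rfl
      · exact Or.inr (Or.inl rfl)
    · have h2 : e = d.symm := hxy
      subst h2
      exact Or.inr (Or.inr rfl)
    · exact absurd hxy (by simp [gadget, gAdj])
  -- (b)
  have B : ∀ d e : G.Dart, dt G k d ∈ U → e.fst = d.fst → dt G k e ∈ U := by
    intro d e hd he
    by_contra hne
    obtain ⟨Ka, Kb, Kc, hKa, hKb, hKc, ha, hb, hc, hab, _, _⟩ := A d hd
    apply hab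
    have h1 : dt G k e ∈ Ka := q hKa ha (by exact he) hne
    have h2 : dt G k e ∈ Kb := q hKb hb (by exact he) hne
    exact OC_eq hKa hKb h1 h2
  have c3 : ∀ d : G.Dart, d.fst ∈ TT U → dt G k d ∈ U := by
    rintro d ⟨d0, h0, h1⟩
    exact B d0 d h1 h0.symm
  have c4 : ∀ d : G.Dart, dt G k d ∈ U → dt G k d.symm ∉ U := by
    intro d hd
    obtain ⟨Ka, Kb, Kc, hKa, hKb, hKc, ha, hb, hc, hab, _, _⟩ := A d hd
    exact Set.disjoint_left.1 hKc.dis hc
  have c5 : ∀ v ∈ TT U, ∀ i, cp G k v i ∉ U := by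
    rintro v ⟨d, rfl, hd⟩ i
    obtain ⟨Ka, Kb, Kc, hKa, hKb, hKc, ha, hb, hc, hab, _, _⟩ := A d hd
    cases i
    · exact Set.disjoint_left.1 hKa.dis ha
    · exact Set.disjoint_left.1 hKb.dis hb
  have c7 : ∀ d : G.Dart, dt G k d ∈ U → ∃ K, IsOC (gadget G k) U K ∧ dt G k d.symm ∈ K := by
    intro d hd
    obtain ⟨Ka, Kb, Kc, hKa, hKb, hKc, ha, hb, hc, hab, _, _⟩ := A d hd
    exact ⟨Kc, hKc, hc⟩
  -- c1
  have c1 : ∀ j, ex G k j ∈ U := by
    intro j
    by_contra hj
    by_cases hex : ∃ d : G.Dart, dt G k d ∈ U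
    · obtain ⟨d, hd⟩ := hex
      obtain ⟨Ka, Kb, Kc, hKa, hKb, hKc, ha, hb, hc, hab, _, _⟩ := A d hd
      apply hab
      exact OC_eq hKa hKb (q hKa ha (by simp) hj) (q hKb hb (by simp) hj)
    · push Not at hex
      have hz : ∀ K, IsOC (gadget G k) U K → ex G k j ∈ K := by
        intro K hK
        by_contra hjK
        have nocp : ∀ v i, cp G k v i ∉ K := by
          intro v i h
          exact hjK (q hK h (by simp) hj)
        have noex : ∀ l, ex G k l ∉ K := by
          intro l h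
          by_cases hl : l = j
          · subst hl; exact hjK h
          · exact hjK (q hK h (by simpa using hl) hj)
        obtain ⟨⟨x, hx⟩⟩ := hK.conn.nonempty
        rcases x with ⟨v, i⟩ | d | l
        · exact nocp v i hx
        · have hsym : dt G k d.symm ∈ K := q hK hx (by simp) (hex _)
          have hcpU : ∀ e : G.Dart, dt G k e ∈ K → ∀ i, cp G k e.fst i ∈ U := by
            intro e he i
            exact (hK.closed _ he (cp G k e.fst i) (by simp)).resolve_left (nocp _ _)
          have hsub : K ⊆ {dt G k d, dt G k d.symm} := by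
            refine sub_of_closed hK.conn.preconnected hK.dis ?_ hx (Or.inl rfl)
            rintro a ha y hay
            have haK : a ∈ K := by
              rcases ha with ha | ha
              · rw [ha]; exact hx
              · rw [Set.mem_singleton_iff] at ha
                rw [ha]; exact hsym
            by_cases hyU : y ∈ U
            · exact Or.inr hyU
            · have hyK := q hK haK hay hyU
              left
              rcases y with ⟨v, i⟩ | e | l
              · exact absurd hyK (nocp v i)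
              · rcases ha with ha | ha
                · rw [ha] at hay
                  have : e = d.symm := hay
                  rw [this]
                  exact Or.inr rfl
                · rw [Set.mem_singleton_iff] at ha
                  rw [ha] at hay
                  have : e = d.symm.symm := hay
                  rw [this, SimpleGraph.Dart.symm_symm]
                  exact Or.inl rfl
              · exact absurd hyK (noex l)
          have heq : K = {dt G k d, dt G k d.symm} := by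
            refine Set.Subset.antisymm hsub ?_
            rintro y (hy | hy)
            · rw [hy]; exact hx
            · rw [Set.mem_singleton_iff] at hy
              rw [hy]; exact hsym
          have hodd := hK.odd
          rw [heq, Set.ncard_pair] at hodd
          · exact absurd hodd (by decide)
          · intro h
            have h1 : d = d.symm := Sum.inl.inj (Sum.inr.inj h)
            exact d.symm_ne h1.symm
        · exact noex l hx
      have hsub : {K | IsOC (gadget G k) U K} ⊆ KK (gadget G k) U (ex G k j) :=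
        fun K hK => ⟨hK, hz K hK⟩
      have h1 := Set.ncard_le_ncard hsub (Set.toFinite _)
      have h2 := KK_le (Γ := gadget G k) (U := U) (ex G k j)
      have h3 := hV.big
      omega
  -- c2
  have C2 : ∀ v i, cp G k v i ∈ U → cp G k v (!i) ∈ U := by
    intro v i hi
    by_contra hne
    have h1 := hV.hall {cp G k v i} (Set.singleton_subset_iff.2 hi) ⟨_, rfl⟩
    rw [Set.ncard_singleton] at h1
    have hsub : Nb (gadget G k) U {cp G k v i} ⊆ KK (gadget G k) U (cp G k v (!i)) := by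
      rintro K ⟨hK, x, hx, y, hy, hxy⟩
      refine ⟨hK, ?_⟩
      have hx' : x = cp G k v i := hx
      subst hx'
      rcases y with ⟨u, l⟩ | d | j
      · exact absurd hxy (by simp [gadget, gAdj])
      · have h2 : d.fst = v := hxy
        exact q hK hy (by exact h2) hne
      · exact absurd (c1 j) (Set.disjoint_left.1 hK.dis hy)
    have h2 := Set.ncard_le_ncard hsub (Set.toFinite _)
    have h3 := KK_le (Γ := gadget G k) (U := U) (cp G k v (!i))
    omega
  have c2 : ∀ v, cp G k v true ∈ U ↔ cp G k v false ∈ U :=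
    fun v => ⟨fun h => C2 v true h, fun h => C2 v false h⟩
  have c6 : ∀ v ∈ TT U, ∀ i, IsOC (gadget G k) U {cp G k v i} := by
    intro v hv i
    refine single_OC (c5 v hv i) ?_
    intro y hy
    rcases y with ⟨u, l⟩ | d | j
    · exact absurd hy (by simp [gadget, gAdj])
    · have h2 : d.fst = v := hy
      exact c3 d (h2 ▸ hv)
    · exact c1 j
  refine ⟨c1, c2, c3, c4, c5, c6, c7, ?_⟩
  -- c8
  intro d e hd he hde K hK hdK heK
  by_contra hne
  choose! κ hκ1 hκ2 using c7
  let F : Set G.Dart := {f | f.fst = d.fst}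
  have hvT : d.fst ∈ TT U := ⟨d, rfl, hd⟩
  have hFU : ∀ f ∈ F, dt G k f ∈ U := fun f hf => c3 f (by
    have : f.fst = d.fst := hf
    rw [this]; exact hvT)
  let X : Set (GV G k) := (fun f : G.Dart => dt G k f) '' F
  have hXc : X.ncard = F.ncard := Set.ncard_image_of_injective _ (fun a b h =>
    Sum.inl.inj (Sum.inr.inj h))
  have h1 := hV.hall X (by rintro _ ⟨f, hf, rfl⟩; exact hFU f hf) ⟨_, d, rfl, rfl⟩
  have hsub : Nb (gadget G k) U X ⊆ (KK (gadget G k) U (cp G k d.fst false) ∪
      KK (gadget G k) U (cp G k d.fst true)) ∪ κ '' (F \ {e}) := by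
    rintro L ⟨hL, x, ⟨f, hf, rfl⟩, y, hy, hxy⟩
    rcases y with ⟨u, l⟩ | g | j
    · have h2 : f.fst = u := hxy
      have h3 : f.fst = d.fst := hf
      rw [← h2, h3] at hy
      left
      cases l
      · exact Or.inl ⟨hL, hy⟩
      · exact Or.inr ⟨hL, hy⟩
    · have h2 : g = f.symm := hxy
      rw [h2] at hy
      right
      have hLf : κ f = L := OC_eq (hκ1 f (hFU f hf)) hL (hκ2 f (hFU f hf)) hy
      by_cases hfe : f = e
      · refine ⟨d, ⟨rfl, fun h => hne h⟩, ?_⟩
        rw [← hLf, hfe]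
        have e1 : κ d = K := OC_eq (hκ1 d hd) hK (hκ2 d hd) hdK
        have e2 : κ e = K := OC_eq (hκ1 e he) hK (hκ2 e he) heK
        rw [e1, e2]
      · exact ⟨f, ⟨hf, hfe⟩, hLf⟩
    · exact absurd hxy (by simp [gadget, gAdj])
  have h2 := Set.ncard_le_ncard hsub (Set.toFinite _)
  have h3 := Set.ncard_union_le (KK (gadget G k) U (cp G k d.fst false) ∪
      KK (gadget G k) U (cp G k d.fst true)) (κ '' (F \ {e}))
  have h4 := Set.ncard_union_le (KK (gadget G k) U (cp G k d.fst false))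
      (KK (gadget G k) U (cp G k d.fst true))
  have h5 := KK_le (Γ := gadget G k) (U := U) (cp G k d.fst false)
  have h6 := KK_le (Γ := gadget G k) (U := U) (cp G k d.fst true)
  have h7 := Set.ncard_image_le (f := κ) (Set.toFinite (F \ {e}))
  have h8 : (F \ {e}).ncard + 1 = F.ncard :=
    Set.ncard_sdiff_singleton_add_one (show e ∈ F from hde.symm) (Set.toFinite _)
  omega

end

end Pool.Agent.TFK.STA

namespace Pool.Agent.TFK

theorem STA_thm : Stmt_STA := by
  intro W _ G k U hV
  exact STA.main hV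

end Pool.Agent.TFK
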