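import Pool.Agent.TFK.St

/-!
# LA: the number of regions (project TFK)
-/

set_option autoImplicit false

namespace Pool.Agent.TFK.LA

open Function Finset

theorem even_card_inv {α : Type} [DecidableEq α] (s : Finset α) (f : α → α)
    (hs : ∀ x ∈ s, f x ∈ s) (hn : ∀ x ∈ s, f x ≠ x) (hi : ∀ x ∈ s, f (f x) = x) :
    Even s.card := by
  have h := Finset.sum_involution (s := s) (f := fun _ => (1 : ZMod 2)) (fun x _ => f x)
    (fun a _ => by decide) (fun a ha _ => hn a ha) (fun a ha => hs a ha) (fun a ha => hi a ha)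
  rw [Finset.sum_const, nsmul_eq_mul, mul_one] at h
  exact (ZMod.natCast_eq_zero_iff_even).1 h

section

variable {W Ω : Type} {G : SimpleGraph W} (M : KR.GMap G Ω)

theorem wne (x : Ω) : M.w (M.a0 x) ≠ M.w x :=
  ((M.adj _ _).2 ⟨x, rfl, rfl⟩ : G.Adj (M.w x) (M.w (M.a0 x))).ne'

theorem n0 (x : Ω) : M.a0 x ≠ x := fun h => wne M x (by rw [h])

theorem w02 (x : Ω) : M.w (M.a0 (M.a2 x)) = M.w (M.a0 x) := by rw [M.c02, M.w2]

theorem n02 (x : Ω) : M.a0 (M.a2 x) ≠ x := fun h => wne M x (by rw [← w02, h])

variable [DecidableEq Ω]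

/-- the four flags of an edge -/
def ed (x : Ω) : Finset Ω := {x, M.a0 x, M.a2 x, M.a0 (M.a2 x)}

theorem mem_ed {x y : Ω} :
    y ∈ ed M x ↔ y = x ∨ y = M.a0 x ∨ y = M.a2 x ∨ y = M.a0 (M.a2 x) := by
  simp [ed]

theorem ed_card (x : Ω) : (ed M x).card = 4 := by
  have h1 : x ≠ M.a0 x := (n0 M x).symm
  have h2 : x ≠ M.a2 x := (M.n2 x).symm
  have h3 : x ≠ M.a0 (M.a2 x) := (n02 M x).symm
  have h4 : M.a0 x ≠ M.a2 x := fun h => wne M x (by rw [h, M.w2])
  have h5 : M.a0 x ≠ M.a0 (M.a2 x) := fun h => M.n2 x (by
    have := congrArg M.a0 h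
    rw [M.i0, M.i0] at this
    exact this.symm)
  have h6 : M.a2 x ≠ M.a0 (M.a2 x) := (n0 M _).symm
  rw [ed, card_insert_of_notMem (by simp [h1, h2, h3]), card_insert_of_notMem (by simp [h4, h5]),
    card_insert_of_notMem (by simp [h6]), card_singleton]

theorem ed_refl (x : Ω) : x ∈ ed M x := (mem_ed M).2 (Or.inl rfl)

theorem ed_symm {x y : Ω} (h : y ∈ ed M x) : x ∈ ed M y := by
  rcases (mem_ed M).1 h with h | h | h | h
  · subst h; exact ed_refl M _
  · subst h; exact (mem_ed M).2 (Or.inr (Or.inl (M.i0 _).symm))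
  · subst h; exact (mem_ed M).2 (Or.inr (Or.inr (Or.inl (M.i2 _).symm)))
  · subst h
    refine (mem_ed M).2 (Or.inr (Or.inr (Or.inr ?_)))
    rw [← M.c02, M.i2, M.i0]

theorem ed_trans {x y z : Ω} (h : y ∈ ed M x) (h' : z ∈ ed M y) : z ∈ ed M x := by
  rw [mem_ed] at h h' ⊢
  rcases h with h | h | h | h <;> subst h <;> rcases h' with h' | h' | h' | h' <;> subst h' <;>
    simp only [M.i0, M.i2, M.c02, true_or, or_true]

/-- flags of the same edge -/
def est : Setoid Ω where
  r x y := y ∈ ed M x
  iseqv := ⟨ed_refl M, fun h => ed_symm M h, fun h h' => ed_trans M h h'⟩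

theorem ed_mem {K : Set Ω} (hK : IsE M K) {x y : Ω} (h : y ∈ ed M x) : y ∈ K ↔ x ∈ K := by
  rcases (mem_ed M).1 h with h | h | h | h
  · rw [h]
  · rw [h, hK.1]
  · rw [h, hK.2]
  · rw [h, hK.1, hK.2]

theorem face0 (x : Ω) : (Quot.mk M.Fr (M.a0 x)) = Quot.mk M.Fr x := by
  refine (Quot.sound ?_).symm
  exact Or.inl rfl

theorem face1 (x : Ω) : (Quot.mk M.Fr (M.a1 x)) = Quot.mk M.Fr x := by
  refine (Quot.sound ?_).symm
  exact Or.inr rfl

/-- `g` takes equal values on the two sides of an edge, independent of the flag -/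
theorem ed_g {g : M.Face → ZMod 2} {x y : Ω} (h : y ∈ ed M x)
    (hx : g (Quot.mk _ x) = g (Quot.mk _ (M.a2 x))) :
    g (Quot.mk _ y) = g (Quot.mk _ (M.a2 y)) := by
  rcases (mem_ed M).1 h with h | h | h | h
  · subst h; exact hx
  · subst h; rw [← M.c02, face0, face0]; exact hx
  · subst h; rw [M.i2]; exact hx.symm
  · subst h; rw [← M.c02, M.i2, face0, face0]; exact hx.symm

end

section count

variable {W Ω : Type} [Fintype Ω] [DecidableEq Ω] {G : SimpleGraph W} (M : KR.GMap G Ω)

open Classical in
/-- dimension count: `g` constant across all edges outside `L` forces constancy on the classes -/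
theorem rank_count (K L : Set Ω) (hL : IsE M L)
    (h1 : ∀ g : M.Face → ZMod 2, (∀ x, x ∉ L → g (Quot.mk _ x) = g (Quot.mk _ (M.a2 x))) →
      ∀ x, x ∉ K → g (Quot.mk _ x) = g (Quot.mk _ (M.a2 x))) :
    4 * Nat.card M.Face + L.ncard ≤ 4 * Nat.card (Quot (JK M K)) + Nat.card Ω := by
  classical
  have hfin : Finite M.Face := by unfold KR.GMap.Face; infer_instance
  have hF : Fintype M.Face := Fintype.ofFinite _
  have hQ : Fintype (Quot (JK M K)) := Fintype.ofFinite _
  let s := est M
  let D : Finset (Quotient s) := univ.filter (fun q => Quotient.out q ∉ L)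
  -- size of D
  have hout : ∀ q : Quotient s, ∀ x : Ω, (Quotient.mk s x = q) ↔ x ∈ ed M (Quotient.out q) := by
    intro q x
    constructor
    · intro h
      subst h
      exact Quotient.mk_out (s := s) x
    · intro h
      have : Quotient.mk s (Quotient.out q) = Quotient.mk s x := Quotient.sound h
      rw [← this, Quotient.out_eq]
  have hD : 4 * D.card + L.ncard = Nat.card Ω := by
    have e1 : (univ.filter (fun x : Ω => x ∉ L)).card = 4 * D.card := by
      rw [Finset.card_eq_sum_card_fiberwise (f := fun x => Quotient.mk s x) (t := D)]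
      · rw [Finset.sum_congr rfl (g := fun _ => 4), Finset.sum_const, smul_eq_mul, mul_comm]
        intro q hq
        rw [← ed_card M (Quotient.out q)]
        congr 1
        ext x
        simp only [mem_filter, mem_univ, true_and]
        rw [hout]
        constructor
        · exact fun h => h.2
        · intro h
          exact ⟨fun hx => (mem_filter.1 hq).2 ((ed_mem M hL h).1 hx), h⟩
      · intro x hx
        simp only [coe_filter, mem_univ, true_and] at hx
        simp only [D, coe_filter, mem_univ, true_and]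
        have h2 := (hout (Quotient.mk s x) x).1 rfl
        exact fun h => hx ((ed_mem M hL h2).2 h)
    have e2 : L.ncard = (univ.filter (fun x : Ω => x ∈ L)).card := by
      rw [Set.ncard_eq_toFinset_card' L]
      congr 1
      ext x
      simp
    rw [← e1, e2, add_comm, Finset.card_filter_add_card_filter_not, Nat.card_eq_fintype_card]
    rfl
  -- linear map
  let Lm : (M.Face → ZMod 2) →ₗ[ZMod 2] (D → ZMod 2) :=
    { toFun := fun g q => g (Quot.mk _ (Quotient.out q.1)) - g (Quot.mk _ (M.a2 (Quotient.out q.1)))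
      map_add' := by intro a b; ext q; simp only [Pi.add_apply]; ring
      map_smul' := by intro c a; ext q; simp only [Pi.smul_apply, smul_eq_mul, RingHom.id_apply]; ring }
  let Φ : (Quot (JK M K) → ZMod 2) →ₗ[ZMod 2] (M.Face → ZMod 2) :=
    { toFun := fun h a => h (Quot.mk _ a)
      map_add' := by intro a b; rfl
      map_smul' := by intro c a; rfl }
  have hker : LinearMap.ker Lm ≤ LinearMap.range Φ := by
    intro g hg
    rw [LinearMap.mem_ker] at hg
    have h2 : ∀ x, x ∉ L → g (Quot.mk _ x) = g (Quot.mk _ (M.a2 x)) := by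
      intro x hx
      have h3 := (hout (Quotient.mk s x) x).1 rfl
      have h4 : Quotient.mk s x ∈ D :=
        mem_filter.2 ⟨mem_univ _, fun h => hx ((ed_mem M hL h3).2 h)⟩
      have h5 := congrFun hg ⟨_, h4⟩
      have h6 : g (Quot.mk _ (Quotient.out (Quotient.mk s x))) -
        g (Quot.mk _ (M.a2 (Quotient.out (Quotient.mk s x)))) = 0 := h5
      exact ed_g M h3 (sub_eq_zero.1 h6)
    have h3 := h1 g h2
    refine ⟨fun q => Quot.lift g ?_ q, ?_⟩
    · rintro a b ⟨x, hx, rfl, rfl⟩
      exact h3 x hx
    · rfl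
  have hr1 := LinearMap.finrank_range_add_finrank_ker Lm
  have hr2 : Module.finrank (ZMod 2) (LinearMap.range Lm) ≤ D.card := by
    refine (Submodule.finrank_le _).trans ?_
    rw [Module.finrank_fintype_fun_eq_card, Fintype.card_coe]
  have hr3 : Module.finrank (ZMod 2) (LinearMap.ker Lm) ≤ Fintype.card (Quot (JK M K)) := by
    refine (Submodule.finrank_mono hker).trans ?_
    refine (LinearMap.finrank_range_le Φ).trans ?_
    rw [Module.finrank_fintype_fun_eq_card]
  rw [Module.finrank_fintype_fun_eq_card] at hr1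
  rw [Nat.card_eq_fintype_card, Nat.card_eq_fintype_card (α := Quot (JK M K))]
  omega

end count

section parent

variable {W : Type} {G : SimpleGraph W}

theorem exists_nearer (hG : G.Connected) (y : W) (v : W) (h : v ≠ y) :
    ∃ u, G.Adj v u ∧ G.dist u y < G.dist v y := by
  obtain ⟨p, hp⟩ := hG.exists_walk_length_eq_dist v y
  cases p with
  | nil => exact absurd rfl h
  | cons h' q =>
    refine ⟨_, h', ?_⟩
    have := SimpleGraph.dist_le q
    rw [SimpleGraph.Walk.length_cons] at hp
    omega

end parent

theorem main {W Ω : Type} [Fintype W] [Fintype Ω] [DecidableEq Ω] (G : SimpleGraph W)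
    (M : KR.GMap G Ω) (hG : G.Connected) (K : Set Ω) (Y : Set W) (hK : IsE M K)
    (hY : Y.Nonempty) (hKY : ∀ x ∈ K, M.w x ∈ Y) :
    K.ncard + 4 * Nat.card W + 4 * Nat.card M.Face ≤
      4 * Y.ncard + 4 * Nat.card (Quot (JK M K)) + Nat.card Ω := by
  classical
  obtain ⟨y0, hy0⟩ := hY
  have hZc0 : Y.ncard + (univ.filter (fun v : W => v ∉ Y)).card = Nat.card W := by
    have h1 : Y.ncard = (univ.filter (fun v : W => v ∈ Y)).card := by
      rw [Set.ncard_eq_toFinset_card' Y]
      congr 1
      ext x
      simp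
    rw [h1, Finset.card_filter_add_card_filter_not, Nat.card_eq_fintype_card]
    rfl
  have hp : ∀ v : W, v ∉ Y → ∃ x : Ω, M.w x = v ∧ G.dist (M.w (M.a0 x)) y0 < G.dist v y0 := by
    intro v hv
    obtain ⟨u, hu, hd⟩ := exists_nearer hG y0 v (fun h => hv (h ▸ hy0))
    obtain ⟨x, hx, hx'⟩ := (M.adj v u).1 hu
    exact ⟨x, hx, by rw [hx']; exact hd⟩
  rcases isEmpty_or_nonempty Ω with hΩ | hΩ
  · have h1 : (univ.filter (fun v : W => v ∉ Y)).card = 0 := by
      rw [Finset.card_eq_zero, Finset.filter_eq_empty_iff]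
      intro v _ hv
      obtain ⟨x, _⟩ := hp v hv
      exact hΩ.elim x
    have h2 : K.ncard = 0 := by
      rw [Set.eq_empty_of_isEmpty K, Set.ncard_empty]
    have h3 : Nat.card M.Face = 0 := by
      have : IsEmpty M.Face := ⟨fun a => by
        obtain ⟨x, _⟩ := Quot.exists_rep a
        exact hΩ.elim x⟩
      exact Nat.card_of_isEmpty
    omega
  choose! p hpw hpd using hp
  let Z : Finset W := univ.filter (fun v => v ∉ Y)
  have hZ : ∀ {v}, v ∈ Z ↔ v ∉ Y := by intro v; simp [Z]
  let P : Finset Ω := Z.biUnion (fun v => ed M (p v))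
  have hPE : IsE M (P : Set Ω) := by
    constructor
    · intro x
      simp only [P, coe_biUnion, Set.mem_iUnion, mem_coe]
      constructor
      · rintro ⟨v, hv, h⟩
        exact ⟨v, hv, ed_trans M h (ed_symm M ((mem_ed M).2 (Or.inr (Or.inl rfl))))⟩
      · rintro ⟨v, hv, h⟩
        exact ⟨v, hv, ed_trans M h ((mem_ed M).2 (Or.inr (Or.inl rfl)))⟩
    · intro x
      simp only [P, coe_biUnion, Set.mem_iUnion, mem_coe]
      constructor
      · rintro ⟨v, hv, h⟩
        exact ⟨v, hv, ed_trans M h (ed_symm M ((mem_ed M).2 (Or.inr (Or.inr (Or.inl rfl)))))⟩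
      · rintro ⟨v, hv, h⟩
        exact ⟨v, hv, ed_trans M h ((mem_ed M).2 (Or.inr (Or.inr (Or.inl rfl))))⟩
  -- a flag of `p v` at a vertex
  have hend : ∀ v, v ∉ Y → ∀ x ∈ ed M (p v), (x = p v ∨ x = M.a2 (p v)) ∨
      G.dist (M.w x) y0 < G.dist v y0 := by
    intro v hv x hx
    rcases (mem_ed M).1 hx with h | h | h | h
    · exact Or.inl (Or.inl h)
    · right; rw [h]; exact hpd v hv
    · exact Or.inl (Or.inr h)
    · right; rw [h, w02]; exact hpd v hv
  have hPc : P.card = 4 * Z.card := by
    rw [Finset.card_biUnion]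
    · rw [Finset.sum_congr rfl (fun v _ => ed_card M (p v)), Finset.sum_const, smul_eq_mul,
        mul_comm]
    · intro u hu v hv huv
      show Disjoint (ed M (p u)) (ed M (p v))
      rw [Finset.disjoint_left]
      intro x hx hx'
      have hu' := hZ.1 hu
      have hv' := hZ.1 hv
      have e1 : p v ∈ ed M (p u) := ed_trans M hx (ed_symm M hx')
      have e2 : p u ∈ ed M (p v) := ed_symm M e1
      rcases hend u hu' _ e1 with h | h
      · apply huv
        rcases h with h | h
        · rw [← hpw u hu', ← hpw v hv', h]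
        · rw [← hpw u hu', ← hpw v hv', h, M.w2]
      · rcases hend v hv' _ e2 with h' | h'
        · apply huv
          rcases h' with h' | h'
          · rw [← hpw u hu', ← hpw v hv', h']
          · rw [← hpw u hu', ← hpw v hv', h', M.w2]
        · rw [hpw v hv'] at h
          rw [hpw u hu'] at h'
          omega
  have hKP : Disjoint K (P : Set Ω) := by
    rw [Set.disjoint_left]
    intro x hx hxP
    simp only [P, coe_biUnion, Set.mem_iUnion, mem_coe] at hxP
    obtain ⟨v, hv, h⟩ := hxP
    have h1 : p v ∈ K := (ed_mem M hK h).1 hx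
    exact hZ.1 hv (hpw v (hZ.1 hv) ▸ hKY _ h1)
  have hLE : IsE M (K ∪ (P : Set Ω)) := by
    constructor
    · intro x
      rw [Set.mem_union, Set.mem_union, hK.1, hPE.1]
    · intro x
      rw [Set.mem_union, Set.mem_union, hK.2, hPE.2]
  have key := rank_count M K (K ∪ (P : Set Ω)) hLE ?_
  · have hc : (K ∪ (P : Set Ω)).ncard = K.ncard + 4 * Z.card := by
      rw [Set.ncard_union_eq hKP (Set.toFinite _) (Set.toFinite _), Set.ncard_coe_finset, hPc]
    have hZc : Y.ncard + Z.card = Nat.card W := hZc0
    rw [hc] at key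
    omega
  · -- claim 1
    intro g hg
    have claim : ∀ n : ℕ, ∀ v, v ∉ Y → (∑ u, G.dist u y0) + 1 ≤ n + G.dist v y0 →
        g (Quot.mk _ (p v)) = g (Quot.mk _ (M.a2 (p v))) := by
      intro n
      induction n with
      | zero =>
        intro v _ h
        have := Finset.single_le_sum (f := fun u => G.dist u y0) (fun u _ => Nat.zero_le _)
          (mem_univ v)
        omega
      | succ n ih =>
        intro v hv h
        -- flags at `v` with `g = 1`
        let A : Finset Ω := univ.filter (fun y => M.w y = v ∧ g (Quot.mk _ y) = 1)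
        have hA : Even A.card := by
          refine even_card_inv A M.a1 ?_ (fun x _ => M.n1 x) (fun x _ => M.i1 x)
          intro x hx
          simp only [A, mem_filter, mem_univ, true_and] at hx ⊢
          exact ⟨by rw [M.w1]; exact hx.1, by rw [face1]; exact hx.2⟩
        let A' : Finset Ω := A.filter (fun y => ¬ (y = p v ∨ y = M.a2 (p v)))
        have hA' : Even A'.card := by
          refine even_card_inv A' M.a2 ?_ (fun x _ => M.n2 x) (fun x _ => M.i2 x)
          intro x hx
          simp only [A', A, mem_filter, mem_univ, true_and] at hx ⊢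
          obtain ⟨⟨hxv, hx1⟩, hx2⟩ := hx
          have h3 : g (Quot.mk _ x) = g (Quot.mk _ (M.a2 x)) := by
            by_cases hP : x ∈ (P : Set Ω)
            · simp only [P, coe_biUnion, Set.mem_iUnion, mem_coe] at hP
              obtain ⟨u, hu, hxu⟩ := hP
              have hu' := hZ.1 hu
              rcases hend u hu' x hxu with h4 | h4
              · exfalso
                have h5 : v = u := by
                  rcases h4 with h4 | h4
                  · rw [← hxv, h4, hpw u hu']
                  · rw [← hxv, h4, M.w2, hpw u hu']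
                rw [← h5] at h4
                exact hx2 h4
              · refine ed_g M hxu (ih u hu' ?_)
                rw [hxv] at h4
                omega
            · refine hg x ?_
              rw [Set.mem_union, not_or]
              exact ⟨fun hk => hv (hxv ▸ hKY x hk), hP⟩
          refine ⟨⟨by rw [M.w2]; exact hxv, by rw [← h3]; exact hx1⟩, ?_⟩
          rintro (h4 | h4)
          · exact hx2 (Or.inr (by rw [← h4, M.i2]))
          · refine hx2 (Or.inl ?_)
            have := congrArg M.a2 h4
            rw [M.i2, M.i2] at this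
            exact this
        have hB : Even (A.filter (fun y => y = p v ∨ y = M.a2 (p v))).card := by
          have h3 := Finset.card_filter_add_card_filter_not (s := A)
            (fun y => y = p v ∨ y = M.a2 (p v))
          rw [← h3] at hA
          exact (Nat.even_add.1 hA).2 hA'
        have z01 : ∀ a : ZMod 2, a = 0 ∨ a = 1 := by decide
        by_contra hne
        have hsing : ∀ a b : Ω, a ≠ b → g (Quot.mk _ a) = 1 → g (Quot.mk _ b) = 0 → M.w a = v →
            (∀ y, (y = p v ∨ y = M.a2 (p v)) ↔ (y = a ∨ y = b)) → False := by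
          intro a b hab ha hb hwa hy
          have : A.filter (fun y => y = p v ∨ y = M.a2 (p v)) = {a} := by
            ext y
            simp only [A, mem_filter, mem_univ, true_and, mem_singleton]
            constructor
            · rintro ⟨⟨_, h1⟩, h2⟩
              rcases (hy y).1 h2 with h2 | h2
              · exact h2
              · rw [h2, hb] at h1
                exact absurd h1 (by decide)
            · intro h1
              subst h1
              exact ⟨⟨hwa, ha⟩, (hy _).2 (Or.inl rfl)⟩
          rw [this, card_singleton] at hB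
          exact absurd hB (by decide)
        rcases z01 (g (Quot.mk _ (p v))) with h3 | h3 <;>
          rcases z01 (g (Quot.mk _ (M.a2 (p v)))) with h4 | h4
        · exact hne (h3.trans h4.symm)
        · exact hsing (M.a2 (p v)) (p v) (M.n2 _) h4 h3 (by rw [M.w2, hpw v hv])
            (fun y => or_comm)
        · exact hsing (p v) (M.a2 (p v)) (M.n2 _).symm h3 h4 (hpw v hv) (fun y => Iff.rfl)
        · exact hne (h3.trans h4.symm)
    intro x hx
    by_cases hP : x ∈ (P : Set Ω)
    · simp only [P, coe_biUnion, Set.mem_iUnion, mem_coe] at hP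
      obtain ⟨v, hv, h⟩ := hP
      exact ed_g M h (claim ((∑ u, G.dist u y0) + 1) v (hZ.1 hv) (by omega))
    · exact hg x (by rw [Set.mem_union, not_or]; exact ⟨hx, hP⟩)

end Pool.Agent.TFK.LA

namespace Pool.Agent.TFK

theorem LA_thm : Stmt_LA := by
  intro W Ω _ _ G M hG K Y hK hY hKY
  classical
  have : Fintype Ω := Fintype.ofFinite Ω
  exact LA.main G M hG K Y hK hY hKY

end Pool.Agent.TFK
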