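import Pool.Agent.TFK.St
import Pool.Agent.TFK.LA

/-!
# STB: structure of a violator, part 2 (project TFK)
-/

set_option autoImplicit false

namespace Pool.Agent.TFK

namespace STB

open Function

theorem conn_sub {V : Type} {Γ : SimpleGraph V} {K Z : Set V} (hK : (Γ.induce K).Connected)
    {x : V} (hx : x ∈ K) (hxZ : x ∈ Z)
    (hcl : ∀ z ∈ K, z ∈ Z → ∀ z' ∈ K, Γ.Adj z z' → z' ∈ Z) : K ⊆ Z := by
  have key : ∀ a b : K, (Γ.induce K).Reachable a b → a.1 ∈ Z → b.1 ∈ Z := by
    rintro a b ⟨p⟩
    induction p with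
    | nil => exact id
    | cons h p ih => exact fun ha => ih (hcl _ (Subtype.coe_prop _) ha _ (Subtype.coe_prop _) h)
  intro y hy
  exact key ⟨x, hx⟩ ⟨y, hy⟩ (hK.preconnected _ _) hxZ

theorem ocQ {V : Type} {Γ : SimpleGraph V} {U K : Set V} (h : IsOC Γ U K) {x y : V} (hx : x ∈ K)
    (hxy : Γ.Adj x y) (hy : y ∉ U) : y ∈ K :=
  (h.closed x hx y hxy).resolve_right hy

theorem ocD {V : Type} {Γ : SimpleGraph V} {U K : Set V} (h : IsOC Γ U K) {x : V} (hx : x ∈ K) :
    x ∉ U := Set.disjoint_left.1 h.dis hx

variable {W : Type} {G : SimpleGraph W} {k : ℕ}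

/-- the involution -/
def inv (G : SimpleGraph W) (k : ℕ) : GV G k → GV G k
  | Sum.inl p => Sum.inl (p.1, !p.2)
  | Sum.inr (Sum.inl d) => Sum.inr (Sum.inl d.symm)
  | Sum.inr (Sum.inr j) => Sum.inr (Sum.inr j)

theorem adj_case {x y : GV G k} (h : (gadget G k).Adj x y) :
    (∃ v i d, x = cp G k v i ∧ y = dt G k d ∧ d.fst = v) ∨
    (∃ v i d, x = dt G k d ∧ y = cp G k v i ∧ d.fst = v) ∨
    (∃ d, x = dt G k d ∧ y = dt G k d.symm) ∨ (∃ j, x = ex G k j) ∨ (∃ j, y = ex G k j) := by
  rcases x with ⟨v, i⟩ | d | j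
  · rcases y with ⟨u, l⟩ | e | l
    · exact absurd h (by simp)
    · exact Or.inl ⟨v, i, e, rfl, rfl, h⟩
    · exact Or.inr (Or.inr (Or.inr (Or.inr ⟨l, rfl⟩)))
  · rcases y with ⟨u, l⟩ | e | l
    · exact Or.inr (Or.inl ⟨u, l, d, rfl, rfl, h⟩)
    · have h1 : e = d.symm := h
      exact Or.inr (Or.inr (Or.inl ⟨d, rfl, by rw [h1]⟩))
    · exact Or.inr (Or.inr (Or.inr (Or.inr ⟨l, rfl⟩)))
  · exact Or.inr (Or.inr (Or.inr (Or.inl ⟨j, rfl⟩)))

end STB

open STB in
/-- STB -/
theorem STB_thm (hSTA : Stmt_STA) : Stmt_STB := by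
  classical
  intro W _ G k U hdeg hV
  obtain ⟨c1, c2, c3, c4, c5, c6, c7, c8⟩ := hSTA W G k U hV
  -- a copy of a vertex of `T`
  have hT : ∀ K, IsOC (gadget G k) U K → ∀ v i, cp G k v i ∈ K → v ∈ TT U → K = {cp G k v i} := by
    intro K hK v i hi hv
    apply Set.Subset.antisymm
    · refine conn_sub hK.conn hi (Set.mem_singleton _) ?_
      intro z _ hz z' hz' hadj
      rw [Set.mem_singleton_iff] at hz
      subst hz
      exfalso
      rcases adj_case hadj with ⟨v', i', d, e1, e2, e3⟩ | ⟨v', i', d, e1, e2, e3⟩ | ⟨d, e1, e2⟩ |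
        ⟨j, e1⟩ | ⟨j, e1⟩
      · have e4 : v' = v := by
          have := Sum.inl.inj e1
          exact (congrArg Prod.fst this).symm
        subst e2
        exact ocD hK hz' (c3 d (by rw [e3, e4]; exact hv))
      · exact absurd e1 (by simp)
      · exact absurd e1 (by simp)
      · exact absurd e1 (by simp)
      · subst e1
        exact ocD hK hz' (c1 j)
    · rw [Set.singleton_subset_iff]
      exact hi
  -- a copy of a vertex outside `T`
  have hnT : ∀ K, IsOC (gadget G k) U K → ∀ v i, cp G k v i ∈ K → v ∉ TT U →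
      (∀ d : G.Dart, d.fst = v → dt G k d ∈ K) ∧ cp G k v false ∈ K ∧ cp G k v true ∈ K := by
    intro K hK v i hi hv
    have h1 : ∀ d : G.Dart, d.fst = v → dt G k d ∈ K := by
      intro d hd
      refine ocQ hK hi ?_ ?_
      · exact (adj_cp_dt G k v i d).2 hd
      · exact fun h => hv ⟨d, hd, h⟩
    obtain ⟨u, hu⟩ := hdeg v
    have h2 := h1 ⟨(v, u), hu⟩ rfl
    have h3 : cp G k v false ∉ U := by
      intro h
      cases i
      · exact ocD hK hi h
      · exact ocD hK hi ((c2 v).2 h)
    have h4 : cp G k v true ∉ U := fun h => h3 ((c2 v).1 h)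
    exact ⟨h1, ocQ hK h2 ((adj_dt_cp G k v false _).2 rfl) h3,
      ocQ hK h2 ((adj_dt_cp G k v true _).2 rfl) h4⟩
  have hRT : ∀ K, RT U K → ∀ v i, cp G k v i ∈ K → v ∉ TT U := by
    rintro K ⟨hK, v', hv', hv'K⟩ v i hi hv
    have h1 := hT K hK v i hi hv
    rw [h1, Set.mem_singleton_iff] at hv'K
    have h2 : v' = v := congrArg Prod.fst (Sum.inl.inj hv'K)
    exact hv' (by rw [h2]; exact hv)
  have b3 : ∀ K, RT U K → ∀ v ∈ VK K, v ∉ SS U ∧ v ∉ TT U ∧ cp G k v true ∈ K ∧
      ∀ d : G.Dart, d.fst = v → dt G k d ∈ K := by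
    intro K hK v hv
    have h1 := hRT K hK v false hv
    obtain ⟨h2, -, h3⟩ := hnT K hK.1 v false hv h1
    exact ⟨fun h => ocD hK.1 hv h, h1, h3, h2⟩
  have b4 : ∀ K, RT U K → ∀ v ∈ VK K, ∀ u, G.Adj v u → u ∈ VK K ∨ u ∈ SS U ∨ u ∈ TT U := by
    intro K hK v hv u hvu
    by_contra hcon
    push Not at hcon
    obtain ⟨h1, h2, h3⟩ := hcon
    obtain ⟨-, -, -, h4⟩ := b3 K hK v hv
    have h5 := h4 ⟨(v, u), hvu⟩ rfl
    have h6 : dt G k (⟨(v, u), hvu⟩ : G.Dart).symm ∈ K := by
      refine ocQ hK.1 h5 ((adj_dt_dt G k _ _).2 rfl) ?_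
      exact fun h => h3 ⟨_, rfl, h⟩
    exact h1 (ocQ hK.1 h6 ((adj_dt_cp G k u false _).2 rfl) h2)
  refine ⟨?_, ?_, b3, b4, ?_, ?_⟩
  · -- b1
    intro K hK
    by_cases hcp : ∃ v i, cp G k v i ∈ K
    · obtain ⟨v, i, hi⟩ := hcp
      by_cases hv : v ∈ TT U
      · exact Or.inl ⟨v, hv, i, hT K hK v i hi hv⟩
      · exact Or.inr (Or.inr ⟨hK, v, hv, (hnT K hK v i hi hv).2.1⟩)
    · push Not at hcp
      obtain ⟨⟨x, hx⟩⟩ := hK.conn.nonempty
      rcases x with ⟨v, i⟩ | d | j
      · exact absurd hx (hcp v i)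
      · right
        left
        have hx' : dt G k d ∈ K := hx
        have h1 : d.fst ∈ SS U :=
          (hK.closed _ hx' (cp G k d.fst false) ((adj_dt_cp G k _ _ _).2 rfl)).resolve_left
            (hcp _ _)
        have h2 : dt G k d.symm ∉ K := by
          intro h
          have h3 : K = {dt G k d, dt G k d.symm} := by
            apply Set.Subset.antisymm
            · refine conn_sub hK.conn hx' (Set.mem_insert _ _) ?_
              intro z hzK hz z' hz' hadj
              rcases adj_case hadj with ⟨v', i', e, e1, e2, e3⟩ | ⟨v', i', e, e1, e2, e3⟩ |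
                ⟨e, e1, e2⟩ | ⟨j, e1⟩ | ⟨j, e1⟩
              · subst e1
                exact absurd hzK (hcp _ _)
              · subst e2
                exact absurd hz' (hcp _ _)
              · subst e1
                subst e2
                rw [Set.mem_insert_iff, Set.mem_singleton_iff] at hz
                rcases hz with hz | hz
                · have e4 : e = d := by simpa using hz
                  rw [e4]
                  exact Set.mem_insert_of_mem _ (Set.mem_singleton _)
                · have e4 : e = d.symm := by simpa using hz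
                  rw [e4, SimpleGraph.Dart.symm_symm]
                  exact Set.mem_insert _ _
              · subst e1
                exact absurd (c1 j) (ocD hK hzK)
              · subst e1
                exact absurd (c1 j) (ocD hK hz')
            · intro z hz
              rcases hz with hz | hz
              · rw [hz]
                exact hx'
              · rw [Set.mem_singleton_iff] at hz
                rw [hz]
                exact h
          have h4 := hK.odd
          rw [h3, Set.ncard_pair (by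
            intro h5
            have h6 : d = d.symm := by simpa using h5
            exact d.symm_ne h6.symm)] at h4
          exact absurd h4 (by decide)
        have h3 : dt G k d.symm ∈ U :=
          (hK.closed _ hx' _ ((adj_dt_dt G k d d.symm).2 rfl)).resolve_left h2
        refine ⟨d, h1, ⟨d.symm, rfl, h3⟩, ?_⟩
        apply Set.Subset.antisymm
        · refine conn_sub hK.conn hx' (Set.mem_singleton _) ?_
          intro z hzK hz z' hz' hadj
          rw [Set.mem_singleton_iff] at hz
          exfalso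
          rcases adj_case hadj with ⟨v', i', e, e1, e2, e3⟩ | ⟨v', i', e, e1, e2, e3⟩ |
            ⟨e, e1, e2⟩ | ⟨j, e1⟩ | ⟨j, e1⟩
          · subst e1
            exact absurd hzK (hcp _ _)
          · subst e2
            exact absurd hz' (hcp _ _)
          · subst e1
            subst e2
            have e4 : e = d := by simpa using hz
            rw [e4] at hz'
            exact h2 hz'
          · subst e1
            exact absurd (c1 j) (ocD hK hzK)
          · subst e1
            exact absurd (c1 j) (ocD hK hz')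
        · rw [Set.singleton_subset_iff]
          exact hx'
      · exact absurd (c1 j) (ocD hK hx)
  · -- b2
    intro d h1 h2
    have h3 : dt G k d.symm ∈ U := c3 d.symm h2
    have h4 : dt G k d ∉ U := by
      have := c4 d.symm h3
      rwa [SimpleGraph.Dart.symm_symm] at this
    refine ⟨?_, ?_, ?_, ?_⟩
    · rw [Set.disjoint_singleton_left]
      exact h4
    · refine (SimpleGraph.connected_iff_exists_forall_reachable _).2
        ⟨⟨dt G k d, Set.mem_singleton _⟩, ?_⟩
      rintro ⟨y, hy⟩
      have hy' : y = dt G k d := hy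
      subst hy'
      exact SimpleGraph.Reachable.refl _
    · intro x hx y hadj
      rw [Set.mem_singleton_iff] at hx
      subst hx
      right
      rcases adj_case hadj with ⟨v', i', e, e1, e2, e3⟩ | ⟨v', i', e, e1, e2, e3⟩ |
        ⟨e, e1, e2⟩ | ⟨j, e1⟩ | ⟨j, e1⟩
      · exact absurd e1 (by simp)
      · have e4 : d = e := by simpa using e1
        subst e2
        rw [← e3, ← e4]
        cases i'
        · exact h1
        · exact (c2 _).2 h1
      · have e4 : d = e := by simpa using e1
        subst e2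
        rw [← e4]
        exact h3
      · exact absurd e1 (by simp)
      · subst e1
        exact c1 j
    · rw [Set.ncard_singleton]
      exact odd_one
  · -- b5
    intro K hK
    obtain ⟨v₀, -, hv₀⟩ := hK.2
    have hv₀' : v₀ ∈ VK K := hv₀
    let C : Set W := {w | ∃ h : w ∈ VK K, (G.induce (VK K)).Reachable ⟨v₀, hv₀'⟩ ⟨w, h⟩}
    have hCV : ∀ w ∈ C, w ∈ VK K := fun w hw => hw.1
    let Z : Set (GV G k) := {x | (∃ v i, x = cp G k v i ∧ v ∈ C) ∨
      ∃ d : G.Dart, x = dt G k d ∧ ((d.fst ∉ SS U ∧ d.fst ∈ C) ∨ (d.fst ∈ SS U ∧ d.snd ∈ C))}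
    have hZ : K ⊆ Z := by
      refine conn_sub hK.1.conn hv₀ (Or.inl ⟨v₀, false, rfl, hv₀', SimpleGraph.Reachable.refl _⟩) ?_
      intro z hzK hz z' hz' hadj
      rcases adj_case hadj with ⟨v, i, d, e1, e2, e3⟩ | ⟨v, i, d, e1, e2, e3⟩ |
        ⟨d, e1, e2⟩ | ⟨j, e1⟩ | ⟨j, e1⟩
      · subst e1
        subst e2
        have hvC : v ∈ C := by
          rcases hz with ⟨v', i', h1, h2⟩ | ⟨e, h1, -⟩
          · have h3 := congrArg Prod.fst (Sum.inl.inj h1)
            simp only at h3
            rw [h3]
            exact h2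
          · exact absurd h1 (by simp)
        refine Or.inr ⟨d, rfl, Or.inl ⟨?_, ?_⟩⟩
        · rw [e3]
          exact (b3 K hK v (hCV v hvC)).1
        · rw [e3]
          exact hvC
      · subst e1
        subst e2
        rcases hz with ⟨v', i', h1, h2⟩ | ⟨e, h1, h2⟩
        · exact absurd h1 (by simp)
        · have h3 : d = e := by simpa using h1
          subst h3
          rcases h2 with ⟨-, h2⟩ | ⟨h2, -⟩
          · exact Or.inl ⟨v, i, rfl, e3 ▸ h2⟩
          · exfalso
            rw [e3] at h2
            cases i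
            · exact ocD hK.1 hz' h2
            · exact ocD hK.1 hz' ((c2 v).2 h2)
      · subst e1
        subst e2
        rcases hz with ⟨v', i', h1, h2⟩ | ⟨e, h1, h2⟩
        · exact absurd h1 (by simp)
        · have h3 : d = e := by simpa using h1
          subst h3
          refine Or.inr ⟨d.symm, rfl, ?_⟩
          rcases h2 with ⟨h2, h4⟩ | ⟨h2, h4⟩
          · by_cases hS : d.snd ∈ SS U
            · exact Or.inr ⟨hS, h4⟩
            · refine Or.inl ⟨hS, ?_⟩
              have h5 : d.snd ∈ VK K := ocQ hK.1 hz' ((adj_dt_cp G k d.snd false d.symm).2 rfl) hS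
              obtain ⟨h6, h7⟩ := h4
              refine ⟨h5, h7.trans ?_⟩
              have h8 : (G.induce (VK K)).Adj ⟨d.fst, h6⟩ ⟨d.snd, h5⟩ := d.adj
              exact h8.reachable
          · exact Or.inl ⟨(b3 K hK _ (hCV _ h4)).1, h4⟩
      · subst e1
        exact absurd (c1 j) (ocD hK.1 hzK)
      · subst e1
        exact absurd (c1 j) (ocD hK.1 hz')
    refine (SimpleGraph.connected_iff_exists_forall_reachable _).2 ⟨⟨v₀, hv₀'⟩, ?_⟩
    rintro ⟨w, hw⟩
    rcases hZ hw with ⟨v, i, h1, h2⟩ | ⟨e, h1, -⟩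
    · have h3 := congrArg Prod.fst (Sum.inl.inj h1)
      simp only at h3
      subst h3
      obtain ⟨h4, h5⟩ := h2
      exact h5
    · exact absurd h1 (by simp)
  · -- b6
    intro K hK
    have : Fintype (GV G k) := by
      have : Fintype G.Dart := Fintype.ofFinite _
      infer_instance
    let D : Set G.Dart := {d : G.Dart | dt G k d ∈ K ∧ dt G k d.symm ∈ U}
    let R : Set (GV G k) := (fun d => dt G k d) '' D
    have hRK : R ⊆ K := by
      rintro x ⟨d, hd, rfl⟩
      exact hd.1
    have hR : R.ncard = D.ncard := Set.ncard_image_of_injective _ (fun a b h => by simpa using h)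
    have hsum := Set.ncard_sdiff_add_ncard_of_subset hRK
    have hev : Even (K \ R).ncard := by
      rw [Set.ncard_eq_toFinset_card']
      refine LA.even_card_inv _ (inv G k) ?_ ?_ ?_
      · intro x hx
        rw [Set.mem_toFinset] at hx ⊢
        obtain ⟨hx1, hx2⟩ := hx
        rcases x with ⟨v, i⟩ | d | j
        · have h1 := hRT K hK v i hx1
          obtain ⟨-, h2, h3⟩ := hnT K hK.1 v i hx1 h1
          refine ⟨?_, ?_⟩
          · cases i
            · exact h3
            · exact h2
          · rintro ⟨d, -, h4⟩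
            exact absurd h4 (by simp [inv])
        · have h1 : dt G k d.symm ∉ U := fun h => hx2 ⟨d, ⟨hx1, h⟩, rfl⟩
          have h2 : dt G k d.symm ∈ K := ocQ hK.1 hx1 ((adj_dt_dt G k d d.symm).2 rfl) h1
          refine ⟨h2, ?_⟩
          rintro ⟨e, he, h4⟩
          have h5 : e = d.symm := by simpa [inv] using h4
          rw [h5] at he
          have h6 := he.2
          rw [SimpleGraph.Dart.symm_symm] at h6
          exact ocD hK.1 hx1 h6
        · exact absurd (c1 j) (ocD hK.1 hx1)
      · intro x hx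
        rw [Set.mem_toFinset] at hx
        rcases x with ⟨v, i⟩ | d | j
        · simp [inv]
        · simp only [inv]
          intro h
          exact d.symm_ne (Sum.inl.inj (Sum.inr.inj h))
        · exact absurd (c1 j) (ocD hK.1 hx.1)
      · intro x _
        rcases x with ⟨v, i⟩ | d | j
        · simp [inv]
        · simp [inv]
        · rfl
    obtain ⟨a, ha⟩ := hev
    obtain ⟨b, hb⟩ := hK.1.odd
    refine ⟨b - a, ?_⟩
    change D.ncard = _
    omega

end Pool.Agent.TFK
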