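import Pool.Agent.TFK.LA

/-!
# TREE: spanning trees of the parts, as sets of flags (project TFK)
-/

set_option autoImplicit false

namespace Pool.Agent.TFK.TREE

open Function Finset
open Pool.Agent.TFK.LA (wne n0 w02)

/-- a finite acyclic graph with an edge has a vertex with exactly one neighbour -/
theorem exists_leaf {V : Type} [Finite V] (H : SimpleGraph V) (hH : H.IsAcyclic)
    (a b : V) (hab : H.Adj a b) : ∃ u z, H.Adj u z ∧ ∀ y, H.Adj u y → y = z := by
  classical
  have : Fintype V := Fintype.ofFinite V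
  have : Nonempty V := ⟨a⟩
  obtain ⟨u, v, p, hp, hmax⟩ := SimpleGraph.Walk.exists_isPath_forall_isPath_length_le_length H
  have hlen : 1 ≤ p.length := by
    have h1 := hmax a b (SimpleGraph.Walk.cons hab SimpleGraph.Walk.nil)
      (by simp [hab.ne])
    simpa using h1
  have hnil : ¬ p.Nil := by
    intro h
    rw [← SimpleGraph.Walk.length_eq_zero_iff] at h
    omega
  refine ⟨u, p.snd, p.adj_snd hnil, fun y hy => ?_⟩
  apply hH.eq_snd_of_adj_start hp hy
  by_contra hns
  have h2 : (p.cons hy.symm).IsPath := hp.cons hns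
  have h3 := hmax _ _ _ h2
  rw [SimpleGraph.Walk.length_cons] at h3
  omega

section

variable {W Ω N : Type} [Fintype W] [Fintype Ω] [Fintype N] [DecidableEq Ω] [DecidableEq W]
  [DecidableEq N] {G : SimpleGraph W} (M : KR.GMap G Ω)

open Classical in
theorem main (Y : N → Set W) (hd : ∀ a b, a ≠ b → Disjoint (Y a) (Y b))
    (hc : ∀ a, (G.induce (Y a)).Connected) :
    ∃ E : Set Ω, IsE M E ∧ (∀ x ∈ E, ∃ a, M.w x ∈ Y a ∧ M.w (M.a0 x) ∈ Y a) ∧ NoCyc M E ∧
      E.ncard + 4 * Nat.card N = 4 * (⋃ a, Y a).ncard := by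
  have hT : ∀ a, ∃ T : SimpleGraph (Y a), T ≤ G.induce (Y a) ∧ T.IsTree :=
    fun a => (hc a).exists_isTree_le
  choose T hTle hTt using hT
  have hua : ∀ {a b v}, v ∈ Y a → v ∈ Y b → a = b := by
    intro a b v h h'
    by_contra hne
    exact Set.disjoint_left.1 (hd a b hne) h h'
  let TA : W → W → Prop := fun u v => ∃ a, ∃ (h : u ∈ Y a) (h' : v ∈ Y a), (T a).Adj ⟨u, h⟩ ⟨v, h'⟩
  have hTAs : ∀ u v, TA u v → TA v u := by
    rintro u v ⟨a, h, h', e⟩
    exact ⟨a, h', h, e.symm⟩
  have hTAG : ∀ u v, TA u v → G.Adj u v := by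
    rintro u v ⟨a, h, h', e⟩
    exact hTle a e
  let E : Set Ω := {x | TA (M.w x) (M.w (M.a0 x))}
  have hE : IsE M E := by
    constructor
    · intro x
      show TA (M.w (M.a0 x)) (M.w (M.a0 (M.a0 x))) ↔ TA (M.w x) (M.w (M.a0 x))
      rw [M.i0]
      exact ⟨hTAs _ _, hTAs _ _⟩
    · intro x
      show TA (M.w (M.a2 x)) (M.w (M.a0 (M.a2 x))) ↔ TA (M.w x) (M.w (M.a0 x))
      rw [M.w2, w02]
  refine ⟨E, hE, ?_, ?_, ?_⟩
  · rintro x ⟨a, h, h', _⟩
    exact ⟨a, h, h'⟩
  · -- NoCyc
    intro D hDE hD h4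
    by_contra hne
    obtain ⟨x, hx⟩ := Set.nonempty_iff_ne_empty.2 hne
    obtain ⟨a, h, h', e⟩ := hDE hx
    let H : SimpleGraph (Y a) :=
      { Adj := fun p q => ∃ y ∈ D, M.w y = p.1 ∧ M.w (M.a0 y) = q.1
        symm := ⟨by
          rintro p q ⟨y, hy, h1, h2⟩
          exact ⟨M.a0 y, (hD.1 y).2 hy, h2, by rw [M.i0]; exact h1⟩⟩
        loopless := ⟨by
          rintro p ⟨y, hy, h1, h2⟩
          exact wne M y (h2.trans h1.symm)⟩ }
    have hHT : H ≤ T a := by
      rintro p q ⟨y, hy, h1, h2⟩
      obtain ⟨b, k, k', e'⟩ := hDE hy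
      have hab : b = a := hua k (h1 ▸ p.2)
      subst hab
      have e1 : (⟨M.w y, k⟩ : Y b) = p := Subtype.ext h1
      have e2 : (⟨M.w (M.a0 y), k'⟩ : Y b) = q := Subtype.ext h2
      rw [← e1, ← e2]
      exact e'
    have hHa : H.IsAcyclic := (hTt a).isAcyclic.anti hHT
    obtain ⟨u, z, huz, huniq⟩ := exists_leaf H hHa ⟨M.w x, h⟩ ⟨M.w (M.a0 x), h'⟩
      ⟨x, hx, rfl, rfl⟩
    obtain ⟨y, hy, hyu, hyz⟩ := huz
    have hset : {x | x ∈ D ∧ M.w x = u.1} = {y, M.a2 y} := by
      ext t
      simp only [Set.mem_ofPred_eq, Set.mem_insert_iff, Set.mem_singleton_iff]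
      constructor
      · rintro ⟨ht, htu⟩
        obtain ⟨b, k, k', e'⟩ := hDE ht
        have hab : b = a := hua k (htu ▸ u.2)
        subst hab
        have := huniq ⟨M.w (M.a0 t), k'⟩ ⟨t, ht, htu, rfl⟩
        have h5 : M.w (M.a0 t) = M.w (M.a0 y) := by
          rw [hyz]; exact congrArg Subtype.val this
        exact M.uniq y t (hyu.trans htu.symm) h5.symm
      · rintro (h5 | h5)
        · rw [h5]; exact ⟨hy, hyu⟩
        · rw [h5]; exact ⟨(hD.2 y).2 hy, by rw [M.w2]; exact hyu⟩
    have h6 := h4 u.1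
    rw [hset, Set.ncard_pair (M.n2 y).symm] at h6
    omega
  · -- the count
    have hfT : ∀ a, Fintype (T a).edgeSet := fun a => Fintype.ofFinite _
    let S : Finset (W × W) := univ.biUnion
      (fun a => (univ : Finset (T a).Dart).image (fun d => (d.fst.1, d.snd.1)))
    have hS : ∀ u v, (u, v) ∈ S ↔ TA u v := by
      intro u v
      simp only [S, mem_biUnion, mem_univ, true_and, mem_image, Prod.mk.injEq]
      constructor
      · rintro ⟨a, d, h1, h2⟩
        refine ⟨a, h1 ▸ d.fst.2, h2 ▸ d.snd.2, ?_⟩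
        have e1 : (⟨u, h1 ▸ d.fst.2⟩ : Y a) = d.fst := Subtype.ext h1.symm
        have e2 : (⟨v, h2 ▸ d.snd.2⟩ : Y a) = d.snd := Subtype.ext h2.symm
        rw [e1, e2]
        exact d.adj
      · rintro ⟨a, h, h', e⟩
        exact ⟨a, ⟨(⟨u, h⟩, ⟨v, h'⟩), e⟩, rfl, rfl⟩
    have hSc : S.card = ∑ a, 2 * ((Y a).ncard - 1) := by
      rw [Finset.card_biUnion]
      · refine Finset.sum_congr rfl (fun a _ => ?_)
        rw [Finset.card_image_of_injective, Finset.card_univ,
          SimpleGraph.dart_card_eq_twice_card_edges]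
        · have h1 : ∀ i : Fintype (T a).edgeSet,
              (@SimpleGraph.edgeFinset _ (T a) i).card + 1 = Fintype.card (Y a) :=
            fun i => by convert (hTt a).card_edgeFinset
          have h2 : (Y a).ncard = Fintype.card (Y a) := by
            rw [← Nat.card_eq_fintype_card]; rfl
          refine congrArg (2 * ·) ?_
          rw [h2]
          exact Nat.eq_sub_of_add_eq (h1 _)
        · intro d e hde
          simp only [Prod.mk.injEq] at hde
          exact SimpleGraph.Dart.ext _ _ (Prod.ext (Subtype.ext hde.1) (Subtype.ext hde.2))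
      · intro a _ b _ hab
        show Disjoint _ _
        rw [Finset.disjoint_left]
        intro p hp hp'
        simp only [mem_image, mem_univ, true_and] at hp hp'
        obtain ⟨d, hd1⟩ := hp
        obtain ⟨e, he1⟩ := hp'
        have h1 : d.fst.1 = e.fst.1 := by
          have := hd1.trans he1.symm
          exact congrArg Prod.fst this
        exact hab (hua d.fst.2 (h1 ▸ e.fst.2))
    have hEc : E.ncard = 2 * S.card := by
      have h0 : E.ncard = (univ.filter (fun x => x ∈ E)).card := by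
        rw [Set.ncard_eq_toFinset_card' E]
        congr 1
        ext x
        simp
      rw [h0, Finset.card_eq_sum_card_fiberwise (f := fun x => (M.w x, M.w (M.a0 x))) (t := S)]
      · rw [Finset.sum_congr rfl (g := fun _ => 2), Finset.sum_const, smul_eq_mul, mul_comm]
        rintro ⟨u, v⟩ huv
        have hadj := hTAG u v ((hS u v).1 huv)
        obtain ⟨x, hx, hx'⟩ := (M.adj u v).1 hadj
        have : (univ.filter (fun x => x ∈ E)).filter (fun x => (M.w x, M.w (M.a0 x)) = (u, v)) =
            {x, M.a2 x} := by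
          ext t
          simp only [mem_filter, mem_univ, true_and, mem_insert, mem_singleton, Prod.mk.injEq]
          constructor
          · rintro ⟨_, h1, h2⟩
            exact M.uniq x t (hx.trans h1.symm) (hx'.trans h2.symm)
          · have hxE : x ∈ E := by
              show TA _ _
              rw [hx, hx']
              exact (hS u v).1 huv
            rintro (h1 | h1)
            · rw [h1]; exact ⟨hxE, hx, hx'⟩
            · rw [h1]
              exact ⟨(hE.2 x).2 hxE, by rw [M.w2]; exact hx, by rw [w02]; exact hx'⟩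
        rw [this, Finset.card_pair (M.n2 x).symm]
      · intro x hx
        simp only [coe_filter, mem_univ, true_and] at hx
        exact (hS _ _).2 hx
    have hU : (⋃ a, Y a).ncard = ∑ a, (Y a).ncard := by
      rw [Set.ncard_iUnion_of_finite (fun a => Set.toFinite _)
        (fun a b hab => hd a b hab), finsum_eq_sum_of_fintype]
    have hpos : ∀ a, 1 ≤ (Y a).ncard := by
      intro a
      obtain ⟨v⟩ := (hc a).nonempty
      exact (Set.ncard_pos (Set.toFinite _)).2 ⟨v.1, v.2⟩
    have hsum : ∑ a, 2 * ((Y a).ncard - 1) + 2 * Fintype.card N = 2 * ∑ a, (Y a).ncard := by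
      have h1 : 2 * Fintype.card N = ∑ _a : N, 2 := by
        rw [Finset.sum_const, smul_eq_mul, mul_comm]
        rfl
      rw [h1, ← Finset.sum_add_distrib, Finset.mul_sum]
      refine Finset.sum_congr rfl (fun a _ => ?_)
      have := hpos a
      omega
    rw [hEc, hSc, hU, Nat.card_eq_fintype_card]
    omega

end

end Pool.Agent.TFK.TREE

namespace Pool.Agent.TFK

theorem TREE_thm : Stmt_TREE := by
  intro W Ω N _ _ _ G M Y hd hc
  classical
  have : Fintype Ω := Fintype.ofFinite Ω
  have : Fintype N := Fintype.ofFinite N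
  exact TREE.main M Y hd hc

end Pool.Agent.TFK
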