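import Pool.Agent.TFK.EUL
import Pool.Agent.TFK.SIDE
import Pool.Agent.TFK.TREE
import Pool.Agent.TFK.HALL
import Pool.Agent.TFK.STA
import Pool.Agent.TFK.STB
import Pool.Agent.TFK.BAR
import Pool.Agent.TFK.FOUR
import Pool.Agent.TFK.MATCH
import Pool.Agent.TFK.SHARP
import Pool.Agent.TFK.MAIN

/-!
# Assembly (project TFK)
-/

set_option autoImplicit false

namespace Pool.Agent.TFK

theorem main_all : Stmt_MAIN :=
  MAIN_thm (BAR_thm HALL_thm MATCH_thm STA_thm (STB_thm STA_thm)) FOUR_thm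
    (EUL_thm LA_thm SIDE_thm TREE_thm)

end Pool.Agent.TFK
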