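import Pool.Agent.TFK.Defs

/-!
# 2-matchings of 4-connected graphs on surfaces (project TFK): statements

Every module proves one `Stmt_X` (as `theorem X_thm (hY : Stmt_Y) ... : Stmt_X`); statements named
in the doc-string may be taken as hypotheses.
-/

set_option autoImplicit false

namespace Pool.Agent.TFK

open Function

/-- HALL (strong form of Tutte's theorem; module `TFK_HALL`, uses nothing).

Proof. For `U : Set V` let `o(U) = {K | IsOC Γ U K}.ncard`.
(1) `o(U)` is the number of odd components of Mathlib: `K ↦` the component. Mathlib's Tutte theorem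
(`SimpleGraph.tutte`, `SimpleGraph.IsTutteViolator`, file `Mathlib/Combinatorics/SimpleGraph/Tutte.lean`)
gives `U₀` with `U₀.ncard < (((⊤ : Γ.Subgraph).deleteVerts U₀).coe.oddComponents).ncard`. Prove
`oddComponents.ncard ≤ o(U)` and for parity: `Odd (o U) ↔ Odd (Nat.card ↥Uᶜ)` (Mathlib:
`SimpleGraph.odd_ncard_oddComponents` for the graph `Γ.induce Uᶜ` or the `coe` of `deleteVerts`), so one wants a
bijection between `{K | IsOC Γ U K}` and the odd components: a component `c` goes to the image in `V` of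
`c.supp`; conversely an `IsOC` set `K` is connected and closed, so it is the image of the support of the
component of any of its points.
(2) Choose `U` maximising the integer `(|V| + 1) * (o(U) - |U|) - |U|` (finitely many sets). As `U₀` has
`o - |U₀| ≥ 1`, so `o(U) - |U| ≥ 1` (if `o(U) - |U| ≤ 0` the value at `U` is `≤ 0`, while the value at `U₀`
is `≥ |V| + 1 - |U₀| ≥ 1`). Parity: `o(U) ≡ |V \ U| ≡ |U| (mod 2)` because `|V|` is even, so
`o(U) - |U|` is even and `≥ 2`: this is `big`.
(3) Let `X ⊆ U`, `X ≠ ∅`, `U' = U \ X`. Every `K` with `IsOC Γ U K` and `K ∉ Nb Γ U X` satisfies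
`IsOC Γ U' K`: hence `o(U') ≥ o(U) - |Nb Γ U X|`. If `|Nb| ≤ |X| + 1` then
`o(U') - |U'| ≥ o(U) - |U| + |X| - |Nb| ≥ o(U) - |U| - 1`, and both sides `o(U') - |U'|`, `o(U) - |U|` are even,
so `o(U') - |U'| ≥ o(U) - |U|` with `|U'| < |U|`: contradiction with the choice of `U`. -/
def Stmt_HALL : Prop := ∀ (V : Type) [Fintype V] (Γ : SimpleGraph V), Even (Nat.card V) →
  (¬ ∃ M : Γ.Subgraph, M.IsPerfectMatching) → ∃ U : Set V, Viol Γ U

/-- MATCH (module `TFK_MATCH`, uses nothing).

Proof. Let `m : GV G k → GV G k` be the mate (`M.IsPerfectMatching` gives for every `x` a unique `y`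
with `M.Adj x y`; `m (m x) = x`, `(gadget G k).Adj x (m x)`). Say the dart `d` is used when `m (dt d)` is a
copy, i.e. `m (dt d) ≠ dt d.symm` (a dart is adjacent to copies of its first vertex and to its reverse
only). `d` is used iff `d.symm` is used. `H.Adj u v :⟺ ∃ h : G.Adj u v`, the dart `⟨(u, v), h⟩` is used.
Neighbours `u` of `v` in `H` inject into `{cp v false, cp v true}` by `u ↦ m (dt (v,u))`, so at most two.
Number of copies `2 |W|` = copies with mate a dart + copies with mate an extra vertex. The latter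
are at most `2 k` (`m` injective, `Fin (2 k)`); the former are in bijection with the used darts, i.e. with the
darts of `H`, and `|darts of H| = 2 |edges|` (`SimpleGraph.dart_card_eq_twice_card_edges`, or
`SimpleGraph.sum_degrees_eq_twice_card_edges`; `Set.ncard` versions by `Set.ncard_eq_toFinset_card'`,
classical decidability). So `2 |W| ≤ 2 |E(H)| + 2 k`. -/
def Stmt_MATCH : Prop := ∀ (W : Type) [Fintype W] (G : SimpleGraph W) (k : ℕ),
  (∃ M : (gadget G k).Subgraph, M.IsPerfectMatching) →
  ∃ H : SimpleGraph W, H ≤ G ∧ (∀ v, (H.neighborSet v).ncard ≤ 2) ∧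
    Nat.card W ≤ H.edgeSet.ncard + k

/-- STA (structure of a violator, part 1; module `TFK_STA`, uses nothing).

`Γ = gadget G k`, `𝒦 = {K | IsOC Γ U K}`. Two general facts about members of `𝒦`: (P) two members with a
common point are equal (both connected, closed and disjoint from `U`: a `Preconnected` set `K` with a point
in `K'` stays in `K'` along edges, since `closed` for `K'` and `K ∩ U = ∅`; induction along walks / use
`SimpleGraph.Connected` of the induced graph). (Q) if `x ∈ K`, `Γ.Adj x y`, `y ∉ U` then `y ∈ K`.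
(a) `dt d ∈ U`: the neighbours of `dt d` are `cp d.fst false`, `cp d.fst true`, `dt d.symm`; by `hall` for
`X = {dt d}` at least three members of `𝒦` contain one of these three vertices; so each of the three
is in a member of `𝒦`, and the three members are different (map `Nb → ` one of the three vertices in it,
use (P) and `Set.ncard`). In particular all three are outside `U`: this gives c4, c5 and c7.
(b) for such `d` and a dart `e` with `e.fst = d.fst`: if `dt e ∉ U` then by (Q) `dt e` is in the member of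
`cp v false` and in that of `cp v true`, so they are equal by (P): contradiction. Hence c3. Then all
neighbours of `cp v i` (darts at `v`, extra vertices) are in `U` once c1 is known, so the member
containing `cp v i` is `{cp v i}` (a connected induced graph with two vertices would give a neighbour): c6.
(c) c1: let `z = ex j ∉ U`. If some `dt d ∈ U` then `z` is adjacent to both copies of `d.fst`, so by (Q) it is
in both members: contradiction. So no dart is in `U`. A member `K` of `𝒦` that contains a copy or an extra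
vertex contains `z` (Q) (an extra vertex `≠ z` is adjacent to `z`); a member with darts only: `d ∈ K`, the
copies of `d.fst` are in `U` (closed), `dt d.symm ∉ U`, so `dt d.symm ∈ K` and `K = {dt d, dt d.symm}`, even:
contradiction. So all members contain `z`, `𝒦.ncard ≤ 1`, contradiction to `big`.
(d) c2: if `cp v i ∈ U` and `cp v (!i) ∉ U`: `hall` for `X = {cp v i}`: at least three members contain a
neighbour of `cp v i`, which (not being an extra vertex by c1) is a dart at `v`; a member contains `cp v (!i)`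
by (Q); so all these members are equal by (P): contradiction.
(e) c8: `v ∈ TT U`, `X = {dt e | e.fst = v}` (all in `U` by c3), `|X|` = number of darts at `v`. A member in
`Nb Γ U X` contains `cp v false`, `cp v true` or some `dt e.symm`; if two different `e, e'` had their reverses in
the same member, then `|Nb| ≤ 2 + |X| - 1`, contradiction. -/
def Stmt_STA : Prop := ∀ (W : Type) [Fintype W] (G : SimpleGraph W) (k : ℕ) (U : Set (GV G k)),
  Viol (gadget G k) U →
  (∀ j, ex G k j ∈ U) ∧                                                    -- c1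
  (∀ v, cp G k v true ∈ U ↔ cp G k v false ∈ U) ∧                          -- c2
  (∀ d : G.Dart, d.fst ∈ TT U → dt G k d ∈ U) ∧                            -- c3
  (∀ d : G.Dart, dt G k d ∈ U → dt G k d.symm ∉ U) ∧                       -- c4
  (∀ v ∈ TT U, ∀ i, cp G k v i ∉ U) ∧                                      -- c5
  (∀ v ∈ TT U, ∀ i, IsOC (gadget G k) U {cp G k v i}) ∧                    -- c6
  (∀ d : G.Dart, dt G k d ∈ U → ∃ K, IsOC (gadget G k) U K ∧ dt G k d.symm ∈ K) ∧  -- c7
  (∀ d e : G.Dart, dt G k d ∈ U → dt G k e ∈ U → d.fst = e.fst →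
    ∀ K, IsOC (gadget G k) U K → dt G k d.symm ∈ K → dt G k e.symm ∈ K → d = e)    -- c8

/-- STB (structure of a violator, part 2; module `TFK_STB`, hypothesis `Stmt_STA`).

`S = SS U`, `T = TT U`; (P), (Q) as in STA (reprove them, or import the STA module).
b1: `K` in `𝒦`. If `K` contains a copy `cp v i`: if `v ∈ T` then all neighbours of `cp v i` are in `U` (c1, c3)
so `K = {cp v i}` (connected). If `v ∉ T`: `v` has a dart `d` by `hdeg`, `dt d ∉ U` (`v ∉ T`), so `dt d ∈ K` (Q)
and `cp v false ∉ U` (else `cp v true ∈ U` by c2, but `cp v i ∉ U`), so `cp v false ∈ K` (Q): `RT U K`. If `K`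
contains no copy: extra vertices are in `U`, so `K` has a dart `d`; both copies of `d.fst` are in `U` (closed), so
`d.fst ∈ S`. If `dt d.symm ∈ K` then all neighbours of `dt d`, `dt d.symm` are in `U` or in `{dt d, dt d.symm}`, so
`K = {dt d, dt d.symm}`, which is even. So `dt d.symm ∈ U` (closed), `d.snd ∈ T`, `K = {dt d}`.
b2: `d.fst ∈ S`, `d.snd ∈ T`: `dt d.symm ∈ U` (c3), the copies of `d.fst` are in `U` (c2), `dt d ∉ U` (c4 for
`d.symm`): `{dt d}` is closed and connected, of cardinality one.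
b3: `RT U K`, `v ∈ VK K`: `v ∉ S` (`K` disjoint from `U`); if `v ∈ T` then `K = {cp v false}` (b1 argument), but `K`
contains a copy `cp v' false` with `v' ∉ T`: contradiction. Darts at `v` are not in `U` (`v ∉ T`), so in `K` (Q), and
there is one (`hdeg`), `cp v true ∉ U` by c2, so `cp v true ∈ K`.
b4: `v ∈ VK K`, `G.Adj v u`, `u ∉ S`, `u ∉ T`: the darts `(v,u)`, `(u,v)` and `cp u false` are not in `U`, so they are
all in `K`.
b5: connectedness of `G.induce (VK K)`: map a vertex `x ∈ K` to `VK K`: `cp v i ↦ v` (`v ∈ VK K`: if `i = true` go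
through a dart at `v`; here `v ∉ T` because otherwise `K` is a singleton `{cp v i}`), `dt d ↦ d.fst` if `d.fst ∉ S`
(then `d.fst ∈ VK K`), and `↦ d.snd` if `d.fst ∈ S` (then `d.snd ∉ S`, `d.snd ∉ T`, otherwise `K = {dt d, dt d.symm}` or
`{dt d}` has no copy; so `d.snd ∈ VK K`). Adjacent `x, y ∈ K` go to equal or adjacent vertices. Nonempty.
b6: parity: `K` is odd; `K = copies ∪ darts`; copies: `cp v i` with `v ∈ VK K` (b3), an even number; so the
number of darts in `K` is odd; `d ↦ d.symm` is a fixed point free involution on `{d | dt d ∈ K ∧ dt d.symm ∉ U}`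
(Q), so `{d | dt d ∈ K ∧ dt d.symm ∈ U}` is odd. -/
def Stmt_STB : Prop := ∀ (W : Type) [Fintype W] (G : SimpleGraph W) (k : ℕ) (U : Set (GV G k)),
  (∀ v, ∃ u, G.Adj v u) → Viol (gadget G k) U →
  (∀ K, IsOC (gadget G k) U K → (∃ v ∈ TT U, ∃ i, K = {cp G k v i}) ∨
    (∃ d : G.Dart, d.fst ∈ SS U ∧ d.snd ∈ TT U ∧ K = {dt G k d}) ∨ RT U K) ∧            -- b1
  (∀ d : G.Dart, d.fst ∈ SS U → d.snd ∈ TT U → IsOC (gadget G k) U {dt G k d}) ∧        -- b2
  (∀ K, RT U K → ∀ v ∈ VK K, v ∉ SS U ∧ v ∉ TT U ∧ cp G k v true ∈ K ∧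
    ∀ d : G.Dart, d.fst = v → dt G k d ∈ K) ∧                                           -- b3
  (∀ K, RT U K → ∀ v ∈ VK K, ∀ u, G.Adj v u → u ∈ VK K ∨ u ∈ SS U ∨ u ∈ TT U) ∧         -- b4
  (∀ K, RT U K → (G.induce (VK K)).Connected) ∧                                         -- b5
  (∀ K, RT U K → Odd {d : G.Dart | dt G k d ∈ K ∧ dt G k d.symm ∈ U}.ncard)             -- b6

/-- BAR (module `TFK_BAR`, hypotheses `Stmt_HALL`, `Stmt_MATCH`, `Stmt_STA`, `Stmt_STB`).

Proof. The gadget has `2|W| + |darts| + 2k` vertices, an even number (darts: `d ↦ d.symm`, or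
`dart_card_eq_twice_card_edges`). By MATCH it has no perfect matching, so HALL gives `U`. Put `S = SS U`,
`T = TT U`, `𝒞 = VK '' {K | RT U K}` (`VK` is injective on `RT` sets: `VK K = VK K'` is nonempty, so `K`, `K'`
share the point `cp v false`; two members of `{K | IsOC}` with a common point are equal).
`dST`: c5 (and the definition of `SS`). `ind`: c3, c4. `cS`, `cT`: b3. `cconn`: b5. `cclosed`: b4. `cpair`: common point.
`tnb`: `u ∈ T`, `G.Adj u v`, `d = (u,v)`, `dt d ∈ U` (c3), by c7 `dt d.symm ∈ K` for a member `K`; by b1: `K = {cp ..}` is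
impossible; `K = {dt d'}`, `d' = d.symm`, so `v = d'.fst ∈ S`; or `RT U K`: `v ∉ S` may be assumed, `v ∉ T` (ind), so
`cp v false ∉ U` is adjacent to `dt d.symm`, hence in `K` and `v ∈ VK K`.
`tuniq`: `v, v' ∈ VK K`: `dt (v,u), dt (v',u) ∈ K` by b3, both darts `(u,v), (u,v')` are in `U`, c8.
`codd`: `{d | dt d ∈ K ∧ dt d.symm ∈ U}` is in bijection with `TN G T (VK K)` by `d ↦ d.snd` (`dt d.symm ∈ U` gives
`d.snd ∈ T`; then `d.fst`: `cp d.fst false` is in `K` unless `d.fst ∈ S`, but in that case `K = {dt d}` (b2 and common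
point) is not `RT`; injective by c8 (via tuniq); surjective by b3, c3). Use b6.
`cnt`: from `big`: `{K | IsOC} ⊆ {{cp v i} | v ∈ T} ∪ {{dt d} | d.fst ∈ S, d.snd ∈ T} ∪ {K | RT U K}`, so
`U.ncard + 2 ≤ 2 |T| + #{d | d.fst ∈ S, d.snd ∈ T} + 𝒞.ncard`, and `U` contains the disjoint sets
`{cp v i | v ∈ S}` (`2|S|`), `{ex j}` (`2k`), `{dt d | d.fst ∈ T}`; the darts from `T` are those with `d.snd ∈ S` and those
with `d.snd` in a member `C` of `𝒞`; the latter are in bijection with the pairs `(u, C)`, `Tou G u C` (tuniq,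
cpair). -/
def Stmt_BAR : Prop := ∀ (W : Type) [Fintype W] (G : SimpleGraph W) (k : ℕ),
  (∀ v, ∃ u, G.Adj v u) →
  (¬ ∃ H : SimpleGraph W, H ≤ G ∧ (∀ v, (H.neighborSet v).ncard ≤ 2) ∧
    Nat.card W ≤ H.edgeSet.ncard + k) →
  ∃ (S T : Set W) (𝒞 : Set (Set W)), Bar G k S T 𝒞

/-- FOUR (module `TFK_FOUR`, uses nothing).

Proof. Every vertex has at least four neighbours, and (SEP): if `X ≠ ∅`, `|Y| ≤ 3`, `X ∩ Y = ∅` and all
neighbours of `X` are in `X ∪ Y`, then `X ∪ Y` is everything (`G - Y` is connected by `FourConn`); for the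
degree: `X = {v}`, `Y` = neighbours of `v`, `|W| ≥ 5`. Write `τ(C) = |TN G T C|`, odd by `codd`, so `τ(C) = 1` or
`C ∈ C3`. `#{(t,C) | Tou} = ∑_C τ(C) ≥ |𝒞 \ C3| + 3 |C3|`, so `cnt` gives `2|S| + 2k + 2 + 2|C3| ≤ 2|T|`: (a).
For `t ∈ T` the neighbours of `t` lie in `S` or in members of `𝒞`, different neighbours in different
members: `deg t = |N(t) ∩ S| + #{C | Tou G t C} ≥ 4`.
`|T| ≥ 2`: `|T| ≥ 1` by (a); if `|T| = 1` then `S`, `C3` are empty, `T = {t}`, and the `≥ 4` neighbours of `t` lie in `≥ 4`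
members of `𝒞`; for one of them, `C`, all neighbours of `C` are in `C ∪ {t}` (cclosed), so SEP says that
`C ∪ {t}` is everything, but another member is disjoint from it.
(b) Let `t ∈ T`, and let `D₁ = {C ∈ 𝒞 | TN G T C = {t}}`. If `D₁` is empty then every `C` with `Tou G t C` is in `C3`
(`τ` odd, not 1 because `t ∈ TN`), and `AA t = {t}`: done by `deg t ≥ 4`. Let `C ∈ D₁`. The neighbours of `C` outside `C` are
in `{t} ∪ N_S(C)` where `N_S(C) = {s ∈ S | s` adjacent to a vertex of `C}`; another element of `T` is outside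
`C ∪ {t} ∪ N_S(C)`, so by SEP `|N_S(C)| ≥ 3`; `N_S(C) ⊆ N_S(AA t)`. If `t` touches a member of `C3` we
have `≥ 3 + 1`. If not, all neighbours of `AA t` outside `AA t` are in `N_S(AA t)` (`t`'s neighbours: in `S`, or
in `C' ∈ 𝒞` with `t ∈ TN C'`, not in `C3`, so `TN C' = {t}`, `C' ⊆ AA t`); another element of `T` is
outside, so by SEP `|N_S(AA t)| ≥ 4`.
The connectedness (c) of `AA t`: `t` is adjacent to each `C ∈ D₁` and each `C` is connected. (d), (e) disjointness:
for `t ≠ t'` the members in `D₁(t)` and `D₁(t')` are different. -/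
def Stmt_FOUR : Prop := ∀ (W : Type) [Fintype W] (G : SimpleGraph W) (k : ℕ) (S T : Set W)
  (𝒞 : Set (Set W)), KR.FourConn G → Bar G k S T 𝒞 →
  S.ncard + (C3 G T 𝒞).ncard + k + 1 ≤ T.ncard ∧                                        -- (a)
  (∀ t ∈ T, 4 ≤ {s | s ∈ S ∧ ∃ u ∈ AA G T 𝒞 t, G.Adj u s}.ncard +
    {C | C ∈ C3 G T 𝒞 ∧ ∃ u ∈ AA G T 𝒞 t, Tou G u C}.ncard) ∧                           -- (b)
  (∀ t ∈ T, (G.induce (AA G T 𝒞 t)).Connected) ∧                                        -- (c)
  (∀ t ∈ T, ∀ t' ∈ T, t ≠ t' → Disjoint (AA G T 𝒞 t) (AA G T 𝒞 t')) ∧                   -- (d)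
  (∀ t ∈ T, Disjoint (AA G T 𝒞 t) S ∧ ∀ C ∈ C3 G T 𝒞, Disjoint (AA G T 𝒞 t) C)          -- (e)

/-- LA (region count; module `TFK_LA`, uses nothing).

Proof. `F = M.Face`. If `Y` is everything the claim is: the number of classes is at least
`|F| - (|Ω| - |K|)/4`. General case. For `v ∉ Y` choose a flag `p v` with `w (p v) = v` and
`dist (w (a0 (p v))) < dist v`, `dist` = distance to `Y` in `G` (or any rank function; `G` connected, `Y ≠ ∅`).
Let `P = {x | ∃ v ∉ Y, x ∈ {p v, a0 (p v), a2 (p v), a0 (a2 (p v))}}`: `|P| = 4 |W \ Y|` (four different flags,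
because `w (a0 x) ≠ w x`, `n2`; different `v` give disjoint sets: by `uniq` a common flag would mean that the
edge `p v` has ends `v`, `v'`, and each is nearer to `Y` than the other), and `P ∩ K = ∅` (`w (p v) ∉ Y`, `K` closed
under `a0`, `a2`). Work with functions `g : F → ZMod 2`. CLAIM 1: if `g [x] = g [a2 x]` for all `x ∉ K ∪ P` then
also for `x ∈ P`. Proof: induction on `dist v` DOWNWARDS (farthest first); let `x = p v`. The set
`A = {y | w y = v ∧ g [y] = 1}` is closed under `a1` (`[a1 y] = [y]`), which has no fixed point: `|A|` is even. `A` minus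
`{x, a2 x}` is closed under `a2` (fixed point free): for `y` with `w y = v`, `y ∉ {x, a2 x}`: `y ∉ K` (`v ∉ Y`), and if `y ∈ P`
it belongs to `p u` for some `u ≠ v`, whose other end is `v`, so `dist u > dist v` and the induction hypothesis
applies to `u` (`g [x'] = g [a2 x']` for the four flags `x'` of that edge; note `[a0 x'] = [x']`, `a0 a2 = a2 a0`). So
`|A ∩ {x, a2 x}|` is even: `g [x] = g [a2 x]`.
CLAIM 2: dimension count. `Z = {g | ∀ x ∉ K, g [x] = g [a2 x]}` is the space of functions on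
`Quot (JK M K)`, `finrank = Nat.card (Quot (JK M K))`. By claim 1 `Z = ker L`, `L : (F → ZMod 2) → (D → ZMod 2)`,
`L g d = g [x_d] - g [a2 x_d]`, where `D` = set of edges (quotient of the flags by `a0`, `a2`) outside `K ∪ P`,
`|D| = (|Ω| - |K| - |P|) / 4` (every edge has exactly four flags), `x_d` a representative. Rank-nullity
(`LinearMap.finrank_range_add_finrank_ker`): `|F| ≤ |Quot| + |D|`, so
`4|F| ≤ 4|Quot| + |Ω| - |K| - 4(|W| - |Y|)`. See `Pool/Agent/KR/KR_LA.lean` for a related computation. -/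
def Stmt_LA : Prop := ∀ (W Ω : Type) [Fintype W] [Finite Ω] (G : SimpleGraph W) (M : KR.GMap G Ω),
  G.Connected → ∀ (K : Set Ω) (Y : Set W), IsE M K → Y.Nonempty → (∀ x ∈ K, M.w x ∈ Y) →
  K.ncard + 4 * Nat.card W + 4 * Nat.card M.Face ≤
    4 * Y.ncard + 4 * Nat.card (Quot (JK M K)) + Nat.card Ω

/-- SIDE (every region has at least four sides; module `TFK_SIDE`, uses nothing).

Proof. For a region `ρ : Quot (JK M (B ∪ E))` let `Fl = {x | [face of x] = ρ}`: nonempty, closed under `a0`, `a1`
(same face) and `x ∈ Fl, x ∉ B ∪ E → a2 x ∈ Fl`. `B ∩ E = ∅`. It suffices: `8 ≤ |Fl ∩ B|` for every `ρ` (the sets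
`Fl ∩ B` are disjoint with union `B`).
(1) For a vertex `v`: `#{x ∈ Fl, w x = v}` is even (`a1`, no fixed point), `#{x ∈ Fl, w x = v, x ∉ B ∪ E}` is even (`a2`), so
`#{x ∈ Fl ∩ (B ∪ E), w x = v}` is even. (2) For `n : N`: sum over `v` with `lab v = n`; `{x ∈ Fl ∩ E, lab (w x) = n}` is
even (`a0`, which has no fixed point since `G` has no loops), so `#{x ∈ Fl ∩ B, lab (w x) = n}` is even.
(3) `a0` exchanges the flags of `Fl ∩ B` with `sd (lab (w x)) = true` and `= false`, and the former are an
even number (sum over `n`), so `4 ∣ m := |Fl ∩ B|`. Suppose `m ≤ 4`; then each side has `m / 2 ∈ {0, 2}` flags.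
(4) `Fl ∩ B` is closed under `a2`: let `x ∈ Fl ∩ B`; the number of flags of `Fl ∩ B` with label `lab (w x)` is even, so
there is `y ≠ x` in it with the same label `lab (w y) = lab (w x)`, and these are all the flags on this side; `a0 x`,
`a0 y` are all the flags on the other side, and the number of those with label `lab (w (a0 x))` is even, so
`lab (w (a0 y)) = lab (w (a0 x))`; hence `y = a2 x` by the simplicity hypothesis (`y = x` or `y = a2 x`).
(5) `D = {x ∈ E | ¬ (x ∈ Fl ↔ a2 x ∈ Fl)}` is closed under `a0`, `a2` and at each vertex `v` has `4 ∣ #`: by (1) and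
(4) `#{x ∈ D ∩ Fl, w x = v}` is even (the flags `x ∈ Fl ∩ (B ∪ E)` at `v` with `a2 x ∈ Fl` form pairs) and
`#{x ∈ D, w x = v}` is twice this number (`a2`). So `D = ∅` by `NoCyc`.
(6) So `Fl` is closed under `a0, a1, a2`; the flags are connected (`G` connected and `vtx`, `adj`, `uniq`: if `x ∈ Fl`
then all flags at `w x` are in `Fl`, and going to a neighbour by `a0`), so `Fl` is everything and `m = |B| > 4`. -/
def Stmt_SIDE : Prop := ∀ (W Ω N : Type) [Fintype W] [Finite Ω] [Finite N] (G : SimpleGraph W)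
  (M : KR.GMap G Ω), G.Connected → ∀ (lab : W → N) (sd : N → Bool) (B E : Set Ω),
  IsE M B → IsE M E →
  (∀ x ∈ B, sd (lab (M.w x)) ≠ sd (lab (M.w (M.a0 x)))) →
  (∀ x ∈ E, lab (M.w x) = lab (M.w (M.a0 x))) →
  (∀ x ∈ B, ∀ y ∈ B, lab (M.w x) = lab (M.w y) →
    lab (M.w (M.a0 x)) = lab (M.w (M.a0 y)) → y = x ∨ y = M.a2 x) →
  NoCyc M E → 4 < B.ncard →
  8 * Nat.card (Quot (JK M (B ∪ E))) ≤ B.ncard

/-- TREE (module `TFK_TREE`, uses nothing).

Proof. For every `a` a spanning tree `T_a ≤ G.induce (Y a)` (`SimpleGraph.Connected.exists_isTree_le`), with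
`|Y a| - 1` edges (`SimpleGraph.IsTree.card_edgeFinset`). `E = {x | ∃ a, ∃ h h', (T_a).Adj ⟨w x, h⟩ ⟨w (a0 x), h'⟩}`.
Every edge of `T_a` has exactly four flags (`adj` gives `x` with these ends, `uniq`: the flags with ordered ends
`(u,v)` are `x`, `a2 x`), so `|E| = ∑_a 4 (|Y a| - 1)`; `⋃ Y a` is a disjoint union. `NoCyc`: let `D` be as in the
definition, `H.Adj u v :⟺ ∃ x ∈ D, w x = u ∧ w (a0 x) = v`. The number of flags of `D` at `v` is twice the number of
`H`-neighbours of `v` (`x`, `a2 x`), so all degrees of `H` are even. `H` is acyclic: it is below the union of the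
trees (every closed walk stays in one `Y a`), equivalently its restriction to every `Y a` is `≤ T_a`. A finite
acyclic graph with an edge has a vertex of degree one (a leaf); so `H` has no edge and `D = ∅`. (Leaf: e.g.
remove the edge `uv` of the tree `T_a`; the set `A` of vertices reachable from `u` in `T_a` minus `uv` does not
contain `v` (`isAcyclic_iff_forall_edge_isBridge` or similar); the sum over `A` of the `H`-degrees is even, but it
counts every `H`-edge inside `A` twice and the edge `uv` once.) -/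
def Stmt_TREE : Prop := ∀ (W Ω N : Type) [Fintype W] [Finite Ω] [Finite N] (G : SimpleGraph W)
  (M : KR.GMap G Ω) (Y : N → Set W), (∀ a b, a ≠ b → Disjoint (Y a) (Y b)) →
  (∀ a, (G.induce (Y a)).Connected) →
  ∃ E : Set Ω, IsE M E ∧ (∀ x ∈ E, ∃ a, M.w x ∈ Y a ∧ M.w (M.a0 x) ∈ Y a) ∧ NoCyc M E ∧
    E.ncard + 4 * Nat.card N = 4 * (⋃ a, Y a).ncard

/-- EUL (Euler inequality for minors; module `TFK_EUL`, hypotheses `Stmt_LA`, `Stmt_SIDE`, `Stmt_TREE`).

Proof. `N = I ⊕ J`. If `I` is empty the claim is trivial. `E` from TREE. For each pair `(i,j)` with an edge between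
`Y (inl i)` and `Y (inr j)` choose a flag `x_{ij}` with `w x ∈ Y (inl i)`, `w (a0 x) ∈ Y (inr j)`; `B` = the set of all
`x_{ij}, a0 x_{ij}, a2 x_{ij}, a0 (a2 x_{ij})`. `|B| = 4 p`, `p` = number of pairs `≥ 4 |I|`. `lab : W → N` with `lab v = a` for
`v ∈ Y a` (`N` is nonempty), `sd = Sum.isLeft`. SIDE: `8 R ≤ |B|`, `R = Nat.card (Quot (JK M (B ∪ E)))`. LA with
`K = B ∪ E`, `Y = ⋃ a, Y a`: `|B| + |E| + 4|W| + 4|F| ≤ 4|Y| + 4R + |Ω| ≤ 4|Y| + 4R + 4|W| + 4|F| + 4k` and
`|E| = 4|Y| - 4|N|`, so `|B| ≤ 4|N| + 4R + 4k`, `2|B| ≤ 8|N| + 8k + |B|`, `16 |I| ≤ |B| ≤ 8|I| + 8|J| + 8k`. -/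
def Stmt_EUL : Prop := ∀ (W Ω I J : Type) [Fintype W] [Finite Ω] [Finite I] [Finite J]
  (G : SimpleGraph W) (M : KR.GMap G Ω) (k : ℕ),
  Nat.card Ω ≤ 4 * (Nat.card W + Nat.card M.Face + k) → G.Connected →
  ∀ Y : I ⊕ J → Set W, (∀ a b, a ≠ b → Disjoint (Y a) (Y b)) →
  (∀ a, (G.induce (Y a)).Connected) →
  (∀ i : I, 4 ≤ {j : J | ∃ u ∈ Y (Sum.inl i), ∃ v ∈ Y (Sum.inr j), G.Adj u v}.ncard) →
  Nat.card I ≤ Nat.card J + k

/-- MAIN (module `TFK_MAIN`, hypotheses `Stmt_BAR`, `Stmt_FOUR`, `Stmt_EUL`).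

Proof. Suppose there is no such `H` (the first three properties). `G` is connected and has minimum degree `≥ 1`
(`FourConn`), so BAR, FOUR. EUL with `I = T`, `J = S ⊕ C3` (as types, `↥T`, `↥S ⊕ ↥C3`), `Y (inl t) = AA t`,
`Y (inr (inl s)) = {s}`, `Y (inr (inr C)) = C`: `|T| ≤ |S| + |C3| + k`, contradiction to (a). For `k = 0`:
`∑_v deg_H v = 2 |E(H)| ≥ 2 |W|` and all degrees are `≤ 2`, so all are equal to `2`. -/
def Stmt_MAIN : Prop := ∀ (W Ω : Type) [Fintype W] [Finite Ω] (G : SimpleGraph W)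
  (M : KR.GMap G Ω) (k : ℕ), Nat.card Ω ≤ 4 * (Nat.card W + Nat.card M.Face + k) →
  KR.FourConn G →
  ∃ H : SimpleGraph W, H ≤ G ∧ (∀ v, (H.neighborSet v).ncard ≤ 2) ∧
    Nat.card W ≤ H.edgeSet.ncard + k ∧ (k = 0 → ∀ v, (H.neighborSet v).ncard = 2)

/-- SHARP (module `TFK_SHARP`, uses nothing).

Proof. `m = k + 4`, `W = (Bool × Bool) ⊕ ZMod m`, `G` = complete bipartite graph (`K_{4,m}`). Choose
`c : ZMod m → Bool × Bool` with values in the three elements `≠ (false,false)` and `c (i + 1) ≠ c i` for all `i`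
(for `i.val < m - 1` alternate between two values, the last one `i.val = m - 1` gets the third value). `s + c i` means
componentwise xor. Flags `Ω = ZMod m × (Bool × Bool) × Bool × Bool` = `(i, s, σ, e)`: the edge joins `s` and `i`,
`e = false`: vertex `inl s`, `e = true`: vertex `inr i`; `σ` = side. `a0` flips `e`, `a2` flips `σ`;
`a1 (i, s, true, false) = (i + 1, s, false, false)`, `a1 (i, s, false, false) = (i - 1, s, true, false)`,
`a1 (i, s, true, true) = (i, s + c i, true, true)`, `a1 (i, s, false, true) = (i, s + c (i - 1), false, true)`.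
`vtx` at `inl s`: all `i` are reached, at `inr i`: `c i ≠ c (i - 1)` nonzero generate. Faces: `|Ω| = 16 m`,
`|W| = 4 + m`, so one needs `4 m ≤ 4 + m + |F| + k`, i.e. `|F| ≥ 2 m`: an invariant `φ : Ω → ZMod m × Bool` of `a0, a1`,
surjective: `φ (i, s, true, e) = (i, h (c i) s)`, `φ (i, s, false, e) = (i - 1, h (c (i - 1)) s)` where `h c` is a
nonconstant homomorphism `Bool × Bool → Bool` with kernel `{0, c}`. FourConn: a set of fewer than 4 vertices misses
a vertex on each side. `H`: every edge of `H` has an end in the side `Bool × Bool` of four vertices of degree `≤ 2`: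
`|E(H)| ≤ 8`, `|W| = 8 + k`. -/
def Stmt_SHARP : Prop := ∀ k : ℕ, ∃ (W Ω : Type) (_ : Fintype W) (_ : Finite Ω)
  (G : SimpleGraph W) (M : KR.GMap G Ω),
  Nat.card Ω ≤ 4 * (Nat.card W + Nat.card M.Face + k) ∧ KR.FourConn G ∧
  ∀ H : SimpleGraph W, H ≤ G → (∀ v, (H.neighborSet v).ncard ≤ 2) →
    H.edgeSet.ncard + k ≤ Nat.card W

end Pool.Agent.TFK
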